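import Pool.Agent.W477.CL.Base

/-!
# The statements of the parts
-/

set_option linter.all false

namespace Pool.Agent.W477.CL

open FirstOrder FirstOrder.Language
open Pool.Agent.Helper672.ZFA hiding IsOrdPair IsPair Mem
open Pool.Agent.H310
open Pool.Agent.W924

universe u

/-! ### Combinatorics -/

/-- SZ: sizes of finite sets. -/
structure SzF (M : Type u) [L.Structure M] [IsModel M] : Prop where
  empty : ∀ (γ : Type u) [ITy M γ], sz (∅ : IPow M γ) = 0
  ins : ∀ (γ : Type u) [ITy M γ] (s : IPow M γ) (a : γ), IFin s → ¬ a ∈ s →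
    sz (insert a s) = (sz s).succ
  mono : ∀ (γ : Type u) [ITy M γ] (s t : IPow M γ), IFin t → s ⊆ t → sz s ≤ sz t
  img : ∀ (γ δ : Type u) [ITy M γ] [ITy M δ] (s : IPow M γ) (f : IFun M γ δ), IFin s → Inj f →
    sz (iimage f s) = sz s

def P_SZ : Prop := ∀ (M : Type u) [L.Structure M] [IsModel M], SzF M

/-- CHAIN: the limit of a chain of finite partial functions. -/
def P_CHAIN : Prop := ∀ (M : Type u) [L.Structure M] [IsModel M]
  (Q : IPow M (INat M × INat M) → Prop) (W : INat M → IPow M (INat M × INat M) → Prop)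
  (p₀ : IPow M (INat M × INat M)),
  Int M Q → Int M (fun q : INat M × IPow M (INat M × INat M) => W q.1 q.2) → Q p₀ →
  (∀ p, Q p → IFin p) → (∀ p x y y', Q p → (x, y) ∈ p → (x, y') ∈ p → y = y') →
  (∀ p n, Q p → ∃ p', Q p' ∧ p ⊆ p' ∧ W n p' ∧ ∃ y, (n, y) ∈ p') →
  ∃ f : IFun M (INat M) (INat M), (∀ x y, (x, y) ∈ p₀ → f x = y) ∧
    (∀ n, ∃ p, Q p ∧ W n p ∧ ∀ x y, (x, y) ∈ p → f x = y) ∧
    ∀ B : IPow M (INat M), IFin B →
      ∃ p, Q p ∧ (∀ x, x ∈ B → (x, f x) ∈ p) ∧ ∀ x y, (x, y) ∈ p → f x = y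

/-- ENUM: all finite sets of natural numbers can be listed. -/
def P_ENUM : Prop := ∀ (M : Type u) [L.Structure M] [IsModel M],
  ∃ E : INat M → IPow M (INat M), IntF M E ∧ (∀ n, IFin (E n)) ∧
    ∀ S : IPow M (INat M), IFin S → ∃ n, E n = S

/-- EPEX: existence of a set with the extension property. -/
def P_EPEX : Prop := ∀ (M : Type u) [L.Structure M] [IsModel M],
  ∃ c : IPow M (IPow M (INat M)), EP c

/-- EXT: one-point extensions. -/
def P_EXT : Prop := ∀ (M : Type u) [L.Structure M] [IsModel M]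
  (c' c : IPow M (IPow M (INat M))) (p : IPow M (INat M × INat M)) (x : INat M),
  EP c → PIso c' c p → (∀ y, ¬ (x, y) ∈ p) → ∃ z, PIso c' c (insert (x, z) p)

/-- EMB: the embedding lemma. -/
def P_EMB : Prop := ∀ (M : Type u) [L.Structure M] [IsModel M]
  (c' c : IPow M (IPow M (INat M))) (A : IPow M (INat M)), EP c → IFin A →
  (∀ B, B ⊆ A → (∃ x, x ∈ B) → (B ∈ c' ↔ B ∈ c)) →
  ∃ f : IFun M (INat M) (INat M), Inj f ∧ (∀ a, a ∈ A → f a = a) ∧
    ∀ B : IPow M (INat M), IFin B → (∃ x, x ∈ B) → (iimage f B ∈ c ↔ B ∈ c')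

/-- HOM: homogeneity. -/
def P_HOM : Prop := ∀ (M : Type u) [L.Structure M] [IsModel M]
  (c : IPow M (IPow M (INat M))) (p : IPow M (INat M × INat M)), EP c → PIso c c p →
  ∃ f g : IFun M (INat M) (INat M), (∀ a b, f a = b ↔ g b = a) ∧ (∀ x y, (x, y) ∈ p → f x = y) ∧
    Inj f ∧ Inj g ∧ Knd c f 0 ∧ Knd c g 0

/-- BIG: sets of every size that are not in `c`. -/
def P_BIG : Prop := ∀ (M : Type u) [L.Structure M] [IsModel M]
  (c : IPow M (IPow M (INat M))), EP c →
  ∀ n : INat M, n ≠ 0 → ∃ B : IPow M (INat M), IFin B ∧ sz B = n ∧ ¬ B ∈ c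

/-- MNF: the minimum. -/
structure MnF (M : Type u) [L.Structure M] [IsModel M] : Prop where
  zero_left : ∀ a : INat M, mn 0 a = a
  zero_right : ∀ a : INat M, mn a 0 = a
  assoc : ∀ a b d : INat M, mn (mn a b) d = mn a (mn b d)
  big : ∀ (γ : Type u) [ITy M γ] (a b : INat M) (B : IPow M γ),
    Big (mn a b) B ↔ (Big a B ∨ Big b B)

def P_MN : Prop := ∀ (M : Type u) [L.Structure M] [IsModel M], MnF M

/-- KND: properties of the kinds. -/
structure KndF (M : Type u) [L.Structure M] [IsModel M] (c : IPow M (IPow M (INat M))) :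
    Prop where
  id : ∀ f : IFun M (INat M) (INat M), (∀ a, f a = a) → Knd c f 0
  comp : ∀ (f g h : IFun M (INat M) (INat M)) (k l : INat M), Knd c f k → Knd c g l → Inj g →
    (∀ a, h a = f (g a)) → Knd c h (mn k l)
  uniq : ∀ (f : IFun M (INat M) (INat M)) (k l : INat M), Knd c f k → Knd c f l → k = l

def P_KND : Prop := ∀ (M : Type u) [L.Structure M] [IsModel M] (c : IPow M (IPow M (INat M))),
  EP c → KndF M c

/-- NEAR: functions of nonzero kind near the identity. -/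
def P_NEAR : Prop := ∀ (M : Type u) [L.Structure M] [IsModel M]
  (c : IPow M (IPow M (INat M))) (A : IPow M (INat M)), EP c → IFin A →
  ∃ (f : IFun M (INat M) (INat M)) (k : INat M), Inj f ∧ k ≠ 0 ∧ Knd c f k ∧
    ∀ a, a ∈ A → f a = a

/-- CLS: the functions that have a kind form a closed set. -/
def P_CLS : Prop := ∀ (M : Type u) [L.Structure M] [IsModel M]
  (c : IPow M (IPow M (INat M))) (f : IFun M (INat M) (INat M)), EP c →
  (∀ A : IPow M (INat M), IFin A → ∃ (g : IFun M (INat M) (INat M)) (k : INat M), Inj g ∧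
    Knd c g k ∧ ∀ a, a ∈ A → g a = f a) → Inj f ∧ ∃ k, Knd c f k

/-- ORB: finitely many orbits. -/
def P_ORB : Prop := ∀ (M : Type u) [L.Structure M] [IsModel M]
  (c : IPow M (IPow M (INat M))) (n : INat M),
  ∃ s : IPow M (TT M (INat M)), IFin s ∧ (∀ x, x ∈ s → ITup n x) ∧
    ∀ x, ITup n x → ∃ x' p, x' ∈ s ∧ PIso c c p ∧ ∀ i y z, (i, y) ∈ x' → (i, z) ∈ x → (y, z) ∈ p

/-- The properties of the monoids. -/
structure MonF (M : Type u) [L.Structure M] [IsModel M] (c : IPow M (IPow M (INat M))) :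
    Prop where
  good : Good (NN c)
  good' : Good (NN' c)
  iso : MonIso (ThT c) (NN c) (NN' c)
  olig : OligMon (NN c)
  disc : ∀ A : IPow M (INat M), IFin A → ∃ f h, (f, h) ∈ ThT c ∧ (∀ a, a ∈ A → f a = a) ∧
    h (0, 0) ≠ (0, 0)

/-- MONA, ..., MOND. -/
def P_MONA : Prop := ∀ (M : Type u) [L.Structure M] [IsModel M]
  (c : IPow M (IPow M (INat M))), EP c → Good (NN c)

def P_MONB : Prop := ∀ (M : Type u) [L.Structure M] [IsModel M]
  (c : IPow M (IPow M (INat M))), EP c → Good (NN' c)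

def P_MONC : Prop := ∀ (M : Type u) [L.Structure M] [IsModel M]
  (c : IPow M (IPow M (INat M))), EP c → MonIso (ThT c) (NN c) (NN' c)

def P_MOND : Prop := ∀ (M : Type u) [L.Structure M] [IsModel M]
  (c : IPow M (IPow M (INat M))), EP c → OligMon (NN c) ∧
  ∀ A : IPow M (INat M), IFin A → ∃ f h, (f, h) ∈ ThT c ∧ (∀ a, a ∈ A → f a = a) ∧
    h (0, 0) ≠ (0, 0)

/-! ### Clones of operations that depend on one coordinate -/

/-- IOP: properties of tuples and of the operations `iop`. -/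
structure IopF (M : Type u) [L.Structure M] [IsModel M] : Prop where
  tup : ∀ (γ : Type u) [ITy M γ] (n : INat M) (f : INat M → γ), IntF M f →
    ∃ x : TT M γ, ITup n x ∧ ∀ k y, (k, y) ∈ x ↔ (k < n ∧ f k = y)
  arity : ∀ (γ : Type u) [ITy M γ] (n n' : INat M) (F : WW M γ) (a : γ), IOp n F → IOp n' F →
    n = n'
  ext : ∀ (γ : Type u) [ITy M γ] (n : INat M) (F G : WW M γ), IOp n F → IOp n G →
    (∀ x y, (x, y) ∈ F → (x, y) ∈ G) → F = G
  op : ∀ (γ : Type u) [ITy M γ] (n i : INat M) (f : IFun M γ γ), i < n → IOp n (iop n i f)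
  inj : ∀ (γ : Type u) [ITy M γ] (n i n' i' : INat M) (f f' : IFun M γ γ), i < n → i' < n' →
    (∃ a b, f a ≠ f b) → iop n i f = iop n' i' f' → n = n' ∧ i = i' ∧ f = f'
  prj : ∀ (γ : Type u) [ITy M γ] (n i : INat M) (F : WW M γ) (f : IFun M γ γ), i < n →
    IPrj F n i → (∀ a, f a = a) → F = iop n i f
  cmp : ∀ (γ : Type u) [ITy M γ] (n m i j : INat M) (f f' f'' : IFun M γ γ) (H K : WW M γ)
    (G : IPow M (INat M × WW M γ)), i < n → j < m → ITup m G → (∀ l k, (l, k) ∈ G → IOp n k) →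
    (j, K) ∈ G → K = iop n i f' → ICmp H (iop m j f) G m n → (∀ a, f'' a = f (f' a)) →
    H = iop n i f''
  one : ∀ (γ : Type u) [ITy M γ] (f : IFun M γ γ) (y z : γ),
    IVal (iop (INat.succ 0) 0 f) y z ↔ f y = z

def P_IOP : Prop := ∀ (M : Type u) [L.Structure M] [IsModel M], IopF M

def P_U1 : Prop := ∀ (M : Type u) [L.Structure M] [IsModel M] (γ : Type u) [ITy M γ]
  (N : IPow M (IFun M γ γ)), Good N → IClone (UU N)

def P_U2 : Prop := ∀ (M : Type u) [L.Structure M] [IsModel M] (γ : Type u) [ITy M γ]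
  (N : IPow M (IFun M γ γ)), Good N → IClosed (UU N)

def P_U3 : Prop := ∀ (M : Type u) [L.Structure M] [IsModel M] (γ δ : Type u) [ITy M γ]
  [ITy M δ] (N : IPow M (IFun M γ γ)) (N' : IPow M (IFun M δ δ))
  (T : IPow M (IFun M γ γ × IFun M δ δ)), Good N → Good N' → MonIso T N N' →
  IIso (EE T) (UU N) (UU N')

def P_U4 : Prop := ∀ (M : Type u) [L.Structure M] [IsModel M] (γ : Type u) [ITy M γ]
  (N : IPow M (IFun M γ γ)), Good N → OligMon N → IOlig (UU N)

def P_U5 : Prop := ∀ (M : Type u) [L.Structure M] [IsModel M] (γ δ : Type u) [ITy M γ]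
  [ITy M δ] (N : IPow M (IFun M γ γ)) (N' : IPow M (IFun M δ δ))
  (T : IPow M (IFun M γ γ × IFun M δ δ)) (y₀ : δ), Good N → Good N' → MonIso T N N' →
  (∀ A : IPow M γ, IFin A → ∃ f h, (f, h) ∈ T ∧ (∀ a, a ∈ A → f a = a) ∧ h y₀ ≠ y₀) →
  ¬ ICont (EE T) (UU N)

end Pool.Agent.W477.CL
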