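import Pool.Agent.W477.CL.Tr
import Pool.Agent.W477.CL.Stms
import Pool.Agent.H310R3.Real

/-!
# Assembly
-/

set_option maxHeartbeats 1000000
set_option linter.all false

namespace Pool.Agent.W477.CL

open FirstOrder FirstOrder.Language
open Pool.Agent.Helper672.ZFA hiding IsOrdPair IsPair Mem
open Pool.Agent.Helper672.Plain (LSet Mem Zermelo IsOrdPair)
open Pool.Agent.H310
open Pool.Agent.H310Cards
open Pool.Agent.W924

universe u

section

attribute [local instance] Helper672.Plain.toL

variable {M : Type u} [Helper672.Plain.LSet.Structure M] [hZ : Helper672.Plain.Zermelo M]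

local instance instModelX : IsModel M := Helper672.Plain.isModel_toL

theorem asm (hE : P_EPEX.{u}) (hA : P_MONA.{u}) (hB : P_MONB.{u}) (hC : P_MONC.{u})
    (hD : P_MOND.{u}) (h1 : P_U1.{u}) (h2 : P_U2.{u}) (h3 : P_U3.{u}) (h4 : P_U4.{u})
    (h5 : P_U5.{u}) :
    ∃ a c : M, IsCountablyInfinite a ∧ IsClone c a ∧ IsClosed c a ∧ IsOligomorphic c a ∧
      ¬ IsReconstructible c a := by
  obtain ⟨c, hc⟩ := hE M
  have gA := hA M c hc
  have gB := hB M c hc
  have gC := hC M c hc
  have gD := hD M c hc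
  refine ⟨dom M (INat M), code (M := M) (UU (NN c)), isCountablyInfinite_dom,
    isClone (h1 M _ _ gA), isClosed (h2 M _ _ gA), isOligomorphic (h4 M _ _ gA gD.1),
    fun hR => ?_⟩
  obtain ⟨hcont, -⟩ := hR (dom M (INat M × INat M)) (code (M := M) (UU (NN' c)))
    (code (M := M) (EE (ThT c)))
    (isCountable_of (f := fun q : INat M × INat M => pr q.1 q.2) int_pr (fun a b h => by
      obtain ⟨h6, h7⟩ := pr_inj h
      exact Prod.ext h6 h7))
    (isClone (h1 M _ _ gB)) (isClosed (h2 M _ _ gB)) (isIso (h3 M _ _ _ _ _ gA gB gC))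
  exact h5 M _ _ _ _ _ (0, 0) gA gB gC gD.2 (iCont hcont)

end

end Pool.Agent.W477.CL
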