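import Pool.Agent.W477.CL.Spec

/-!
# Internality of the typed notions, and membership
-/

set_option maxHeartbeats 1000000
set_option linter.all false

namespace Pool.Agent.W477.CL

open FirstOrder FirstOrder.Language
open Pool.Agent.Helper672.ZFA hiding IsOrdPair IsPair Mem
open Pool.Agent.H310
open Pool.Agent.W924

universe u

variable {M : Type u} [L.Structure M] [hM : IsModel M]
variable {γ δ ε : Type u} [ITy M γ] [ITy M δ] [ITy M ε]

theorem int_sz' : IntF M (fun s : IPow M γ => sz s) := by
  have h : Int M (fun q : (IFun M γ (INat M) × IPow M γ) × INat M => BN q.1.1 q.1.2 q.2) := int_BN
  unfold sz
  refine IntF.the ?_ (IntF.const _)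
  refine Int.ex (Int.comp₃ (p := fun (e : IFun M γ (INat M)) (s : IPow M γ) (n : INat M) => BN e s n)
    h IntF.snd' (IntF.fst IntF.fst') (IntF.snd IntF.fst'))

theorem int_sz {f : ε → IPow M γ} (hf : IntF M f) : IntF M (fun c => sz (f c)) :=
  IntF.comp int_sz' hf

theorem int_Big {k : ε → INat M} {s : ε → IPow M γ} (hk : IntF M k) (hs : IntF M s) :
    Int M (fun c => Big (k c) (s c)) := by
  unfold Big
  exact Int.and (Int.ne hk (IntF.const _)) (Int.leN hk (int_sz hs))

theorem int_Knd {c : IPow M (IPow M (INat M))} {f : ε → IFun M (INat M) (INat M)}
    {k : ε → INat M} (hf : IntF M f) (hk : IntF M k) : Int M (fun x => Knd c (f x) (k x)) := by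
  unfold Knd
  refine Int.all (Int.imp (Int.fin IntF.snd') (Int.imp (Int.ex (Int.mem IntF.snd'
    (IntF.snd IntF.fst'))) (Int.iff (Int.mem (IntF.iimage ?_ IntF.snd') (IntF.const _))
    (Int.or (Int.mem IntF.snd' (IntF.const _)) (int_Big (IntF.comp hk IntF.fst') IntF.snd')))))
  exact IntF.app (IntF.comp hf (IntF.fst IntF.fst')) IntF.snd'

theorem int_mn {a b : ε → INat M} (ha : IntF M a) (hb : IntF M b) :
    IntF M (fun x => mn (a x) (b x)) := by
  unfold mn
  exact IntF.ite (Int.eq ha (IntF.const _)) hb (IntF.ite (Int.eq hb (IntF.const _)) ha
    (IntF.ite (Int.leN ha hb) ha hb))

theorem int_PIso {c' c : IPow M (IPow M (INat M))} {p : ε → IPow M (INat M × INat M)}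
    (hp : IntF M p) : Int M (fun x => PIso c' c (p x)) := by
  unfold PIso
  (repeat' (first | with_reducible exact IntF.id | with_reducible exact IntF.fst' | with_reducible exact IntF.snd' | with_reducible exact IntF.const _ | with_reducible exact Int.const _ | assumption | with_reducible apply Int.and | with_reducible apply Int.or | with_reducible apply Int.not | with_reducible apply Int.imp | with_reducible apply Int.iff | with_reducible apply Int.ne | with_reducible apply Int.eq | with_reducible apply Int.mem | with_reducible apply Int.subset | with_reducible apply Int.ltN | with_reducible apply Int.leN | with_reducible apply Int.fin | with_reducible apply Int.unique | with_reducible apply Int.all | with_reducible apply Int.ex | with_reducible apply IntF.fst | with_reducible apply IntF.snd | with_reducible apply IntF.app | with_reducible apply IntF.ite | with_reducible apply IntF.sep | with_reducible apply IntF.lam | with_reducible apply IntF.insert | with_reducible apply IntF.singleton | with_reducible apply IntF.union | with_reducible apply IntF.inter | with_reducible apply IntF.sdiff | with_reducible apply IntF.isUnion | with_reducible apply IntF.iimage | with_reducible apply IntF.the | with_reducible apply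 IntF.irec | with_reducible_and_instances apply IntF.mul | with_reducible_and_instances apply IntF.inv | with_reducible_and_instances apply IntF.smul | with_reducible apply IntF.succ | with_reducible apply IntF.val | with_reducible apply IntF.mk | (with_reducible refine Int.comp ?_ ?_; assumption) | (with_reducible refine Int.comp₂ ?_ ?_ ?_; assumption) | (with_reducible refine Int.comp₃ ?_ ?_ ?_ ?_; assumption) | (with_reducible refine Int.comp₄ ?_ ?_ ?_ ?_ ?_; assumption) | (with_reducible refine IntF.comp ?_ ?_; assumption) | (with_reducible refine IntF.comp₂ ?_ ?_ ?_; assumption) | (with_reducible refine Helper672.ZFA.IntF.comp₃ ?_ ?_ ?_ ?_; assumption) | with_reducible apply IntF.pair))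

theorem int_Inj {f : ε → IFun M γ δ} (hf : IntF M f) : Int M (fun x => Inj (f x)) := by
  unfold Inj
  (repeat' (first | with_reducible exact IntF.id | with_reducible exact IntF.fst' | with_reducible exact IntF.snd' | with_reducible exact IntF.const _ | with_reducible exact Int.const _ | assumption | with_reducible apply Int.and | with_reducible apply Int.or | with_reducible apply Int.not | with_reducible apply Int.imp | with_reducible apply Int.iff | with_reducible apply Int.ne | with_reducible apply Int.eq | with_reducible apply Int.mem | with_reducible apply Int.subset | with_reducible apply Int.ltN | with_reducible apply Int.leN | with_reducible apply Int.fin | with_reducible apply Int.unique | with_reducible apply Int.all | with_reducible apply Int.ex | with_reducible apply IntF.fst | with_reducible apply IntF.snd | with_reducible apply IntF.app | with_reducible apply IntF.ite | with_reducible apply IntF.sep | with_reducible apply IntF.lam | with_reducible apply IntF.insert | with_reducible apply IntF.singleton | with_reducible apply IntF.union | with_reducible apply IntF.inter | with_reducible apply IntF.sdiff | with_reducible apply IntF.isUnion | with_reducible apply IntF.iimage | with_reducible apply IntF.the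 | with_reducible apply IntF.irec | with_reducible_and_instances apply IntF.mul | with_reducible_and_instances apply IntF.inv | with_reducible_and_instances apply IntF.smul | with_reducible apply IntF.succ | with_reducible apply IntF.val | with_reducible apply IntF.mk | (with_reducible refine Int.comp ?_ ?_; assumption) | (with_reducible refine Int.comp₂ ?_ ?_ ?_; assumption) | (with_reducible refine Int.comp₃ ?_ ?_ ?_ ?_; assumption) | (with_reducible refine Int.comp₄ ?_ ?_ ?_ ?_ ?_; assumption) | (with_reducible refine IntF.comp ?_ ?_; assumption) | (with_reducible refine IntF.comp₂ ?_ ?_ ?_; assumption) | (with_reducible refine Helper672.ZFA.IntF.comp₃ ?_ ?_ ?_ ?_; assumption) | with_reducible apply IntF.pair))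

theorem int_Act {f : ε → IFun M (INat M) (INat M)} {k : ε → INat M}
    {h : ε → IFun M (INat M × INat M) (INat M × INat M)} (hf : IntF M f) (hk : IntF M k)
    (hh : IntF M h) : Int M (fun x => Act (f x) (k x) (h x)) := by
  have hm : IntF M (fun q : INat M × INat M => mn q.1 q.2) := int_mn IntF.fst' IntF.snd'
  unfold Act
  (repeat' (first | with_reducible exact IntF.id | with_reducible exact IntF.fst' | with_reducible exact IntF.snd' | with_reducible exact IntF.const _ | with_reducible exact Int.const _ | assumption | with_reducible apply Int.and | with_reducible apply Int.or | with_reducible apply Int.not | with_reducible apply Int.imp | with_reducible apply Int.iff | with_reducible apply Int.ne | with_reducible apply Int.eq | with_reducible apply Int.mem | with_reducible apply Int.subset | with_reducible apply Int.ltN | with_reducible apply Int.leN | with_reducible apply Int.fin | with_reducible apply Int.unique | with_reducible apply Int.all | with_reducible apply Int.ex | with_reducible apply IntF.fst | with_reducible apply IntF.snd | with_reducible apply IntF.app | with_reducible apply IntF.ite | with_reducible apply IntF.sep | with_reducible apply IntF.lam | with_reducible apply IntF.insert | with_reducible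 apply IntF.singleton | with_reducible apply IntF.union | with_reducible apply IntF.inter | with_reducible apply IntF.sdiff | with_reducible apply IntF.isUnion | with_reducible apply IntF.iimage | with_reducible apply IntF.the | with_reducible apply IntF.irec | with_reducible_and_instances apply IntF.mul | with_reducible_and_instances apply IntF.inv | with_reducible_and_instances apply IntF.smul | with_reducible apply IntF.succ | with_reducible apply IntF.val | with_reducible apply IntF.mk | (with_reducible refine Int.comp ?_ ?_; assumption) | (with_reducible refine Int.comp₂ ?_ ?_ ?_; assumption) | (with_reducible refine Int.comp₃ ?_ ?_ ?_ ?_; assumption) | (with_reducible refine Int.comp₄ ?_ ?_ ?_ ?_ ?_; assumption) | (with_reducible refine IntF.comp ?_ ?_; assumption) | (with_reducible refine IntF.comp₂ ?_ ?_ ?_; assumption) | (with_reducible refine Helper672.ZFA.IntF.comp₃ ?_ ?_ ?_ ?_; assumption) | with_reducible apply IntF.pair))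

theorem int_ITup {n : ε → INat M} {x : ε → TT M γ} (hn : IntF M n) (hx : IntF M x) :
    Int M (fun c => ITup (n c) (x c)) := by
  unfold ITup
  (repeat' (first | with_reducible exact IntF.id | with_reducible exact IntF.fst' | with_reducible exact IntF.snd' | with_reducible exact IntF.const _ | with_reducible exact Int.const _ | assumption | with_reducible apply Int.and | with_reducible apply Int.or | with_reducible apply Int.not | with_reducible apply Int.imp | with_reducible apply Int.iff | with_reducible apply Int.ne | with_reducible apply Int.eq | with_reducible apply Int.mem | with_reducible apply Int.subset | with_reducible apply Int.ltN | with_reducible apply Int.leN | with_reducible apply Int.fin | with_reducible apply Int.unique | with_reducible apply Int.all | with_reducible apply Int.ex | with_reducible apply IntF.fst | with_reducible apply IntF.snd | with_reducible apply IntF.app | with_reducible apply IntF.ite | with_reducible apply IntF.sep | with_reducible apply IntF.lam | with_reducible apply IntF.insert | with_reducible apply IntF.singleton | with_reducible apply IntF.union | with_reducible apply IntF.inter | with_reducible apply IntF.sdiff | with_reducible apply IntF.isUnion | with_reducible apply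 IntF.iimage | with_reducible apply IntF.the | with_reducible apply IntF.irec | with_reducible_and_instances apply IntF.mul | with_reducible_and_instances apply IntF.inv | with_reducible_and_instances apply IntF.smul | with_reducible apply IntF.succ | with_reducible apply IntF.val | with_reducible apply IntF.mk | (with_reducible refine Int.comp ?_ ?_; assumption) | (with_reducible refine Int.comp₂ ?_ ?_ ?_; assumption) | (with_reducible refine Int.comp₃ ?_ ?_ ?_ ?_; assumption) | (with_reducible refine Int.comp₄ ?_ ?_ ?_ ?_ ?_; assumption) | (with_reducible refine IntF.comp ?_ ?_; assumption) | (with_reducible refine IntF.comp₂ ?_ ?_ ?_; assumption) | (with_reducible refine Helper672.ZFA.IntF.comp₃ ?_ ?_ ?_ ?_; assumption) | with_reducible apply IntF.pair))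

theorem int_IOp {n : ε → INat M} {F : ε → WW M γ} (hn : IntF M n) (hF : IntF M F) :
    Int M (fun c => IOp (n c) (F c)) := by
  have h : Int M (fun q : INat M × TT M γ => ITup q.1 q.2) := int_ITup IntF.fst' IntF.snd'
  unfold IOp
  (repeat' (first | with_reducible exact IntF.id | with_reducible exact IntF.fst' | with_reducible exact IntF.snd' | with_reducible exact IntF.const _ | with_reducible exact Int.const _ | assumption | with_reducible apply Int.and | with_reducible apply Int.or | with_reducible apply Int.not | with_reducible apply Int.imp | with_reducible apply Int.iff | with_reducible apply Int.ne | with_reducible apply Int.eq | with_reducible apply Int.mem | with_reducible apply Int.subset | with_reducible apply Int.ltN | with_reducible apply Int.leN | with_reducible apply Int.fin | with_reducible apply Int.unique | with_reducible apply Int.all | with_reducible apply Int.ex | with_reducible apply IntF.fst | with_reducible apply IntF.snd | with_reducible apply IntF.app | with_reducible apply IntF.ite | with_reducible apply IntF.sep | with_reducible apply IntF.lam | with_reducible apply IntF.insert | with_reducible apply IntF.singleton | with_reducible apply IntF.union | with_reducible apply IntF.inter |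 with_reducible apply IntF.sdiff | with_reducible apply IntF.isUnion | with_reducible apply IntF.iimage | with_reducible apply IntF.the | with_reducible apply IntF.irec | with_reducible_and_instances apply IntF.mul | with_reducible_and_instances apply IntF.inv | with_reducible_and_instances apply IntF.smul | with_reducible apply IntF.succ | with_reducible apply IntF.val | with_reducible apply IntF.mk | (with_reducible refine Int.comp ?_ ?_; assumption) | (with_reducible refine Int.comp₂ ?_ ?_ ?_; assumption) | (with_reducible refine Int.comp₃ ?_ ?_ ?_ ?_; assumption) | (with_reducible refine Int.comp₄ ?_ ?_ ?_ ?_ ?_; assumption) | (with_reducible refine IntF.comp ?_ ?_; assumption) | (with_reducible refine IntF.comp₂ ?_ ?_ ?_; assumption) | (with_reducible refine Helper672.ZFA.IntF.comp₃ ?_ ?_ ?_ ?_; assumption) | with_reducible apply IntF.pair))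

theorem int_iop' : IntF M (fun q : (INat M × INat M) × IFun M γ γ => iop q.1.1 q.1.2 q.2) := by
  have h : Int M (fun q : INat M × TT M γ => ITup q.1 q.2) := int_ITup IntF.fst' IntF.snd'
  unfold iop
  (repeat' (first | with_reducible exact IntF.id | with_reducible exact IntF.fst' | with_reducible exact IntF.snd' | with_reducible exact IntF.const _ | with_reducible exact Int.const _ | assumption | with_reducible apply Int.and | with_reducible apply Int.or | with_reducible apply Int.not | with_reducible apply Int.imp | with_reducible apply Int.iff | with_reducible apply Int.ne | with_reducible apply Int.eq | with_reducible apply Int.mem | with_reducible apply Int.subset | with_reducible apply Int.ltN | with_reducible apply Int.leN | with_reducible apply Int.fin | with_reducible apply Int.unique | with_reducible apply Int.all | with_reducible apply Int.ex | with_reducible apply IntF.fst | with_reducible apply IntF.snd | with_reducible apply IntF.app | with_reducible apply IntF.ite | with_reducible apply IntF.sep | with_reducible apply IntF.lam | with_reducible apply IntF.insert | with_reducible apply IntF.singleton | with_reducible apply IntF.union | with_reducible apply IntF.inter | with_reducible apply IntF.sdiff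 | with_reducible apply IntF.isUnion | with_reducible apply IntF.iimage | with_reducible apply IntF.the | with_reducible apply IntF.irec | with_reducible_and_instances apply IntF.mul | with_reducible_and_instances apply IntF.inv | with_reducible_and_instances apply IntF.smul | with_reducible apply IntF.succ | with_reducible apply IntF.val | with_reducible apply IntF.mk | (with_reducible refine Int.comp ?_ ?_; assumption) | (with_reducible refine Int.comp₂ ?_ ?_ ?_; assumption) | (with_reducible refine Int.comp₃ ?_ ?_ ?_ ?_; assumption) | (with_reducible refine Int.comp₄ ?_ ?_ ?_ ?_ ?_; assumption) | (with_reducible refine IntF.comp ?_ ?_; assumption) | (with_reducible refine IntF.comp₂ ?_ ?_ ?_; assumption) | (with_reducible refine Helper672.ZFA.IntF.comp₃ ?_ ?_ ?_ ?_; assumption) | with_reducible apply IntF.pair))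

theorem int_iop {n i : ε → INat M} {f : ε → IFun M γ γ} (hn : IntF M n) (hi : IntF M i)
    (hf : IntF M f) : IntF M (fun x => iop (n x) (i x) (f x)) :=
  Helper672.ZFA.IntF.comp₃ (p := fun (n i : INat M) (f : IFun M γ γ) => iop n i f) int_iop' hn hi hf

theorem mem_iop {n i : INat M} {f : IFun M γ γ} {x : TT M γ} {y : γ} :
    (x, y) ∈ iop n i f ↔ ITup n x ∧ ∃ z, (i, z) ∈ x ∧ f z = y := by
  have h : Int M (fun q : INat M × TT M γ => ITup q.1 q.2) := int_ITup IntF.fst' IntF.snd'
  unfold iop
  rw [mem_sep (by (repeat' (first | with_reducible exact IntF.id | with_reducible exact IntF.fst' | with_reducible exact IntF.snd' | with_reducible exact IntF.const _ | with_reducible exact Int.const _ | assumption | with_reducible apply Int.and | with_reducible apply Int.or | with_reducible apply Int.not | with_reducible apply Int.imp | with_reducible apply Int.iff | with_reducible apply Int.ne | with_reducible apply Int.eq | with_reducible apply Int.mem | with_reducible apply Int.subset | with_reducible apply Int.ltN | with_reducible apply Int.leN | with_reducible apply Int.fin | with_reducible apply Int.unique | with_reducible apply Int.all | with_reducible apply Int.ex | with_reducible apply IntF.fst | with_reducible apply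 IntF.snd | with_reducible apply IntF.app | with_reducible apply IntF.ite | with_reducible apply IntF.sep | with_reducible apply IntF.lam | with_reducible apply IntF.insert | with_reducible apply IntF.singleton | with_reducible apply IntF.union | with_reducible apply IntF.inter | with_reducible apply IntF.sdiff | with_reducible apply IntF.isUnion | with_reducible apply IntF.iimage | with_reducible apply IntF.the | with_reducible apply IntF.irec | with_reducible_and_instances apply IntF.mul | with_reducible_and_instances apply IntF.inv | with_reducible_and_instances apply IntF.smul | with_reducible apply IntF.succ | with_reducible apply IntF.val | with_reducible apply IntF.mk | (with_reducible refine Int.comp ?_ ?_; assumption) | (with_reducible refine Int.comp₂ ?_ ?_ ?_; assumption) | (with_reducible refine Int.comp₃ ?_ ?_ ?_ ?_; assumption) | (with_reducible refine Int.comp₄ ?_ ?_ ?_ ?_ ?_; assumption) | (with_reducible refine IntF.comp ?_ ?_; assumption) | (with_reducible refine IntF.comp₂ ?_ ?_ ?_; assumption) | (with_reducible refine Helper672.ZFA.IntF.comp₃ ?_ ?_ ?_ ?_; assumption) | with_reducible apply IntF.pair)))]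

theorem mem_UU {N : IPow M (IFun M γ γ)} {F : WW M γ} :
    F ∈ UU N ↔ ∃ n i f, i < n ∧ f ∈ N ∧ F = iop n i f := by
  have h : IntF M (fun q : (INat M × INat M) × IFun M γ γ => iop q.1.1 q.1.2 q.2) := int_iop'
  unfold UU
  rw [mem_sep (by (repeat' (first | with_reducible exact IntF.id | with_reducible exact IntF.fst' | with_reducible exact IntF.snd' | with_reducible exact IntF.const _ | with_reducible exact Int.const _ | assumption | with_reducible apply Int.and | with_reducible apply Int.or | with_reducible apply Int.not | with_reducible apply Int.imp | with_reducible apply Int.iff | with_reducible apply Int.ne | with_reducible apply Int.eq | with_reducible apply Int.mem | with_reducible apply Int.subset | with_reducible apply Int.ltN | with_reducible apply Int.leN | with_reducible apply Int.fin | with_reducible apply Int.unique | with_reducible apply Int.all | with_reducible apply Int.ex | with_reducible apply IntF.fst | with_reducible apply IntF.snd | with_reducible apply IntF.app | with_reducible apply IntF.ite | with_reducible apply IntF.sep | with_reducible apply IntF.lam | with_reducible apply IntF.insert | with_reducible apply IntF.singleton | with_reducible apply IntF.union | with_reducible apply IntF.inter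 | with_reducible apply IntF.sdiff | with_reducible apply IntF.isUnion | with_reducible apply IntF.iimage | with_reducible apply IntF.the | with_reducible apply IntF.irec | with_reducible_and_instances apply IntF.mul | with_reducible_and_instances apply IntF.inv | with_reducible_and_instances apply IntF.smul | with_reducible apply IntF.succ | with_reducible apply IntF.val | with_reducible apply IntF.mk | (with_reducible refine Int.comp ?_ ?_; assumption) | (with_reducible refine Int.comp₂ ?_ ?_ ?_; assumption) | (with_reducible refine Int.comp₃ ?_ ?_ ?_ ?_; assumption) | (with_reducible refine Int.comp₄ ?_ ?_ ?_ ?_ ?_; assumption) | (with_reducible refine IntF.comp ?_ ?_; assumption) | (with_reducible refine IntF.comp₂ ?_ ?_ ?_; assumption) | (with_reducible refine Helper672.ZFA.IntF.comp₃ ?_ ?_ ?_ ?_; assumption) | with_reducible apply IntF.pair)))]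

theorem mem_EE {T : IPow M (IFun M γ γ × IFun M δ δ)} {F : WW M γ} {G : WW M δ} :
    (F, G) ∈ EE T ↔ ∃ n i f h, i < n ∧ (f, h) ∈ T ∧ F = iop n i f ∧ G = iop n i h := by
  have h : IntF M (fun q : (INat M × INat M) × IFun M γ γ => iop q.1.1 q.1.2 q.2) := int_iop'
  have h' : IntF M (fun q : (INat M × INat M) × IFun M δ δ => iop q.1.1 q.1.2 q.2) := int_iop'
  unfold EE
  rw [mem_sep (by (repeat' (first | with_reducible exact IntF.id | with_reducible exact IntF.fst' | with_reducible exact IntF.snd' | with_reducible exact IntF.const _ | with_reducible exact Int.const _ | assumption | with_reducible apply Int.and | with_reducible apply Int.or | with_reducible apply Int.not | with_reducible apply Int.imp | with_reducible apply Int.iff | with_reducible apply Int.ne | with_reducible apply Int.eq | with_reducible apply Int.mem | with_reducible apply Int.subset | with_reducible apply Int.ltN | with_reducible apply Int.leN | with_reducible apply Int.fin | with_reducible apply Int.unique | with_reducible apply Int.all | with_reducible apply Int.ex | with_reducible apply IntF.fst | with_reducible apply IntF.snd | with_reducible apply IntF.app | with_reducible apply IntF.ite | with_reducible apply IntF.sep | with_reducible apply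 IntF.lam | with_reducible apply IntF.insert | with_reducible apply IntF.singleton | with_reducible apply IntF.union | with_reducible apply IntF.inter | with_reducible apply IntF.sdiff | with_reducible apply IntF.isUnion | with_reducible apply IntF.iimage | with_reducible apply IntF.the | with_reducible apply IntF.irec | with_reducible_and_instances apply IntF.mul | with_reducible_and_instances apply IntF.inv | with_reducible_and_instances apply IntF.smul | with_reducible apply IntF.succ | with_reducible apply IntF.val | with_reducible apply IntF.mk | (with_reducible refine Int.comp ?_ ?_; assumption) | (with_reducible refine Int.comp₂ ?_ ?_ ?_; assumption) | (with_reducible refine Int.comp₃ ?_ ?_ ?_ ?_; assumption) | (with_reducible refine Int.comp₄ ?_ ?_ ?_ ?_ ?_; assumption) | (with_reducible refine IntF.comp ?_ ?_; assumption) | (with_reducible refine IntF.comp₂ ?_ ?_ ?_; assumption) | (with_reducible refine Helper672.ZFA.IntF.comp₃ ?_ ?_ ?_ ?_; assumption) | with_reducible apply IntF.pair)))]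

theorem mem_NN {c : IPow M (IPow M (INat M))} {f : IFun M (INat M) (INat M)} :
    f ∈ NN c ↔ Inj f ∧ ∃ k, Knd c f k := by
  have hK : Int M (fun q : IFun M (INat M) (INat M) × INat M => Knd c q.1 q.2) :=
    int_Knd IntF.fst' IntF.snd'
  have hI : Int M (fun f : IFun M (INat M) (INat M) => Inj f) := int_Inj IntF.id
  unfold NN
  rw [mem_sep (by (repeat' (first | with_reducible exact IntF.id | with_reducible exact IntF.fst' | with_reducible exact IntF.snd' | with_reducible exact IntF.const _ | with_reducible exact Int.const _ | assumption | with_reducible apply Int.and | with_reducible apply Int.or | with_reducible apply Int.not | with_reducible apply Int.imp | with_reducible apply Int.iff | with_reducible apply Int.ne | with_reducible apply Int.eq | with_reducible apply Int.mem | with_reducible apply Int.subset | with_reducible apply Int.ltN | with_reducible apply Int.leN | with_reducible apply Int.fin | with_reducible apply Int.unique | with_reducible apply Int.all | with_reducible apply Int.ex | with_reducible apply IntF.fst | with_reducible apply IntF.snd | with_reducible apply IntF.app | with_reducible apply IntF.ite | with_reducible apply IntF.sep | with_reducible apply IntF.lam | with_reducible apply IntF.insert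 | with_reducible apply IntF.singleton | with_reducible apply IntF.union | with_reducible apply IntF.inter | with_reducible apply IntF.sdiff | with_reducible apply IntF.isUnion | with_reducible apply IntF.iimage | with_reducible apply IntF.the | with_reducible apply IntF.irec | with_reducible_and_instances apply IntF.mul | with_reducible_and_instances apply IntF.inv | with_reducible_and_instances apply IntF.smul | with_reducible apply IntF.succ | with_reducible apply IntF.val | with_reducible apply IntF.mk | (with_reducible refine Int.comp ?_ ?_; assumption) | (with_reducible refine Int.comp₂ ?_ ?_ ?_; assumption) | (with_reducible refine Int.comp₃ ?_ ?_ ?_ ?_; assumption) | (with_reducible refine Int.comp₄ ?_ ?_ ?_ ?_ ?_; assumption) | (with_reducible refine IntF.comp ?_ ?_; assumption) | (with_reducible refine IntF.comp₂ ?_ ?_ ?_; assumption) | (with_reducible refine Helper672.ZFA.IntF.comp₃ ?_ ?_ ?_ ?_; assumption) | with_reducible apply IntF.pair)))]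

theorem mem_ThT {c : IPow M (IPow M (INat M))} {f : IFun M (INat M) (INat M)}
    {h : IFun M (INat M × INat M) (INat M × INat M)} :
    (f, h) ∈ ThT c ↔ Inj f ∧ ∃ k, Knd c f k ∧ Act f k h := by
  have hK : Int M (fun q : IFun M (INat M) (INat M) × INat M => Knd c q.1 q.2) :=
    int_Knd IntF.fst' IntF.snd'
  have hI : Int M (fun f : IFun M (INat M) (INat M) => Inj f) := int_Inj IntF.id
  have hA : Int M (fun q : (IFun M (INat M) (INat M) × INat M) ×
      IFun M (INat M × INat M) (INat M × INat M) => Act q.1.1 q.1.2 q.2) :=
    int_Act (IntF.fst IntF.fst') (IntF.snd IntF.fst') IntF.snd'
  unfold ThT
  rw [mem_sep (by (repeat' (first | with_reducible exact IntF.id | with_reducible exact IntF.fst' | with_reducible exact IntF.snd' | with_reducible exact IntF.const _ | with_reducible exact Int.const _ | assumption | with_reducible apply Int.and | with_reducible apply Int.or | with_reducible apply Int.not | with_reducible apply Int.imp | with_reducible apply Int.iff | with_reducible apply Int.ne | with_reducible apply Int.eq | with_reducible apply Int.mem | with_reducible apply Int.subset | with_reducible apply Int.ltN | with_reducible apply Int.leN | with_reducible apply Int.fin | with_reducible apply Int.unique |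 with_reducible apply Int.all | with_reducible apply Int.ex | with_reducible apply IntF.fst | with_reducible apply IntF.snd | with_reducible apply IntF.app | with_reducible apply IntF.ite | with_reducible apply IntF.sep | with_reducible apply IntF.lam | with_reducible apply IntF.insert | with_reducible apply IntF.singleton | with_reducible apply IntF.union | with_reducible apply IntF.inter | with_reducible apply IntF.sdiff | with_reducible apply IntF.isUnion | with_reducible apply IntF.iimage | with_reducible apply IntF.the | with_reducible apply IntF.irec | with_reducible_and_instances apply IntF.mul | with_reducible_and_instances apply IntF.inv | with_reducible_and_instances apply IntF.smul | with_reducible apply IntF.succ | with_reducible apply IntF.val | with_reducible apply IntF.mk | (with_reducible refine Int.comp ?_ ?_; assumption) | (with_reducible refine Int.comp₂ ?_ ?_ ?_; assumption) | (with_reducible refine Int.comp₃ ?_ ?_ ?_ ?_; assumption) | (with_reducible refine Int.comp₄ ?_ ?_ ?_ ?_ ?_; assumption) | (with_reducible refine IntF.comp ?_ ?_; assumption) | (with_reducible refine IntF.comp₂ ?_ ?_ ?_; assumption) | (with_reducible refine Helper672.ZFA.IntF.comp₃ ?_ ?_ ?_ ?_; assumption) | with_reducible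 apply IntF.pair)))]

theorem mem_NN' {c : IPow M (IPow M (INat M))}
    {h : IFun M (INat M × INat M) (INat M × INat M)} :
    h ∈ NN' c ↔ ∃ f k, Inj f ∧ Knd c f k ∧ Act f k h := by
  have hK : Int M (fun q : IFun M (INat M) (INat M) × INat M => Knd c q.1 q.2) :=
    int_Knd IntF.fst' IntF.snd'
  have hI : Int M (fun f : IFun M (INat M) (INat M) => Inj f) := int_Inj IntF.id
  have hA : Int M (fun q : (IFun M (INat M) (INat M) × INat M) ×
      IFun M (INat M × INat M) (INat M × INat M) => Act q.1.1 q.1.2 q.2) :=
    int_Act (IntF.fst IntF.fst') (IntF.snd IntF.fst') IntF.snd'
  unfold NN'
  rw [mem_sep (by (repeat' (first | with_reducible exact IntF.id | with_reducible exact IntF.fst' | with_reducible exact IntF.snd' | with_reducible exact IntF.const _ | with_reducible exact Int.const _ | assumption | with_reducible apply Int.and | with_reducible apply Int.or | with_reducible apply Int.not | with_reducible apply Int.imp | with_reducible apply Int.iff | with_reducible apply Int.ne | with_reducible apply Int.eq | with_reducible apply Int.mem | with_reducible apply Int.subset | with_reducible apply Int.ltN | with_reducible apply Int.leN | with_reducible apply Int.fin | with_reducible apply Int.unique | with_reducible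 apply Int.all | with_reducible apply Int.ex | with_reducible apply IntF.fst | with_reducible apply IntF.snd | with_reducible apply IntF.app | with_reducible apply IntF.ite | with_reducible apply IntF.sep | with_reducible apply IntF.lam | with_reducible apply IntF.insert | with_reducible apply IntF.singleton | with_reducible apply IntF.union | with_reducible apply IntF.inter | with_reducible apply IntF.sdiff | with_reducible apply IntF.isUnion | with_reducible apply IntF.iimage | with_reducible apply IntF.the | with_reducible apply IntF.irec | with_reducible_and_instances apply IntF.mul | with_reducible_and_instances apply IntF.inv | with_reducible_and_instances apply IntF.smul | with_reducible apply IntF.succ | with_reducible apply IntF.val | with_reducible apply IntF.mk | (with_reducible refine Int.comp ?_ ?_; assumption) | (with_reducible refine Int.comp₂ ?_ ?_ ?_; assumption) | (with_reducible refine Int.comp₃ ?_ ?_ ?_ ?_; assumption) | (with_reducible refine Int.comp₄ ?_ ?_ ?_ ?_ ?_; assumption) | (with_reducible refine IntF.comp ?_ ?_; assumption) | (with_reducible refine IntF.comp₂ ?_ ?_ ?_; assumption) | (with_reducible refine Helper672.ZFA.IntF.comp₃ ?_ ?_ ?_ ?_; assumption) | with_reducible apply IntF.pair)))]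

end Pool.Agent.W477.CL
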