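import Pool.Agent.W477.CL.Base

/-!
# From sets of the model to internal objects
-/

set_option maxHeartbeats 1000000
set_option linter.all false

namespace Pool.Agent.W477.CL

open FirstOrder FirstOrder.Language
open Pool.Agent.Helper672.ZFA hiding IsOrdPair IsPair Mem
open Pool.Agent.Helper672.Plain (LSet Mem Zermelo IsOrdPair)
open Pool.Agent.H310
open Pool.Agent.H310Cards
open Pool.Agent.W924

universe u

attribute [local instance] Helper672.Plain.toL

variable {M : Type u} [Helper672.Plain.LSet.Structure M] [hZ : Helper672.Plain.Zermelo M]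

local instance instModelZ : IsModel M := Helper672.Plain.isModel_toL

variable {α β γ δ : Type u} [ITy M α] [ITy M β] [ITy M γ] [ITy M δ]

theorem mem_cp {s : IPow M α} {z : M} : Mem z (code (M := M) s) ↔ ∃ a, a ∈ s ∧ code a = z :=
  mem_code_pow (s := s)

theorem mem_cpc {s : IPow M α} {a : α} : Mem (code (M := M) a) (code (M := M) s) ↔ a ∈ s :=
  mem_code_iff (M := M) (s := s) (a := a)

theorem app_pow {s : IPow M (α × β)} {x y : M} :
    App (code (M := M) s) x y ↔ ∃ a b, code a = x ∧ code b = y ∧ (a, b) ∈ s := by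
  rw [app_iff]
  refine (mem_cp (s := s)).trans ⟨?_, ?_⟩
  · rintro ⟨⟨a, b⟩, h1, h2⟩
    obtain ⟨h3, h4⟩ := op_inj (h2 : op (code a) (code b) = op x y)
    exact ⟨a, b, h3, h4, h1⟩
  · rintro ⟨a, b, rfl, rfl, h⟩
    exact ⟨(a, b), h, rfl⟩

theorem app_powc {s : IPow M (α × β)} {a : α} {b : β} :
    App (code (M := M) s) (code a) (code b) ↔ (a, b) ∈ s := by
  rw [app_pow]
  refine ⟨?_, fun h => ⟨a, b, rfl, rfl, h⟩⟩
  rintro ⟨a', b', h1, h2, h3⟩
  rw [← ITy.inj (M := M) h1, ← ITy.inj (M := M) h2]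
  exact h3

theorem exists_pow {s : M} (h : ∀ z, Mem z s → ∃ a : α, code a = z) :
    ∃ s' : IPow M α, code s' = s := by
  have hs : Int M (fun a : α => Mem (code a) s) := ⟨s, fun a => Iff.rfl⟩
  refine ⟨⟨_, hs⟩, extM fun t => ?_⟩
  refine (mem_cp (s := (⟨_, hs⟩ : IPow M α))).trans ⟨?_, fun ht => ?_⟩
  · rintro ⟨a, ha, rfl⟩
    exact ha
  · obtain ⟨a, rfl⟩ := h t ht
    exact ⟨a, ht, rfl⟩

theorem isFun_gen {D : α → Prop} {P : β → Prop} {s t f : M}
    (hs : ∀ z, Mem z s ↔ ∃ a, D a ∧ code a = z) (ht : ∀ z, Mem z t ↔ ∃ b, P b ∧ code b = z) :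
    IsFun f s t ↔ ∃ F : IPow M (α × β), (∀ a b, (a, b) ∈ F → D a ∧ P b) ∧
      (∀ a, D a → ∃! b, (a, b) ∈ F) ∧ code F = f := by
  constructor
  · rintro ⟨h1, h2⟩
    obtain ⟨F, rfl⟩ := exists_pow (α := α × β) (s := f) (fun z hz => by
      obtain ⟨x, y, hx, hy, h⟩ := h1 z hz
      obtain ⟨a, -, rfl⟩ := (hs x).1 hx
      obtain ⟨b, -, rfl⟩ := (ht y).1 hy
      exact ⟨(a, b), (ordPair_iff.1 h).symm⟩)
    refine ⟨F, fun a b hab => ?_, fun a ha => ?_, rfl⟩
    · obtain ⟨x, y, hx, hy, h⟩ := h1 _ (mem_cpc.2 hab)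
      obtain ⟨a', ha', rfl⟩ := (hs x).1 hx
      obtain ⟨b', hb', rfl⟩ := (ht y).1 hy
      obtain ⟨h3, h4⟩ := op_inj (ordPair_iff.1 h : op (code a) (code b) = op (code a') (code b'))
      rw [ITy.inj (M := M) h3, ITy.inj (M := M) h4]
      exact ⟨ha', hb'⟩
    · obtain ⟨y, hy, hu⟩ := h2 (code a) ((hs _).2 ⟨a, ha, rfl⟩)
      obtain ⟨a', b, h3, rfl, h5⟩ := app_pow.1 hy
      rw [ITy.inj (M := M) h3] at h5
      exact ⟨b, h5, fun b' hb' => ITy.inj (M := M) (hu _ (app_powc.2 hb'))⟩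
  · rintro ⟨F, h1, h2, rfl⟩
    refine ⟨fun q hq => ?_, fun x hx => ?_⟩
    · obtain ⟨⟨a, b⟩, hab, rfl⟩ := mem_cp.1 hq
      obtain ⟨h3, h4⟩ := h1 a b hab
      exact ⟨code a, code b, (hs _).2 ⟨a, h3, rfl⟩, (ht _).2 ⟨b, h4, rfl⟩, ordPair_iff.2 rfl⟩
    · obtain ⟨a, ha, rfl⟩ := (hs x).1 hx
      obtain ⟨b, hb, hu⟩ := h2 a ha
      refine ⟨code b, app_powc.2 hb, fun y hy => ?_⟩
      obtain ⟨a', b', h3, rfl, h5⟩ := app_pow.1 hy
      rw [ITy.inj (M := M) h3] at h5
      rw [hu b' h5]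

theorem mem_val {n : INat M} {z : M} : Mem z n.val ↔ ∃ k : INat M, k < n ∧ code k = z := by
  constructor
  · intro h
    obtain ⟨m, h1, h2⟩ := mem_nat (n := n) (z := z) h
    exact ⟨m, h1, h2⟩
  · rintro ⟨k, h1, rfl⟩
    exact h1

theorem mem_domP {z : M} : Mem z (dom M γ) ↔ ∃ a : γ, True ∧ code a = z := by
  refine (mem_dom (M := M) (α := γ)).trans ?_
  simp

theorem isFun_tup {n : INat M} {x : M} :
    IsFun x n.val (dom M γ) ↔ ∃ x' : TT M γ, ITup n x' ∧ code x' = x := by
  rw [isFun_gen (α := INat M) (β := γ) (fun z => mem_val (n := n)) (fun z => mem_domP)]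
  refine exists_congr fun F => ⟨?_, ?_⟩
  · rintro ⟨h1, h2, h3⟩
    exact ⟨⟨fun k y h => (h1 k y h).1, h2⟩, h3⟩
  · rintro ⟨⟨h1, h2⟩, h3⟩
    exact ⟨fun k y h => ⟨h1 k y h, trivial⟩, h2, h3⟩

theorem isFun_tupC {n : INat M} {x : M} {C : IPow M α} :
    IsFun x n.val (code (M := M) C) ↔
      ∃ G : IPow M (INat M × α), ITup n G ∧ (∀ j k, (j, k) ∈ G → k ∈ C) ∧ code G = x := by
  rw [isFun_gen (α := INat M) (β := α) (fun z => mem_val (n := n)) (fun z => mem_cp (s := C))]
  refine exists_congr fun F => ⟨?_, ?_⟩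
  · rintro ⟨h1, h2, h3⟩
    exact ⟨⟨fun k y h => (h1 k y h).1, h2⟩, fun k y h => (h1 k y h).2, h3⟩
  · rintro ⟨⟨h1, h2⟩, h4, h3⟩
    exact ⟨fun k y h => ⟨h1 k y h, h4 k y h⟩, h2, h3⟩

theorem isOper_iff {n : INat M} {f : M} :
    IsOper f n.val (dom M γ) ↔ ∃ F : WW M γ, IOp n F ∧ code F = f := by
  constructor
  · rintro ⟨t, ht, hf⟩
    rw [isFun_gen (α := TT M γ) (β := γ) (fun z => (ht z).trans isFun_tup)
      (fun z => mem_domP)] at hf
    obtain ⟨F, h1, h2, h3⟩ := hf
    exact ⟨F, ⟨fun x y h => (h1 x y h).1, h2⟩, h3⟩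
  · rintro ⟨F, ⟨h1, h2⟩, h3⟩
    have hi : Int M (fun x : TT M γ => ITup n x) := int_ITup (IntF.const _) IntF.id
    refine ⟨code (M := M) (sep M fun x : TT M γ => ITup n x), fun x => ?_, ?_⟩
    · rw [isFun_tup, mem_cp]
      simp only [mem_sep hi]
    · rw [isFun_gen (α := TT M γ) (β := γ) (D := fun x => ITup n x) (P := fun _ => True)
        (fun z => ?_) (fun z => mem_domP)]
      · exact ⟨F, fun x y h => ⟨h1 x y h, trivial⟩, h2, h3⟩
      · rw [mem_cp]
        simp only [mem_sep hi]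

theorem isOper_code {n : INat M} {F : WW M γ} : IsOper (code F) n.val (dom M γ) ↔ IOp n F := by
  rw [isOper_iff]
  exact ⟨fun ⟨F', h1, h2⟩ => ITy.inj (M := M) h2 ▸ h1, fun h => ⟨F, h, rfl⟩⟩

theorem isNat_iff {n : M} : IsNat n ↔ ∃ n' : INat M, n'.val = n :=
  ⟨fun h => ⟨⟨n, fun i hi => h i (ind_iff.1 hi)⟩, rfl⟩,
    fun ⟨n', h⟩ i hi => h ▸ n'.prop i (ind_iff.2 hi)⟩

theorem isArity_iff {n : M} : IsArity n ↔ ∃ n' : INat M, 0 < n' ∧ n'.val = n := by
  constructor
  · rintro ⟨h1, k, hk⟩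
    obtain ⟨n', rfl⟩ := isNat_iff.1 h1
    obtain ⟨k', h2, -⟩ := mem_val.1 hk
    exact ⟨n', lt_of_le_of_lt (INat.zero_le _) h2, rfl⟩
  · rintro ⟨n', h1, rfl⟩
    exact ⟨isNat_iff.2 ⟨n', rfl⟩, _, mem_val.2 ⟨0, h1, rfl⟩⟩

theorem isFinite_iff {s : IPow M α} : IsFinite (code (M := M) s) ↔ IFin s := by
  constructor
  · intro h
    have h1 := finP_of_finite (α := α) (p := fun a => a ∈ s) s.int (t := code (M := M) s)
      (fun z => mem_cp) h
    have h2 := h1.fin s.int
    have h3 : sep M (fun a => a ∈ s) = s := IPow.ext' fun a => mem_sep s.int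
    rwa [h3] at h2
  · intro h
    obtain ⟨e, n, h1, h2, h3⟩ := exists_BN h
    have hi : Int M (fun q : α × INat M => q.1 ∈ s ∧ e q.1 = q.2) := by
      have he : IntF M (fun a => e a) := e.int
      (repeat' (first | with_reducible exact IntF.id | with_reducible exact IntF.fst' | with_reducible exact IntF.snd' | with_reducible exact IntF.const _ | with_reducible exact Int.const _ | assumption | with_reducible apply Int.and | with_reducible apply Int.or | with_reducible apply Int.not | with_reducible apply Int.imp | with_reducible apply Int.iff | with_reducible apply Int.ne | with_reducible apply Int.eq | with_reducible apply Int.mem | with_reducible apply Int.subset | with_reducible apply Int.ltN | with_reducible apply Int.leN | with_reducible apply Int.fin | with_reducible apply Int.unique | with_reducible apply Int.all | with_reducible apply Int.ex | with_reducible apply IntF.fst | with_reducible apply IntF.snd | with_reducible apply IntF.app | with_reducible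 apply IntF.ite | with_reducible apply IntF.sep | with_reducible apply IntF.lam | with_reducible apply IntF.insert | with_reducible apply IntF.singleton | with_reducible apply IntF.union | with_reducible apply IntF.inter | with_reducible apply IntF.sdiff | with_reducible apply IntF.isUnion | with_reducible apply IntF.iimage | with_reducible apply IntF.the | with_reducible apply IntF.irec | with_reducible_and_instances apply IntF.mul | with_reducible_and_instances apply IntF.inv | with_reducible_and_instances apply IntF.smul | with_reducible apply IntF.succ | with_reducible apply IntF.val | with_reducible apply IntF.mk | (with_reducible refine Int.comp ?_ ?_; assumption) | (with_reducible refine Int.comp₂ ?_ ?_ ?_; assumption) | (with_reducible refine Int.comp₃ ?_ ?_ ?_ ?_; assumption) | (with_reducible refine Int.comp₄ ?_ ?_ ?_ ?_ ?_; assumption) | (with_reducible refine IntF.comp ?_ ?_; assumption) | (with_reducible refine IntF.comp₂ ?_ ?_ ?_; assumption)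 | (with_reducible refine Helper672.ZFA.IntF.comp₃ ?_ ?_ ?_ ?_; assumption) | with_reducible apply IntF.pair))
    refine ⟨n.val, code (M := M) (sep M fun q : α × INat M => q.1 ∈ s ∧ e q.1 = q.2),
      isNat_iff.2 ⟨n, rfl⟩, ⟨?_, ?_⟩, ?_⟩
    · rw [isFun_gen (α := α) (β := INat M) (fun z => mem_cp (s := s))
        (fun z => mem_val (n := n))]
      refine ⟨_, fun a b hab => ?_, fun a ha => ?_, rfl⟩
      · rw [mem_sep hi] at hab
        obtain ⟨h5, h6⟩ := hab
        have h7 : e a = b := h6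
        rw [← h7]
        exact ⟨h5, h1 a h5⟩
      · refine ⟨e a, (mem_sep hi).2 ⟨ha, rfl⟩, fun b hb => ?_⟩
        have hb' := (mem_sep hi).1 hb
        exact hb'.2.symm
    · intro x x' y hx hx'
      obtain ⟨a, b, rfl, rfl, hab⟩ := app_pow.1 hx
      obtain ⟨a', b', rfl, h4, hab'⟩ := app_pow.1 hx'
      rw [ITy.inj (M := M) h4] at hab'
      rw [mem_sep hi] at hab hab'
      rw [h2 a a' hab.1 hab'.1 (hab.2.trans hab'.2.symm)]
    · intro y hy
      obtain ⟨k, hk, rfl⟩ := mem_val.1 hy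
      obtain ⟨a, ha, hak⟩ := h3 k hk
      exact ⟨code a, app_powc.2 ((mem_sep hi).2 ⟨ha, hak⟩)⟩

theorem zero_iff {o : M} : (∀ w, ¬ Mem w o) ↔ o = (0 : INat M).val := by
  constructor
  · intro h
    exact extM fun z => ⟨fun h1 => absurd h1 (h z), fun h1 => absurd h1 INat.not_mem_zero⟩
  · rintro rfl w hw
    exact INat.not_mem_zero (M := M) (z := w) hw

theorem one_iff {n : M} : (∀ k, Mem k n ↔ ∀ z, ¬ Mem z k) ↔ n = (INat.succ (0 : INat M)).val := by
  constructor
  · intro h
    refine extM fun z => (h z).trans (Iff.trans ?_ (mem_val (n := INat.succ (0 : INat M))).symm)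
    rw [zero_iff]
    constructor
    · rintro rfl
      exact ⟨0, INat.lt_succ_self _, rfl⟩
    · rintro ⟨k, hk, rfl⟩
      have : k = 0 := le_antisymm (INat.lt_succ_iff.1 hk) (INat.zero_le _)
      rw [this]
      rfl
  · rintro rfl k
    rw [zero_iff, mem_val]
    constructor
    · rintro ⟨k, hk, rfl⟩
      have : k = 0 := le_antisymm (INat.lt_succ_iff.1 hk) (INat.zero_le _)
      rw [this]
      rfl
    · rintro rfl
      exact ⟨0, INat.lt_succ_self _, rfl⟩

theorem isUnary_code {F : WW M γ} : IsUnary (code (M := M) F) (dom M γ) ↔ IOp (INat.succ 0) F := by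
  unfold IsUnary
  constructor
  · rintro ⟨n, h1, h2⟩
    rw [one_iff] at h1
    subst h1
    exact isOper_code.1 h2
  · intro h
    exact ⟨_, one_iff.2 rfl, isOper_code.2 h⟩

theorem sends_iff {F : WW M γ} {y z : M} :
    Sends (code (M := M) F) y z ↔ ∃ a b : γ, code a = y ∧ code b = z ∧ IVal F a b := by
  unfold Sends IVal
  constructor
  · rintro ⟨o, p, t, h1, h2, h3, h4⟩
    rw [zero_iff] at h1
    subst h1
    rw [ordPair_iff] at h2
    subst h2
    obtain ⟨t', b, rfl, rfl, h5⟩ := app_pow.1 h4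
    have h6 : Mem (op (0 : INat M).val y) (code (M := M) t') := (h3 _).2 rfl
    obtain ⟨⟨i, a⟩, h7, h8⟩ := mem_cp.1 h6
    obtain ⟨h9, h10⟩ := op_inj (h8 : op (code i) (code a) = op (0 : INat M).val y)
    refine ⟨a, b, h10, rfl, t', fun q => ?_, h5⟩
    have h11 : i = 0 := ITy.inj (M := M) (a₁ := i) (a₂ := 0) h9
    subst h11
    constructor
    · intro hq
      have h12 := (h3 _).1 (mem_cpc.2 hq)
      rw [← h8] at h12
      exact ITy.inj (M := M) h12
    · rintro rfl
      exact h7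
  · rintro ⟨a, b, rfl, rfl, t, h1, h2⟩
    refine ⟨(0 : INat M).val, op (0 : INat M).val (code a), code (M := M) t, zero_iff.2 rfl,
      ordPair_iff.2 rfl, fun q => ?_, app_powc.2 h2⟩
    rw [mem_cp]
    constructor
    · rintro ⟨q, hq, rfl⟩
      rw [(h1 q).1 hq]
      rfl
    · rintro rfl
      exact ⟨(0, a), (h1 _).2 rfl, rfl⟩

end Pool.Agent.W477.CL
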