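import Pool.Agent.W477.CL.Stms

/-!
# The limit of a chain
-/

set_option maxHeartbeats 1000000
set_option linter.all false

namespace Pool.Agent.W477.CL

open FirstOrder FirstOrder.Language
open Pool.Agent.Helper672.ZFA hiding IsOrdPair IsPair Mem
open Pool.Agent.H310
open Pool.Agent.W924

universe u

theorem chain_holds : P_CHAIN.{u} := by
  intro M _ _ Q W p₀ hQ hW hp₀ hfin hfn hstep
  have hQ' : Int M (fun q : INat M × FinS M (INat M × INat M) => Q q.2.1) :=
    Int.comp hQ (IntF.val IntF.snd')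
  have hR' : Int M (fun q : (INat M × FinS M (INat M × INat M)) × FinS M (INat M × INat M) =>
      q.1.2.1 ⊆ q.2.1 ∧ W q.1.1 q.2.1 ∧ ∃ y, (q.1.1, y) ∈ q.2.1) := by
    refine Int.and (Int.subset (IntF.val (IntF.snd IntF.fst')) (IntF.val IntF.snd')) (Int.and
      (Int.comp₂ (p := W) hW (IntF.fst IntF.fst') (IntF.val IntF.snd')) (Int.ex (Int.mem
      (IntF.pair (IntF.fst (IntF.fst IntF.fst')) IntF.snd') (IntF.val (IntF.snd IntF.fst')))))
  obtain ⟨g, hg, hg0, hgs⟩ := (IWo.nat.prod IWo.nat).fins.dc (δ := FinS M (INat M × INat M))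
    (R := fun n a b => a.1 ⊆ b.1 ∧ W n b.1 ∧ ∃ y, (n, y) ∈ b.1) hR'
    (Q := fun _ a => Q a.1) hQ' (a0 := ⟨p₀, hfin p₀ hp₀⟩) hp₀ (fun n a ha => by
      obtain ⟨p', h1, h2, h3, h4⟩ := hstep a.1 n ha
      exact ⟨⟨p', hfin p' h1⟩, h1, h2, h3, h4⟩)
  have hG : IntF M (fun n => (g n).1) := IntF.val hg
  have mono : ∀ n m : INat M, m ≤ n → (g m).1 ⊆ (g n).1 := by
    refine INat.ind (p := fun n : INat M => ∀ m : INat M, m ≤ n → (g m).1 ⊆ (g n).1)
      (Int.all (Int.imp (Int.leN IntF.snd' IntF.fst') (Int.subset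
        (IntF.comp (g := fun n : INat M => (g n).1) hG IntF.snd') (IntF.comp (g := fun n : INat M => (g n).1) hG IntF.fst')))) ?_ ?_
    · intro m hm
      rw [le_antisymm hm (INat.zero_le m)]
      exact fun q hq => hq
    · intro n ih m hm
      rcases hm.lt_or_eq with hm | rfl
      · exact fun q hq => (hgs n).2.1 q (ih m (INat.lt_succ_iff.1 hm) q hq)
      · exact fun q hq => hq
  have comp : ∀ m n x y y', (x, y) ∈ (g m).1 → (x, y') ∈ (g n).1 → y = y' := by
    intro m n x y y' h h'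
    rcases le_total m n with hmn | hmn
    · exact hfn _ x y y' (hgs n).1 (mono n m hmn _ h) h'
    · exact hfn _ x y y' (hgs m).1 h (mono m n hmn _ h')
  have hf : IntF M (fun x : INat M => the (fun y => (x, y) ∈ (g x.succ).1) 0) :=
    IntF.the (Int.mem (IntF.pair IntF.fst' IntF.snd') (IntF.comp (g := fun n : INat M => (g n).1) hG (IntF.succ IntF.fst')))
      (IntF.const _)
  have hfs : ∀ x : INat M, (x, the (fun y => (x, y) ∈ (g x.succ).1) 0) ∈ (g x.succ).1 := by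
    intro x
    obtain ⟨y, hy⟩ := (hgs x).2.2.2
    have h1 : ∃! y, (x, y) ∈ (g x.succ).1 := ⟨y, hy, fun y' hy' => comp _ _ x y' y hy' hy⟩
    exact the_spec (p := fun y => (x, y) ∈ (g x.succ).1) h1
  have hfu : ∀ n x y, (x, y) ∈ (g n).1 → the (fun y => (x, y) ∈ (g x.succ).1) 0 = y :=
    fun n x y h => comp _ _ x _ y (hfs x) h
  refine ⟨⟨_, hf⟩, fun x y hxy => hfu 0 x y (by rw [hg0]; exact hxy), fun n =>
    ⟨(g n.succ).1, (hgs n.succ).1, (hgs n).2.2.1, fun x y hxy => hfu _ x y hxy⟩,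
    fun B hB => ?_⟩
  obtain ⟨n, hn⟩ := FinP.bound (p := fun x => x ∈ B) ⟨B, hB, fun a ha => ha⟩
  exact ⟨(g n.succ).1, (hgs n.succ).1, fun x hx =>
    mono n.succ x.succ (INat.succ_le_iff.2 (INat.lt_succ_iff.2 (hn x hx))) _ (hfs x),
    fun x y hxy => hfu _ x y hxy⟩

end Pool.Agent.W477.CL
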