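import Pool.Agent.H310R3.Cards

/-!
# Function clones in a structure for the language of set theory: the definitions

The language `LSet` of set theory has one binary relation symbol. In a structure `M` for it,
`Mem x y` says that `x` is an element of `y` in the sense of `M`. All sets, tuples, operations,
clones and isomorphisms below are elements of `M`. (`LSet`, `Mem`, `Zermelo`, `IsOrdPair`,
`IsNat`, `IsOmega`, `App`, `IsFun`, `IsInj`, `IsBij` and `IsFinite` are from the imported files;
`App f x y` says that the ordered pair of `x` and `y` is an element of `f`.)

A natural number `n` of `M` is the set of the smaller natural numbers, and an `n`-tuple of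
elements of `a` is a function from `n` to `a`.
-/

namespace Pool.Agent.W477.CL

open FirstOrder FirstOrder.Language
open Pool.Agent.Helper672.Plain (LSet Mem Zermelo IsPair IsOrdPair)
open Pool.Agent.H310Cards (IsNat IsOmega App IsFun IsInj IsBij IsFinite)

universe u

variable {M : Type u} [LSet.Structure M]

/-- `n` is a natural number of the model that is not zero. -/
def IsArity (n : M) : Prop := IsNat n ∧ ∃ k, Mem k n

/-- `f` is an operation of arity `n` on `a`: a function to `a` from the set `t` of all `n`-tuples
of elements of `a`. -/
def IsOper (f n a : M) : Prop := ∃ t, (∀ x, Mem x t ↔ IsFun x n a) ∧ IsFun f t a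

/-- `p` is the projection of arity `n` on `a` to the coordinate `i`. -/
def IsProj (p n i a : M) : Prop :=
  IsOper p n a ∧ ∀ x y, IsFun x n a → App x i y → App p x y

/-- `h` is the composition of the operation `f` of arity `m` with the operations
`g(0), …, g(m - 1)` of arity `n`: the value of `h` at `x` is the value of `f` at the `m`-tuple
`t` whose entries are the values of the operations `g(j)` at `x`. -/
def IsComp (h f g m n a : M) : Prop :=
  IsOper h n a ∧ ∀ x t y, IsFun x n a → IsFun t m a →
    (∀ j k z, App g j k → App t j z → App k x z) → App f t y → App h x y

/-- `c` is a function clone on `a`: a set of operations of nonzero arities on `a` that contains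
the projections and is closed under composition. -/
structure IsClone (c a : M) : Prop where
  ops : ∀ f, Mem f c → ∃ n, IsArity n ∧ IsOper f n a
  proj : ∀ n i p, IsArity n → Mem i n → IsProj p n i a → Mem p c
  comp : ∀ m n f g h, IsArity m → IsArity n → Mem f c → IsOper f m a → IsFun g m c →
    (∀ j k, App g j k → IsOper k n a) → IsComp h f g m n a → Mem h c

/-- The clone `c` on `a` is closed in the topology of pointwise convergence: an operation `f` is
in `c` if for every finite set `s` of tuples there is in `c` an operation of the same arity that
has the same values as `f` on `s`. -/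
def IsClosed (c a : M) : Prop :=
  ∀ n f, IsArity n → IsOper f n a →
    (∀ s, IsFinite s → (∀ x, Mem x s → IsFun x n a) →
      ∃ g, Mem g c ∧ IsOper g n a ∧ ∀ x y, Mem x s → App f x y → App g x y) → Mem f c

/-- `f` is a unary operation on `a`: an operation of arity `1 = {0}`, where `0` is the empty
set. -/
def IsUnary (f a : M) : Prop := ∃ n, (∀ k, Mem k n ↔ ∀ z, ¬ Mem z k) ∧ IsOper f n a

/-- The unary operation `f` maps `y` to `z`: the value of `f` at the `1`-tuple `t = {(0, y)}`
is `z`. -/
def Sends (f y z : M) : Prop :=
  ∃ o p t, (∀ w, ¬ Mem w o) ∧ IsOrdPair p o y ∧ (∀ q, Mem q t ↔ q = p) ∧ App f t z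

/-- `f` is an invertible unary member of the clone `c` on `a`. -/
def IsInvertible (f c a : M) : Prop :=
  Mem f c ∧ IsUnary f a ∧ ∃ g, Mem g c ∧ IsUnary g a ∧ ∀ y z, Sends f y z ↔ Sends g z y

/-- The clone `c` on `a` is oligomorphic: for every `n` there is a finite set `s` of `n`-tuples
such that every `n`-tuple is the image of a member of `s` under an invertible unary member
of `c`. -/
def IsOligomorphic (c a : M) : Prop :=
  ∀ n, IsArity n → ∃ s, IsFinite s ∧ (∀ x, Mem x s → IsFun x n a) ∧
    ∀ x, IsFun x n a → ∃ x' f, Mem x' s ∧ IsInvertible f c a ∧
      ∀ i y z, App x' i y → App x i z → Sends f y z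

/-- `e` is an isomorphism from the clone `c` on `a` onto the clone `d` on `b`: a bijection that
preserves the arities, maps the projections to the corresponding projections, and commutes with
composition. -/
structure IsIso (e c a d b : M) : Prop where
  bij : IsBij e c d
  arity : ∀ n f f', IsArity n → IsOper f n a → App e f f' → IsOper f' n b
  proj : ∀ n i p p', IsArity n → Mem i n → IsProj p n i a → IsProj p' n i b → App e p p'
  comp : ∀ m n f g h f' g' h', IsArity m → IsArity n → IsOper f m a → IsFun g m c →
    (∀ j k, App g j k → IsOper k n a) → IsComp h f g m n a → App e f f' → IsFun g' m d →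
    (∀ j k k', App g j k → App g' j k' → App e k k') → IsComp h' f' g' m n b → App e h h'

/-- The function `e` from the clone `c` on `a` to the clone `d` on `b` (which preserves the
arities) is continuous: for every `f` in `c` of arity `n` with value `f'` and every finite set
`t` of `n`-tuples of elements of `b` there is a finite set `s` of `n`-tuples of elements of `a`
such that for every `g` in `c` of arity `n` that has the same values as `f` on `s`, the value
`g'` of `e` at `g` has the same values as `f'` on `t`. -/
def IsCont (e c a b : M) : Prop :=
  ∀ n f f' t, IsArity n → Mem f c → IsOper f n a → App e f f' → IsFinite t →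
    (∀ x, Mem x t → IsFun x n b) →
    ∃ s, IsFinite s ∧ (∀ x, Mem x s → IsFun x n a) ∧
      ∀ g g', Mem g c → IsOper g n a → App e g g' →
        (∀ x y, Mem x s → App f x y → App g x y) → ∀ x y, Mem x t → App f' x y → App g' x y

/-- The bijection `e` from the clone `c` on `a` to the clone `d` on `b` is a homeomorphism: it
is continuous, and so is its inverse `i`. -/
def IsHomeo (e c a d b : M) : Prop :=
  IsCont e c a b ∧ ∃ i, (∀ x y, App i y x ↔ App e x y) ∧ IsCont i d b a

/-- `a` is countably infinite: it is in bijection with the set of the natural numbers. -/
def IsCountablyInfinite (a : M) : Prop := ∃ w f, IsOmega w ∧ IsBij f a w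

/-- `a` is countable: there is an injection into the set of the natural numbers. -/
def IsCountable (a : M) : Prop := ∃ w f, IsOmega w ∧ IsInj f a w

/-- The closed clone `c` on `a` is reconstructible: every isomorphism from `c` onto a closed
function clone `d` on a countable set `b` is a homeomorphism. -/
def IsReconstructible (c a : M) : Prop :=
  ∀ b d e, IsCountable b → IsClone d b → IsClosed d b → IsIso e c a d b → IsHomeo e c a d b

end Pool.Agent.W477.CL
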