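import Pool.Agent.W477.CL.Stms

/-!
# One-point extensions and the embedding lemma
-/

set_option maxHeartbeats 1000000
set_option linter.all false

namespace Pool.Agent.W477.CL

open FirstOrder FirstOrder.Language
open Pool.Agent.Helper672.ZFA hiding IsOrdPair IsPair Mem
open Pool.Agent.H310
open Pool.Agent.W924

universe u

theorem ext_holds : P_EXT.{u} := by
  intro M _ _ c' c p x hc hp hx
  obtain ⟨hpf, hpfn, hpinj, hpc⟩ := hp
  have hA : Int M (fun y : INat M => ∃ x', (x', y) ∈ p) := by
    (repeat' (first | with_reducible exact IntF.id | with_reducible exact IntF.fst' | with_reducible exact IntF.snd' | with_reducible exact IntF.const _ | with_reducible exact Int.const _ | assumption | with_reducible apply Int.and | with_reducible apply Int.or | with_reducible apply Int.not | with_reducible apply Int.imp | with_reducible apply Int.iff | with_reducible apply Int.ne | with_reducible apply Int.eq | with_reducible apply Int.mem | with_reducible apply Int.subset | with_reducible apply Int.ltN | with_reducible apply Int.leN | with_reducible apply Int.fin |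 with_reducible apply Int.unique | with_reducible apply Int.all | with_reducible apply Int.ex | with_reducible apply IntF.fst | with_reducible apply IntF.snd | with_reducible apply IntF.app | with_reducible apply IntF.ite | with_reducible apply IntF.sep | with_reducible apply IntF.lam | with_reducible apply IntF.insert | with_reducible apply IntF.singleton | with_reducible apply IntF.union | with_reducible apply IntF.inter | with_reducible apply IntF.sdiff | with_reducible apply IntF.isUnion | with_reducible apply IntF.iimage | with_reducible apply IntF.the | with_reducible apply IntF.irec | with_reducible_and_instances apply IntF.mul | with_reducible_and_instances apply IntF.inv | with_reducible_and_instances apply IntF.smul | with_reducible apply IntF.succ | with_reducible apply IntF.val | with_reducible apply IntF.mk | (with_reducible refine Int.comp ?_ ?_; assumption) | (with_reducible refine Int.comp₂ ?_ ?_ ?_; assumption) | (with_reducible refine Int.comp₃ ?_ ?_ ?_ ?_; assumption) | (with_reducible refine Int.comp₄ ?_ ?_ ?_ ?_ ?_; assumption) | (with_reducible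 refine IntF.comp ?_ ?_; assumption) | (with_reducible refine IntF.comp₂ ?_ ?_ ?_; assumption) | (with_reducible refine Helper672.ZFA.IntF.comp₃ ?_ ?_ ?_ ?_; assumption) | with_reducible apply IntF.pair))
  have hφ : Int M (fun C : IPow M (INat M) => ∃ B : IPow M (INat M),
      (∀ x', x' ∈ B → ∃ y, y ∈ C ∧ (x', y) ∈ p) ∧
      (∀ y, y ∈ C → ∃ x', x' ∈ B ∧ (x', y) ∈ p) ∧ insert x B ∈ c') := by
    (repeat' (first | with_reducible exact IntF.id | with_reducible exact IntF.fst' | with_reducible exact IntF.snd' | with_reducible exact IntF.const _ | with_reducible exact Int.const _ | assumption | with_reducible apply Int.and | with_reducible apply Int.or | with_reducible apply Int.not | with_reducible apply Int.imp | with_reducible apply Int.iff | with_reducible apply Int.ne | with_reducible apply Int.eq | with_reducible apply Int.mem | with_reducible apply Int.subset | with_reducible apply Int.ltN | with_reducible apply Int.leN | with_reducible apply Int.fin | with_reducible apply Int.unique | with_reducible apply Int.all | with_reducible apply Int.ex | with_reducible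 apply IntF.fst | with_reducible apply IntF.snd | with_reducible apply IntF.app | with_reducible apply IntF.ite | with_reducible apply IntF.sep | with_reducible apply IntF.lam | with_reducible apply IntF.insert | with_reducible apply IntF.singleton | with_reducible apply IntF.union | with_reducible apply IntF.inter | with_reducible apply IntF.sdiff | with_reducible apply IntF.isUnion | with_reducible apply IntF.iimage | with_reducible apply IntF.the | with_reducible apply IntF.irec | with_reducible_and_instances apply IntF.mul | with_reducible_and_instances apply IntF.inv | with_reducible_and_instances apply IntF.smul | with_reducible apply IntF.succ | with_reducible apply IntF.val | with_reducible apply IntF.mk | (with_reducible refine Int.comp ?_ ?_; assumption) | (with_reducible refine Int.comp₂ ?_ ?_ ?_; assumption) | (with_reducible refine Int.comp₃ ?_ ?_ ?_ ?_; assumption) | (with_reducible refine Int.comp₄ ?_ ?_ ?_ ?_ ?_; assumption) | (with_reducible refine IntF.comp ?_ ?_; assumption) | (with_reducible refine IntF.comp₂ ?_ ?_ ?_; assumption) | (with_reducible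 refine Helper672.ZFA.IntF.comp₃ ?_ ?_ ?_ ?_; assumption) | with_reducible apply IntF.pair))
  have hAf : IFin (sep M fun y : INat M => ∃ x', (x', y) ∈ p) := by
    refine (hpf.image (f := fun q : INat M × INat M => q.2) IntF.snd').subset fun y hy => ?_
    obtain ⟨x', hx'⟩ := (mem_sep hA).1 hy
    exact (mem_iimage IntF.snd').2 ⟨(x', y), hx', rfl⟩
  obtain ⟨z, hz, hzB⟩ := hc _ (sep M fun C : IPow M (INat M) => ∃ B : IPow M (INat M),
      (∀ x', x' ∈ B → ∃ y, y ∈ C ∧ (x', y) ∈ p) ∧
      (∀ y, y ∈ C → ∃ x', x' ∈ B ∧ (x', y) ∈ p) ∧ insert x B ∈ c') hAf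
  have hz' : ∀ x', ¬ (x', z) ∈ p := fun x' h => hz ((mem_sep hA).2 ⟨x', h⟩)
  refine ⟨z, hpf.insert _, fun a y y' h h' => ?_, fun a a' y h h' => ?_,
    fun B C hne hBC hCB => ?_⟩
  · rw [mem_insert, Prod.mk.injEq] at h h'
    rcases h with ⟨rfl, rfl⟩ | h
    · rcases h' with ⟨-, rfl⟩ | h'
      · rfl
      · exact absurd h' (hx y')
    · rcases h' with ⟨rfl, rfl⟩ | h'
      · exact absurd h (hx y)
      · exact hpfn a y y' h h'
  · rw [mem_insert, Prod.mk.injEq] at h h'
    rcases h with ⟨rfl, rfl⟩ | h
    · rcases h' with ⟨rfl, -⟩ | h'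
      · rfl
      · exact absurd h' (hz' a')
    · rcases h' with ⟨rfl, rfl⟩ | h'
      · exact absurd h (hz' a)
      · exact hpinj a a' y h h'
  · have hm : ∀ a b, (a, b) ∈ insert (x, z) p ↔ (a = x ∧ b = z) ∨ (a, b) ∈ p := fun a b => by
      rw [mem_insert, Prod.mk.injEq]
    by_cases hxB : x ∈ B
    · have hzC : z ∈ C := by
        obtain ⟨y, hy, hxy⟩ := hBC x hxB
        rcases (hm _ _).1 hxy with ⟨-, rfl⟩ | h
        · exact hy
        · exact absurd h (hx y)
      have e1 : B = insert x (B \ {x}) := IPow.ext' fun a => by
        by_cases ha : a = x <;> simp [ha, hxB]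
      have e2 : C = insert z (C \ {z}) := IPow.ext' fun a => by
        by_cases ha : a = z <;> simp [ha, hzC]
      have h1 : ∀ x', x' ∈ B \ {x} → ∃ y, y ∈ C \ {z} ∧ (x', y) ∈ p := by
        intro x' hx'
        rw [mem_sdiff, mem_singleton] at hx'
        obtain ⟨y, hy, hxy⟩ := hBC x' hx'.1
        rcases (hm _ _).1 hxy with ⟨h, -⟩ | h
        · exact absurd h hx'.2
        · refine ⟨y, ?_, h⟩
          rw [mem_sdiff, mem_singleton]
          exact ⟨hy, fun h2 => hz' x' (h2 ▸ h)⟩
      have h2 : ∀ y, y ∈ C \ {z} → ∃ x', x' ∈ B \ {x} ∧ (x', y) ∈ p := by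
        intro y hy
        rw [mem_sdiff, mem_singleton] at hy
        obtain ⟨x', hx', hxy⟩ := hCB y hy.1
        rcases (hm _ _).1 hxy with ⟨-, h⟩ | h
        · exact absurd h hy.2
        · refine ⟨x', ?_, h⟩
          rw [mem_sdiff, mem_singleton]
          exact ⟨hx', fun h2 => hx y (h2 ▸ h)⟩
      have h3 : C \ {z} ⊆ sep M fun y : INat M => ∃ x', (x', y) ∈ p := by
        intro y hy
        obtain ⟨x', -, h⟩ := h2 y hy
        exact (mem_sep hA).2 ⟨x', h⟩
      rw [e2, hzB _ h3, mem_sep hφ]
      constructor
      · intro h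
        exact ⟨B \ {x}, h1, h2, e1 ▸ h⟩
      · rintro ⟨B₁, h4, h5, h6⟩
        have e3 : B₁ = B \ {x} := IPow.ext' fun a => by
          constructor
          · intro ha
            obtain ⟨y, hy, hay⟩ := h4 a ha
            obtain ⟨a', ha', hay'⟩ := h2 y hy
            rw [hpinj a a' y hay hay']
            exact ha'
          · intro ha
            obtain ⟨y, hy, hay⟩ := h1 a ha
            obtain ⟨a', ha', hay'⟩ := h5 y hy
            rw [hpinj a a' y hay hay']
            exact ha'
        rw [e3] at h6
        rw [e1]
        exact h6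
    · have hzC : ¬ z ∈ C := by
        intro hzC
        obtain ⟨x', hx', hxy⟩ := hCB z hzC
        rcases (hm _ _).1 hxy with ⟨rfl, -⟩ | h
        · exact hxB hx'
        · exact hz' x' h
      refine hpc B C hne (fun x' hx' => ?_) (fun y hy => ?_)
      · obtain ⟨y, hy, hxy⟩ := hBC x' hx'
        rcases (hm _ _).1 hxy with ⟨rfl, -⟩ | h
        · exact absurd hx' hxB
        · exact ⟨y, hy, h⟩
      · obtain ⟨x', hx', hxy⟩ := hCB y hy
        rcases (hm _ _).1 hxy with ⟨-, rfl⟩ | h
        · exact absurd hy hzC
        · exact ⟨x', hx', h⟩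

theorem emb_holds (h1 : P_CHAIN.{u}) (h2 : P_EXT.{u}) : P_EMB.{u} := by
  intro M _ _ c' c A hc hA hcc
  have hd : IntF M (fun a : INat M => (a, a)) := IntF.id.pair IntF.id
  have hp : PIso c' c (iimage (fun a : INat M => (a, a)) A) := by
    have hm : ∀ a b, (a, b) ∈ iimage (fun a : INat M => (a, a)) A ↔ a ∈ A ∧ a = b := fun a b => by
      rw [mem_iimage hd]
      constructor
      · rintro ⟨x, hx, h⟩
        rw [Prod.mk.injEq] at h
        obtain ⟨rfl, rfl⟩ := h
        exact ⟨hx, rfl⟩
      · rintro ⟨ha, rfl⟩
        exact ⟨a, ha, rfl⟩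
    refine ⟨hA.image hd, fun x y y' h h' => ?_, fun x x' y h h' => ?_, fun B C hne hBC hCB => ?_⟩
    · exact ((hm _ _).1 h).2.symm.trans ((hm _ _).1 h').2
    · exact ((hm _ _).1 h).2.trans ((hm _ _).1 h').2.symm
    · have e1 : B = C := IPow.ext' fun a => by
        constructor
        · intro ha
          obtain ⟨y, hy, h⟩ := hBC a ha
          rw [((hm _ _).1 h).2]
          exact hy
        · intro ha
          obtain ⟨y, hy, h⟩ := hCB a ha
          rw [← ((hm _ _).1 h).2]
          exact hy
      rw [← e1]
      refine hcc B (fun a ha => ?_) hne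
      obtain ⟨y, hy, h⟩ := hBC a ha
      exact ((hm _ _).1 h).1
  obtain ⟨f, h3, -, h5⟩ := h1 M (fun p => PIso c' c p) (fun _ _ => True) _
    (int_PIso IntF.id) (Int.const _) hp (fun p hp => hp.1) (fun p x y y' hp => hp.2.1 x y y')
    (fun p n hp => by
      by_cases hn : ∃ y, (n, y) ∈ p
      · exact ⟨p, hp, fun q hq => hq, trivial, hn⟩
      · push Not at hn
        obtain ⟨z, hz⟩ := h2 M c' c p n hc hp hn
        exact ⟨insert (n, z) p, hz, fun q hq => mem_insert.2 (Or.inr hq), trivial, z,
          mem_insert.2 (Or.inl rfl)⟩)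
  refine ⟨f, fun a b hab => ?_, fun a ha => h3 a a ((mem_iimage hd).2 ⟨a, ha, rfl⟩),
    fun B hB hne => ?_⟩
  · obtain ⟨p, hp, h6, -⟩ := h5 (insert a {b}) ((IFin.singleton _).insert _)
    have h7 := h6 a (mem_insert.2 (Or.inl rfl))
    have h8 := h6 b (mem_insert.2 (Or.inr (mem_singleton.2 rfl)))
    rw [hab] at h7
    exact hp.2.2.1 a b _ h7 h8
  · obtain ⟨p, hp, h6, -⟩ := h5 B hB
    refine (hp.2.2.2 B (iimage f B) hne (fun x hx => ⟨f x, (mem_iimage f.int).2 ⟨x, hx, rfl⟩,
      h6 x hx⟩) (fun y hy => ?_)).symm
    obtain ⟨x, hx, rfl⟩ := (mem_iimage f.int).1 hy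
    exact ⟨x, hx, h6 x hx⟩

end Pool.Agent.W477.CL
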