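import Pool.Agent.W477.CL.Stms

/-!
# Tuples and operations that depend on one coordinate
-/

set_option maxHeartbeats 1000000
set_option linter.all false

namespace Pool.Agent.W477.CL

open FirstOrder FirstOrder.Language
open Pool.Agent.Helper672.ZFA hiding IsOrdPair IsPair Mem
open Pool.Agent.H310
open Pool.Agent.W924

universe u

variable {M : Type u} [L.Structure M] [hM : IsModel M]
variable {γ δ : Type u} [ITy M γ] [ITy M δ]

theorem exists_tup (n : INat M) {f : INat M → γ} (hf : IntF M f) :
    ∃ x : TT M γ, ITup n x ∧ ∀ k y, (k, y) ∈ x ↔ (k < n ∧ f k = y) := by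
  have hi : Int M (fun q : INat M × γ => q.1 < n ∧ f q.1 = q.2) := by
    (repeat' (first | with_reducible exact IntF.id | with_reducible exact IntF.fst' | with_reducible exact IntF.snd' | with_reducible exact IntF.const _ | with_reducible exact Int.const _ | assumption | with_reducible apply Int.and | with_reducible apply Int.or | with_reducible apply Int.not | with_reducible apply Int.imp | with_reducible apply Int.iff | with_reducible apply Int.ne | with_reducible apply Int.eq | with_reducible apply Int.mem | with_reducible apply Int.subset | with_reducible apply Int.ltN | with_reducible apply Int.leN | with_reducible apply Int.fin | with_reducible apply Int.unique | with_reducible apply Int.all | with_reducible apply Int.ex | with_reducible apply IntF.fst | with_reducible apply IntF.snd | with_reducible apply IntF.app | with_reducible apply IntF.ite | with_reducible apply IntF.sep | with_reducible apply IntF.lam | with_reducible apply IntF.insert | with_reducible apply IntF.singleton | with_reducible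 apply IntF.union | with_reducible apply IntF.inter | with_reducible apply IntF.sdiff | with_reducible apply IntF.isUnion | with_reducible apply IntF.iimage | with_reducible apply IntF.the | with_reducible apply IntF.irec | with_reducible_and_instances apply IntF.mul | with_reducible_and_instances apply IntF.inv | with_reducible_and_instances apply IntF.smul | with_reducible apply IntF.succ | with_reducible apply IntF.val | with_reducible apply IntF.mk | (with_reducible refine Int.comp ?_ ?_; assumption) | (with_reducible refine Int.comp₂ ?_ ?_ ?_; assumption) | (with_reducible refine Int.comp₃ ?_ ?_ ?_ ?_; assumption) | (with_reducible refine Int.comp₄ ?_ ?_ ?_ ?_ ?_; assumption) | (with_reducible refine IntF.comp ?_ ?_; assumption) | (with_reducible refine IntF.comp₂ ?_ ?_ ?_; assumption) | (with_reducible refine Helper672.ZFA.IntF.comp₃ ?_ ?_ ?_ ?_; assumption) | with_reducible apply IntF.pair))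
  have hm : ∀ k y, (k, y) ∈ sep M (fun q : INat M × γ => q.1 < n ∧ f q.1 = q.2) ↔
      (k < n ∧ f k = y) := fun k y => mem_sep hi
  refine ⟨sep M (fun q : INat M × γ => q.1 < n ∧ f q.1 = q.2), ⟨fun k y h => ((hm k y).1 h).1,
    fun k hk => ⟨f k, (hm _ _).2 ⟨hk, rfl⟩, fun y hy => (((hm k y).1 hy).2).symm⟩⟩, hm⟩

theorem iop_arity {n n' : INat M} {F : WW M γ} (a : γ) (h : IOp n F) (h' : IOp n' F) :
    n = n' := by
  obtain ⟨x, h1, h2⟩ := exists_tup n (f := fun _ : INat M => a) (IntF.const _)
  obtain ⟨y, hy, -⟩ := h.2 x h1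
  have h3 := h'.1 x y hy
  have h4 : ∀ k, k < n ↔ k < n' := by
    intro k
    constructor
    · intro hk
      exact h3.1 k a ((h2 _ _).2 ⟨hk, rfl⟩)
    · intro hk
      obtain ⟨z, hz, -⟩ := h3.2 k hk
      exact ((h2 _ _).1 hz).1
  rcases lt_trichotomy n n' with h5 | h5 | h5
  · exact absurd ((h4 n).2 h5) (lt_irrefl _)
  · exact h5
  · exact absurd ((h4 n').1 h5) (lt_irrefl _)

theorem iop_ext {n : INat M} {F G : WW M γ} (hF : IOp n F) (hG : IOp n G)
    (h : ∀ x y, (x, y) ∈ F → (x, y) ∈ G) : F = G := by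
  refine IPow.ext' fun q => ⟨fun hq => h q.1 q.2 hq, fun hq => ?_⟩
  obtain ⟨x, y⟩ := q
  obtain ⟨y', hy', -⟩ := hF.2 x (hG.1 x y hq)
  obtain ⟨y'', -, hu⟩ := hG.2 x (hG.1 x y hq)
  rw [hu y hq, ← hu y' (h _ _ hy')]
  exact hy'

theorem iop_op {n i : INat M} (f : IFun M γ γ) (hi : i < n) : IOp n (iop n i f) := by
  refine ⟨fun x y h => (mem_iop.1 h).1, fun x hx => ?_⟩
  obtain ⟨z, hz, hu⟩ := hx.2 i hi
  refine ⟨f z, mem_iop.2 ⟨hx, z, hz, rfl⟩, fun y hy => ?_⟩
  obtain ⟨-, z', hz', rfl⟩ := mem_iop.1 hy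
  rw [hu z' hz']

theorem iop_inj {n i n' i' : INat M} {f f' : IFun M γ γ} (hi : i < n) (hi' : i' < n')
    (hnc : ∃ a b, f a ≠ f b) (h : iop n i f = iop n' i' f') : n = n' ∧ i = i' ∧ f = f' := by
  obtain ⟨a, b, hab⟩ := hnc
  obtain rfl : n = n' := iop_arity a (iop_op f hi) (h ▸ iop_op f' hi')
  have h0 : ∀ (x : TT M γ) z z', ITup n x → (i, z) ∈ x → (i', z') ∈ x → f z = f' z' := by
    intro x z z' hx hz hz'
    have h1 : (x, f z) ∈ iop n i f := mem_iop.2 ⟨hx, z, hz, rfl⟩
    rw [h] at h1
    obtain ⟨-, z'', h2, h3⟩ := mem_iop.1 h1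
    obtain ⟨w, -, hu⟩ := hx.2 i' hi'
    rw [← h3, hu z'' h2, ← hu z' hz']
  have h1 : ∀ z, f z = f' z := by
    intro z
    obtain ⟨x, hx, hx'⟩ := exists_tup n (f := fun _ : INat M => z) (IntF.const _)
    exact h0 x z z hx ((hx' _ _).2 ⟨hi, rfl⟩) ((hx' _ _).2 ⟨hi', rfl⟩)
  refine ⟨rfl, ?_, IFun.ext' h1⟩
  by_contra hne
  classical
  have hite : IntF M (fun k : INat M => if k = i then a else b) :=
    IntF.ite (Int.eq IntF.id (IntF.const _)) (IntF.const _) (IntF.const _)
  obtain ⟨x, hx, hx'⟩ := exists_tup n hite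
  have h2 := h0 x a b hx ((hx' _ _).2 ⟨hi, by simp⟩)
    ((hx' _ _).2 ⟨hi', by rw [if_neg (fun h => hne h.symm)]⟩)
  rw [← h1 b] at h2
  exact hab h2

theorem iop_prj {n i : INat M} {F : WW M γ} {f : IFun M γ γ} (hi : i < n) (hF : IPrj F n i)
    (hf : ∀ a, f a = a) : F = iop n i f := by
  refine iop_ext hF.1 (iop_op f hi) fun x y hxy => ?_
  have hx := hF.1.1 x y hxy
  obtain ⟨z, hz, -⟩ := hx.2 i hi
  have h1 := hF.2 x z hx hz
  obtain ⟨w, -, hu⟩ := hF.1.2 x hx
  have h2 : y = z := (hu y hxy).trans (hu z h1).symm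
  exact mem_iop.2 ⟨hx, z, hz, (hf z).trans h2.symm⟩

theorem iop_cmp {n m i j : INat M} {f f' f'' : IFun M γ γ} {H K : WW M γ}
    {G : IPow M (INat M × WW M γ)} (hi : i < n) (hj : j < m) (hG : ITup m G)
    (hGo : ∀ l k, (l, k) ∈ G → IOp n k) (hK : (j, K) ∈ G) (hKf : K = iop n i f')
    (hH : ICmp H (iop m j f) G m n) (hf : ∀ a, f'' a = f (f' a)) : H = iop n i f'' := by
  refine (iop_ext (iop_op f'' hi) hH.1 fun x y hxy => ?_).symm
  obtain ⟨hx, z, hz, rfl⟩ := mem_iop.1 hxy
  have hin : Int M (fun q : INat M × γ => ∃ k : WW M γ, (q.1, k) ∈ G ∧ (x, q.2) ∈ k) := by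
    (repeat' (first | with_reducible exact IntF.id | with_reducible exact IntF.fst' | with_reducible exact IntF.snd' | with_reducible exact IntF.const _ | with_reducible exact Int.const _ | assumption | with_reducible apply Int.and | with_reducible apply Int.or | with_reducible apply Int.not | with_reducible apply Int.imp | with_reducible apply Int.iff | with_reducible apply Int.ne | with_reducible apply Int.eq | with_reducible apply Int.mem | with_reducible apply Int.subset | with_reducible apply Int.ltN | with_reducible apply Int.leN | with_reducible apply Int.fin | with_reducible apply Int.unique | with_reducible apply Int.all | with_reducible apply Int.ex | with_reducible apply IntF.fst | with_reducible apply IntF.snd | with_reducible apply IntF.app | with_reducible apply IntF.ite | with_reducible apply IntF.sep | with_reducible apply IntF.lam | with_reducible apply IntF.insert | with_reducible apply IntF.singleton | with_reducible apply IntF.union | with_reducible apply IntF.inter | with_reducible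 apply IntF.sdiff | with_reducible apply IntF.isUnion | with_reducible apply IntF.iimage | with_reducible apply IntF.the | with_reducible apply IntF.irec | with_reducible_and_instances apply IntF.mul | with_reducible_and_instances apply IntF.inv | with_reducible_and_instances apply IntF.smul | with_reducible apply IntF.succ | with_reducible apply IntF.val | with_reducible apply IntF.mk | (with_reducible refine Int.comp ?_ ?_; assumption) | (with_reducible refine Int.comp₂ ?_ ?_ ?_; assumption) | (with_reducible refine Int.comp₃ ?_ ?_ ?_ ?_; assumption) | (with_reducible refine Int.comp₄ ?_ ?_ ?_ ?_ ?_; assumption) | (with_reducible refine IntF.comp ?_ ?_; assumption) | (with_reducible refine IntF.comp₂ ?_ ?_ ?_; assumption) | (with_reducible refine Helper672.ZFA.IntF.comp₃ ?_ ?_ ?_ ?_; assumption) | with_reducible apply IntF.pair))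
  have hm : ∀ l y, (l, y) ∈ sep M (fun q : INat M × γ => ∃ k : WW M γ, (q.1, k) ∈ G ∧
      (x, q.2) ∈ k) ↔ ∃ k : WW M γ, (l, k) ∈ G ∧ (x, y) ∈ k := fun l y => mem_sep hin
  have ht : ITup m (sep M (fun q : INat M × γ => ∃ k : WW M γ, (q.1, k) ∈ G ∧
      (x, q.2) ∈ k)) := by
    refine ⟨fun l y h => ?_, fun l hl => ?_⟩
    · obtain ⟨k, h1, -⟩ := (hm l y).1 h
      exact hG.1 l k h1
    · obtain ⟨k, h1, h2⟩ := hG.2 l hl
      obtain ⟨y, h3, h4⟩ := (hGo l k h1).2 x hx
      refine ⟨y, (hm _ _).2 ⟨k, h1, h3⟩, fun y' hy' => ?_⟩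
      obtain ⟨k', h5, h6⟩ := (hm _ _).1 hy'
      rw [h2 k' h5] at h6
      exact h4 y' h6
  rw [hf]
  refine hH.2 x _ _ hx ht (fun l k w hlk hlw => ?_) (mem_iop.2 ⟨ht, f' z, (hm _ _).2
    ⟨K, hK, ?_⟩, rfl⟩)
  · obtain ⟨k', h5, h6⟩ := (hm _ _).1 hlw
    obtain ⟨w', -, hu⟩ := hG.2 l (hG.1 l k hlk)
    rw [hu k hlk, ← hu k' h5]
    exact h6
  · rw [hKf]
    exact mem_iop.2 ⟨hx, z, hz, rfl⟩

theorem iop_one (f : IFun M γ γ) (y z : γ) :
    IVal (iop (INat.succ 0) 0 f) y z ↔ f y = z := by
  unfold IVal
  have h0 : ∀ k : INat M, k < INat.succ 0 ↔ k = 0 := fun k => by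
    rw [INat.lt_succ_iff]
    exact ⟨fun h => le_antisymm h (INat.zero_le _), fun h => h.le⟩
  constructor
  · rintro ⟨t, h1, h2⟩
    obtain ⟨-, w, h3, h4⟩ := mem_iop.1 h2
    have h5 := (h1 _).1 h3
    have h6 : w = y := (Prod.ext_iff.1 h5).2
    rw [← h4, h6]
  · rintro rfl
    obtain ⟨x, h1, h2⟩ := exists_tup (INat.succ 0) (f := fun _ : INat M => y) (IntF.const _)
    refine ⟨x, fun q => ?_, mem_iop.2 ⟨h1, y, (h2 _ _).2 ⟨(h0 _).2 rfl, rfl⟩, rfl⟩⟩
    obtain ⟨k, w⟩ := q
    rw [h2, h0, Prod.mk.injEq]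
    exact ⟨fun h => ⟨h.1, h.2.symm⟩, fun h => ⟨h.1, h.2.symm⟩⟩

theorem iop_holds : P_IOP.{u} := fun M _ _ =>
  { tup := fun γ _ n f hf => exists_tup n hf
    arity := fun γ _ n n' F a h h' => iop_arity a h h'
    ext := fun γ _ n F G hF hG h => iop_ext hF hG h
    op := fun γ _ n i f hi => iop_op f hi
    inj := fun γ _ n i n' i' f f' hi hi' hnc h => iop_inj hi hi' hnc h
    prj := fun γ _ n i F f hi hF hf => iop_prj hi hF hf
    cmp := fun γ _ n m i j f f' f'' H K G hi hj hG hGo hK hKf hH hf =>
      iop_cmp hi hj hG hGo hK hKf hH hf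
    one := fun γ _ f y z => iop_one f y z }

end Pool.Agent.W477.CL
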