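import Pool.Agent.W477.CL.Stms

/-!
# Kinds
-/

set_option maxHeartbeats 1000000
set_option linter.all false

namespace Pool.Agent.W477.CL

open FirstOrder FirstOrder.Language
open Pool.Agent.Helper672.ZFA hiding IsOrdPair IsPair Mem
open Pool.Agent.H310
open Pool.Agent.W924

universe u

theorem big_holds (h : P_SZ.{u}) : P_BIG.{u} := by
  intro M _ _ c hc
  have hs := h M
  have hsz : IntF M (fun s : IPow M (INat M) => sz s) := int_sz'
  have key : ∀ n : INat M, ∃ B : IPow M (INat M), IFin B ∧ sz B = n ∧ (n ≠ 0 → ¬ B ∈ c) := by
    refine INat.ind (by (repeat' (first | with_reducible exact IntF.id | with_reducible exact IntF.fst' | with_reducible exact IntF.snd' | with_reducible exact IntF.const _ | with_reducible exact Int.const _ | assumption | with_reducible apply Int.and | with_reducible apply Int.or | with_reducible apply Int.not | with_reducible apply Int.imp | with_reducible apply Int.iff | with_reducible apply Int.ne | with_reducible apply Int.eq | with_reducible apply Int.mem | with_reducible apply Int.subset | with_reducible apply Int.ltN | with_reducible apply Int.leN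 | with_reducible apply Int.fin | with_reducible apply Int.unique | with_reducible apply Int.all | with_reducible apply Int.ex | with_reducible apply IntF.fst | with_reducible apply IntF.snd | with_reducible apply IntF.app | with_reducible apply IntF.ite | with_reducible apply IntF.sep | with_reducible apply IntF.lam | with_reducible apply IntF.insert | with_reducible apply IntF.singleton | with_reducible apply IntF.union | with_reducible apply IntF.inter | with_reducible apply IntF.sdiff | with_reducible apply IntF.isUnion | with_reducible apply IntF.iimage | with_reducible apply IntF.the | with_reducible apply IntF.irec | with_reducible_and_instances apply IntF.mul | with_reducible_and_instances apply IntF.inv | with_reducible_and_instances apply IntF.smul | with_reducible apply IntF.succ | with_reducible apply IntF.val | with_reducible apply IntF.mk | (with_reducible refine Int.comp ?_ ?_; assumption) | (with_reducible refine Int.comp₂ ?_ ?_ ?_; assumption) | (with_reducible refine Int.comp₃ ?_ ?_ ?_ ?_; assumption) | (with_reducible refine Int.comp₄ ?_ ?_ ?_ ?_ ?_; assumption)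 | (with_reducible refine IntF.comp ?_ ?_; assumption) | (with_reducible refine IntF.comp₂ ?_ ?_ ?_; assumption) | (with_reducible refine Helper672.ZFA.IntF.comp₃ ?_ ?_ ?_ ?_; assumption) | with_reducible apply IntF.pair))) ?_ ?_
    · exact ⟨∅, IFin.empty, hs.empty _, fun h => absurd rfl h⟩
    · rintro n ⟨B, hB, hn, -⟩
      obtain ⟨z, hz, hB'⟩ := hc B ∅ hB
      refine ⟨insert z B, hB.insert z, by rw [hs.ins _ B z hB hz, hn], fun _ h1 => ?_⟩
      have h2 := (hB' B (fun x hx => hx)).1 h1
      rw [mem_empty] at h2
      exact h2
  intro n hn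
  obtain ⟨B, h1, h2, h3⟩ := key n
  exact ⟨B, h1, h2, h3 hn⟩

theorem mn_holds : P_MN.{u} := by
  intro M _ _
  have z0 : ∀ a : INat M, a ≤ 0 → a = 0 := fun a h => le_antisymm h (INat.zero_le a)
  refine ⟨fun a => by simp [mn], fun a => by simp only [mn]; split_ifs with h <;> simp_all,
    fun a b d => ?_, fun γ _ a b B => ?_⟩
  · unfold mn
    by_cases ha : a = 0
    · simp [ha]
    · by_cases hb : b = 0
      · simp [ha, hb]
      · by_cases hd : d = 0
        · by_cases hab : a ≤ b
          · simp [ha, hb, hd, hab]
          · simp [ha, hb, hd, hab]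
        · by_cases hab : a ≤ b
          · by_cases hbd : b ≤ d
            · simp [ha, hb, hd, hab, hbd, hab.trans hbd]
            · by_cases had : a ≤ d
              · simp [ha, hb, hd, hab, hbd, had]
              · simp [ha, hb, hd, hab, hbd, had]
          · by_cases hbd : b ≤ d
            · simp [ha, hb, hd, hab, hbd]
            · have had : ¬ a ≤ d := fun h => hab (h.trans (le_of_lt (not_le.1 hbd)))
              simp [ha, hb, hd, hab, hbd, had]
  · unfold mn Big
    by_cases ha : a = 0
    · simp [ha]
    · by_cases hb : b = 0
      · simp [ha, hb]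
      · by_cases hab : a ≤ b
        · simp only [ha, hb, hab, if_false, if_true, ne_eq, not_false_eq_true, true_and]
          exact ⟨Or.inl, fun h => h.elim id fun h => hab.trans h⟩
        · simp only [ha, hb, hab, if_false, ne_eq, not_false_eq_true, true_and]
          exact ⟨Or.inr, fun h => h.elim (fun h => (le_of_lt (not_le.1 hab)).trans h) id⟩

theorem iimage_id {M : Type u} [L.Structure M] [IsModel M] {f : IFun M (INat M) (INat M)}
    (hf : ∀ a, f a = a) (B : IPow M (INat M)) : iimage f B = B := by
  refine IPow.ext' fun x => ?_
  rw [mem_iimage f.int]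
  constructor
  · rintro ⟨y, hy, rfl⟩
    rw [hf]
    exact hy
  · intro hx
    exact ⟨x, hx, hf x⟩

theorem iimage_comp {M : Type u} [L.Structure M] [IsModel M] {f g h : IFun M (INat M) (INat M)}
    (hh : ∀ a, h a = f (g a)) (B : IPow M (INat M)) :
    iimage h B = iimage f (iimage g B) := by
  refine IPow.ext' fun x => ?_
  rw [mem_iimage h.int, mem_iimage f.int]
  constructor
  · rintro ⟨y, hy, rfl⟩
    exact ⟨g y, (mem_iimage g.int).2 ⟨y, hy, rfl⟩, (hh y).symm⟩
  · rintro ⟨z, hz, rfl⟩
    obtain ⟨y, hy, rfl⟩ := (mem_iimage g.int).1 hz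
    exact ⟨y, hy, hh y⟩

theorem iimage_congr {M : Type u} [L.Structure M] [IsModel M] {f g : IFun M (INat M) (INat M)}
    {B : IPow M (INat M)} (h : ∀ a, a ∈ B → f a = g a) : iimage f B = iimage g B := by
  refine IPow.ext' fun x => ?_
  rw [mem_iimage f.int, mem_iimage g.int]
  refine exists_congr fun y => and_congr_right fun hy => ?_
  rw [h y hy]

theorem big_zero {M : Type u} [L.Structure M] [IsModel M] {γ : Type u} [ITy M γ]
    {B : IPow M γ} : ¬ Big 0 B := fun h => h.1 rfl

theorem ne_of_sz {M : Type u} [L.Structure M] [IsModel M] (hs : SzF M) {γ : Type u} [ITy M γ]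
    {B : IPow M γ} (h : sz B ≠ 0) : ∃ x, x ∈ B := by
  by_contra hc
  push Not at hc
  have : B = ∅ := IPow.ext' fun x => ⟨fun hx => absurd hx (hc x), fun hx => by
    rw [mem_empty] at hx
    exact hx.elim⟩
  rw [this] at h
  exact h (hs.empty γ)

theorem knd_holds (h1 : P_SZ.{u}) (h2 : P_BIG.{u}) (h3 : P_MN.{u}) : P_KND.{u} := by
  intro M _ _ c hc
  have hs := h1 M
  have hm := h3 M
  have hb := h2 M c hc
  refine ⟨fun f hf B hB hne => ?_, fun f g h k l hk hl hg hh B hB hne => ?_,
    fun f k l hk hl => ?_⟩
  · rw [iimage_id hf]
    exact ⟨Or.inl, fun h => h.elim id fun h => absurd h big_zero⟩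
  · have hne' : ∃ x, x ∈ iimage g B := by
      obtain ⟨x, hx⟩ := hne
      exact ⟨g x, (mem_iimage g.int).2 ⟨x, hx, rfl⟩⟩
    have e1 : Big k (iimage g B) ↔ Big k B := by
      unfold Big
      rw [hs.img _ _ B g hB hg]
    rw [iimage_comp hh, hk _ (hB.image g.int) hne', hl B hB hne, e1, hm.big]
    tauto
  · have key : ∀ B : IPow M (INat M), IFin B → (∃ x, x ∈ B) → ¬ B ∈ c → (Big k B ↔ Big l B) := by
      intro B hB hne hBc
      have h4 := hk B hB hne
      rw [hl B hB hne] at h4
      tauto
    have main : ∀ k l : INat M, (∀ B : IPow M (INat M), IFin B → (∃ x, x ∈ B) → ¬ B ∈ c →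
        (Big k B ↔ Big l B)) → l ≠ 0 → k ≠ 0 ∧ k ≤ l := by
      intro k l hkl hl0
      obtain ⟨B, hB, hBn, hBc⟩ := hb l hl0
      have h5 : Big k B := (hkl B hB (ne_of_sz hs (hBn ▸ hl0)) hBc).2 ⟨hl0, hBn ▸ le_rfl⟩
      exact ⟨h5.1, hBn ▸ h5.2⟩
    have key' : ∀ B : IPow M (INat M), IFin B → (∃ x, x ∈ B) → ¬ B ∈ c → (Big l B ↔ Big k B) :=
      fun B hB hne hBc => (key B hB hne hBc).symm
    by_cases hl0 : l = 0
    · by_cases hk0 : k = 0
      · rw [hl0, hk0]
      · exact absurd hl0 (main l k key' hk0).1
    · have h5 := main k l key hl0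
      exact le_antisymm h5.2 (main l k key' h5.1).2

theorem near_holds (h1 : P_SZ.{u}) (h2 : P_EMB.{u}) : P_NEAR.{u} := by
  intro M _ _ c A hc hA
  have hs := h1 M
  have hB : Int M (fun q : INat M × IPow M (INat M) => Big q.1 q.2) :=
    int_Big IntF.fst' IntF.snd'
  have hi : Int M (fun B : IPow M (INat M) => B ∈ c ∨ Big (sz A).succ B) := by
    (repeat' (first | with_reducible exact IntF.id | with_reducible exact IntF.fst' | with_reducible exact IntF.snd' | with_reducible exact IntF.const _ | with_reducible exact Int.const _ | assumption | with_reducible apply Int.and | with_reducible apply Int.or | with_reducible apply Int.not | with_reducible apply Int.imp | with_reducible apply Int.iff | with_reducible apply Int.ne | with_reducible apply Int.eq | with_reducible apply Int.mem | with_reducible apply Int.subset | with_reducible apply Int.ltN | with_reducible apply Int.leN | with_reducible apply Int.fin | with_reducible apply Int.unique | with_reducible apply Int.all | with_reducible apply Int.ex | with_reducible apply IntF.fst | with_reducible apply IntF.snd | with_reducible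 apply IntF.app | with_reducible apply IntF.ite | with_reducible apply IntF.sep | with_reducible apply IntF.lam | with_reducible apply IntF.insert | with_reducible apply IntF.singleton | with_reducible apply IntF.union | with_reducible apply IntF.inter | with_reducible apply IntF.sdiff | with_reducible apply IntF.isUnion | with_reducible apply IntF.iimage | with_reducible apply IntF.the | with_reducible apply IntF.irec | with_reducible_and_instances apply IntF.mul | with_reducible_and_instances apply IntF.inv | with_reducible_and_instances apply IntF.smul | with_reducible apply IntF.succ | with_reducible apply IntF.val | with_reducible apply IntF.mk | (with_reducible refine Int.comp ?_ ?_; assumption) | (with_reducible refine Int.comp₂ ?_ ?_ ?_; assumption) | (with_reducible refine Int.comp₃ ?_ ?_ ?_ ?_; assumption) | (with_reducible refine Int.comp₄ ?_ ?_ ?_ ?_ ?_; assumption) | (with_reducible refine IntF.comp ?_ ?_; assumption) | (with_reducible refine IntF.comp₂ ?_ ?_ ?_; assumption) | (with_reducible refine Helper672.ZFA.IntF.comp₃ ?_ ?_ ?_ ?_; assumption) | with_reducible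 apply IntF.pair))
  obtain ⟨f, h3, h4, h5⟩ := h2 M (sep M fun B : IPow M (INat M) => B ∈ c ∨ Big (sz A).succ B) c A
    hc hA (fun B hBA hne => by
      rw [mem_sep hi]
      refine ⟨fun h => h.elim id fun h => ?_, Or.inl⟩
      have h6 := hs.mono _ B A hA hBA
      exact absurd (h.2.trans h6) (not_le.2 (INat.lt_succ_self _)))
  refine ⟨f, (sz A).succ, h3, INat.succ_ne_zero _, fun B hB hne => ?_, h4⟩
  rw [h5 B hB hne, mem_sep hi]

theorem cls_holds (h1 : P_SZ.{u}) : P_CLS.{u} := by
  intro M _ _ c f hc hcl
  have hs := h1 M
  have hsz : IntF M (fun s : IPow M (INat M) => sz s) := int_sz'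
  have hf : IntF M (fun a => f a) := f.int
  have hfi : IntF M (fun B : IPow M (INat M) => iimage f B) := IntF.iimage
    (f := fun (_ : IPow M (INat M)) a => f a) (IntF.comp hf IntF.snd') IntF.id
  refine ⟨fun a b hab => ?_, ?_⟩
  · obtain ⟨g, k, hg, -, hgf⟩ := hcl (insert a {b}) ((IFin.singleton _).insert _)
    refine hg a b ?_
    rw [hgf a (mem_insert.2 (Or.inl rfl)), hgf b (mem_insert.2 (Or.inr (mem_singleton.2 rfl)))]
    exact hab
  · have hup : ∀ B : IPow M (INat M), IFin B → (∃ x, x ∈ B) → B ∈ c → iimage f B ∈ c := by
      intro B hB hne hBc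
      obtain ⟨g, k, hg, hk, hgf⟩ := hcl B hB
      rw [← iimage_congr hgf]
      exact (hk B hB hne).2 (Or.inl hBc)
    by_cases hbad : ∃ B : IPow M (INat M), IFin B ∧ (∃ x, x ∈ B) ∧ ¬ B ∈ c ∧ iimage f B ∈ c
    · obtain ⟨B₀, hB₀⟩ := hbad
      obtain ⟨m, ⟨B₁, hB₁, rfl⟩, hmin⟩ := INat.exists_least (p := fun n => ∃ B : IPow M (INat M),
        (IFin B ∧ (∃ x, x ∈ B) ∧ ¬ B ∈ c ∧ iimage f B ∈ c) ∧ sz B = n) (by (repeat' (first | with_reducible exact IntF.id | with_reducible exact IntF.fst' | with_reducible exact IntF.snd' | with_reducible exact IntF.const _ | with_reducible exact Int.const _ | assumption | with_reducible apply Int.and | with_reducible apply Int.or | with_reducible apply Int.not | with_reducible apply Int.imp | with_reducible apply Int.iff | with_reducible apply Int.ne | with_reducible apply Int.eq | with_reducible apply Int.mem | with_reducible apply Int.subset | with_reducible apply Int.ltN | with_reducible apply Int.leN | with_reducible apply Int.fin | with_reducible apply Int.unique | with_reducible apply Int.all | with_reducible apply Int.ex | with_reducible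 apply IntF.fst | with_reducible apply IntF.snd | with_reducible apply IntF.app | with_reducible apply IntF.ite | with_reducible apply IntF.sep | with_reducible apply IntF.lam | with_reducible apply IntF.insert | with_reducible apply IntF.singleton | with_reducible apply IntF.union | with_reducible apply IntF.inter | with_reducible apply IntF.sdiff | with_reducible apply IntF.isUnion | with_reducible apply IntF.iimage | with_reducible apply IntF.the | with_reducible apply IntF.irec | with_reducible_and_instances apply IntF.mul | with_reducible_and_instances apply IntF.inv | with_reducible_and_instances apply IntF.smul | with_reducible apply IntF.succ | with_reducible apply IntF.val | with_reducible apply IntF.mk | (with_reducible refine Int.comp ?_ ?_; assumption) | (with_reducible refine Int.comp₂ ?_ ?_ ?_; assumption) | (with_reducible refine Int.comp₃ ?_ ?_ ?_ ?_; assumption) | (with_reducible refine Int.comp₄ ?_ ?_ ?_ ?_ ?_; assumption) | (with_reducible refine IntF.comp ?_ ?_; assumption) | (with_reducible refine IntF.comp₂ ?_ ?_ ?_; assumption) | (with_reducible refine Helper672.ZFA.IntF.comp₃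 ?_ ?_ ?_ ?_; assumption) | with_reducible apply IntF.pair)))
        ⟨_, B₀, hB₀, rfl⟩
      obtain ⟨h3, ⟨x₁, hx₁⟩, h4, h5⟩ := hB₁
      have hm0 : sz B₁ ≠ 0 := by
        intro h0
        have h6 : ({x₁} : IPow M (INat M)) ⊆ B₁ := fun x hx => by
          rw [mem_singleton] at hx
          rw [hx]
          exact hx₁
        have h7 := hs.mono _ _ B₁ h3 h6
        have h8 : sz ({x₁} : IPow M (INat M)) = INat.succ 0 := by
          have h9 : ({x₁} : IPow M (INat M)) = insert x₁ ∅ := IPow.ext' fun x => by simp
          rw [h9, hs.ins _ ∅ x₁ IFin.empty (by simp), hs.empty]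
        rw [h8, h0] at h7
        exact absurd (INat.succ_le_iff.1 h7) INat.not_lt_zero
      refine ⟨sz B₁, fun B hB hne => ⟨fun h => ?_, fun h => ?_⟩⟩
      · by_cases hBc : B ∈ c
        · exact Or.inl hBc
        · exact Or.inr ⟨hm0, hmin _ ⟨B, ⟨hB, hne, hBc, h⟩, rfl⟩⟩
      · by_cases hBc : B ∈ c
        · exact hup B hB hne hBc
        · have hbig := h.resolve_left hBc
          obtain ⟨g, k, hg, hk, hgf⟩ := hcl (B ∪ B₁) (hB.union h3)
          have e1 : iimage f B = iimage g B := iimage_congr fun a ha =>
            (hgf a (mem_union.2 (Or.inl ha))).symm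
          have e2 : iimage f B₁ = iimage g B₁ := iimage_congr fun a ha =>
            (hgf a (mem_union.2 (Or.inr ha))).symm
          rw [e2] at h5
          have h6 := ((hk B₁ h3 ⟨x₁, hx₁⟩).1 h5).resolve_left h4
          rw [e1]
          exact (hk B hB hne).2 (Or.inr ⟨h6.1, h6.2.trans hbig.2⟩)
    · push Not at hbad
      refine ⟨0, fun B hB hne => ⟨fun h => ?_, fun h => ?_⟩⟩
      · by_cases hBc : B ∈ c
        · exact Or.inl hBc
        · exact absurd h (hbad B hB hne hBc)
      · exact h.elim (hup B hB hne) fun h => absurd h big_zero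

end Pool.Agent.W477.CL
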