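import Pool.Agent.W477.CL.Stms

/-!
# The monoids
-/

set_option maxHeartbeats 1000000
set_option linter.all false

namespace Pool.Agent.W477.CL

open FirstOrder FirstOrder.Language
open Pool.Agent.Helper672.ZFA hiding IsOrdPair IsPair Mem
open Pool.Agent.H310
open Pool.Agent.W924

universe u

theorem mona_holds (h1 : P_KND.{u}) (h2 : P_CLS.{u}) : P_MONA.{u} := by
  intro M _ _ c hc
  have hK := h1 M c hc
  refine ⟨fun f hf => ?_, fun f hf => ?_, fun f g h hf hg hh => ?_, fun f hf => ?_⟩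
  · obtain ⟨hI, -⟩ := mem_NN.1 hf
    exact ⟨0, INat.succ 0, fun h => INat.succ_ne_zero (0 : INat M) (hI _ _ h).symm⟩
  · refine mem_NN.2 ⟨fun a b hab => ?_, 0, hK.id f hf⟩
    rw [hf, hf] at hab
    exact hab
  · obtain ⟨hf1, k, hk⟩ := mem_NN.1 hf
    obtain ⟨hg1, l, hl⟩ := mem_NN.1 hg
    refine mem_NN.2 ⟨fun a b hab => ?_, mn k l, hK.comp f g h k l hk hl hg1 hh⟩
    rw [hh, hh] at hab
    exact hg1 _ _ (hf1 _ _ hab)
  · refine mem_NN.2 (h2 M c f hc fun A hA => ?_)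
    obtain ⟨g, hg, hgf⟩ := hf A hA
    obtain ⟨hg1, k, hk⟩ := mem_NN.1 hg
    exact ⟨g, k, hg1, hk, hgf⟩

/-- The action on pairs. -/
theorem exists_act {M : Type u} [L.Structure M] [IsModel M] (f : IFun M (INat M) (INat M))
    (k : INat M) : ∃ h : IFun M (INat M × INat M) (INat M × INat M), Act f k h := by
  have hm : IntF M (fun q : INat M × INat M => mn k q.2) := int_mn (IntF.const _) IntF.snd'
  have hf : IntF M (fun q : INat M × INat M => f q.1) := IntF.comp f.int IntF.fst'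
  exact ⟨⟨fun q => (f q.1, mn k q.2), hf.pair hm⟩, fun x y => rfl⟩

theorem monb_holds (h1 : P_KND.{u}) (h2 : P_MN.{u}) : P_MONB.{u} := by
  intro M _ _ c hc
  have hK := h1 M c hc
  have hm := h2 M
  refine ⟨fun h hh => ?_, fun h hh => ?_, fun h g e hh hg he => ?_, fun h hh => ?_⟩
  · obtain ⟨f, k, hf, hk, ha⟩ := mem_NN'.1 hh
    refine ⟨(0, 0), (INat.succ 0, 0), fun hab => ?_⟩
    rw [ha, ha] at hab
    exact INat.succ_ne_zero (0 : INat M) (hf _ _ (Prod.ext_iff.1 hab).1).symm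
  · refine mem_NN'.2 ⟨⟨fun a => a, IntF.id⟩, 0, fun a b hab => hab, hK.id _ fun a => rfl,
      fun x y => ?_⟩
    rw [hh, hm.zero_left]
  · obtain ⟨f₁, k₁, hf₁, hk₁, ha₁⟩ := mem_NN'.1 hh
    obtain ⟨f₂, k₂, hf₂, hk₂, ha₂⟩ := mem_NN'.1 hg
    have hcomp : IntF M (fun a => f₁ (f₂ a)) := IntF.comp f₁.int f₂.int
    refine mem_NN'.2 ⟨⟨_, hcomp⟩, mn k₁ k₂, fun a b hab => hf₂ _ _ (hf₁ _ _ hab),
      hK.comp f₁ f₂ _ k₁ k₂ hk₁ hk₂ hf₂ fun a => rfl, fun x y => ?_⟩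
    rw [he, ha₂, ha₁, hm.assoc]
  · have hfi : IntF M (fun x : INat M => (h (x, 0)).1) :=
      IntF.fst (IntF.comp h.int (IntF.id.pair (IntF.const _)))
    have key : ∀ A : IPow M (INat M × INat M), IFin A → ∃ f₁, Inj f₁ ∧
        Knd c f₁ (h (0, 0)).2 ∧ (∀ x y, (x, y) ∈ A → h (x, y) = (f₁ x, mn (h (0, 0)).2 y)) := by
      intro A hA
      obtain ⟨g, hg, hgA⟩ := hh (insert (0, 0) A) (hA.insert _)
      obtain ⟨f₁, k₁, hf₁, hk₁, ha₁⟩ := mem_NN'.1 hg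
      have h3 : k₁ = (h (0, 0)).2 := by
        rw [← hgA (0, 0) (mem_insert.2 (Or.inl rfl)), ha₁]
        exact (hm.zero_right k₁).symm
      refine ⟨f₁, hf₁, h3 ▸ hk₁, fun x y hxy => ?_⟩
      rw [← h3, ← ha₁, hgA (x, y) (mem_insert.2 (Or.inr hxy))]
    have hv : ∀ (f₁ : IFun M (INat M) (INat M)) (A : IPow M (INat M × INat M)),
        (∀ x y, (x, y) ∈ A → h (x, y) = (f₁ x, mn (h (0, 0)).2 y)) → ∀ x, (x, 0) ∈ A →
        (h (x, 0)).1 = f₁ x := by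
      intro f₁ A hA x hx
      rw [hA x 0 hx]
    refine mem_NN'.2 ⟨⟨_, hfi⟩, (h (0, 0)).2, fun a b hab => ?_, fun B hB hne => ?_,
      fun x y => ?_⟩
    · obtain ⟨f₁, h3, -, h4⟩ := key (insert (a, 0) {(b, 0)}) ((IFin.singleton _).insert _)
      refine h3 a b ?_
      rw [← hv f₁ _ h4 a (mem_insert.2 (Or.inl rfl)),
        ← hv f₁ _ h4 b (mem_insert.2 (Or.inr (mem_singleton.2 rfl)))]
      exact hab
    · have hp : IntF M (fun b : INat M => (b, (0 : INat M))) := IntF.id.pair (IntF.const _)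
      obtain ⟨f₁, -, h5, h4⟩ := key (iimage (fun b : INat M => (b, (0 : INat M))) B) (hB.image hp)
      have h6 : iimage (fun x : INat M => (h (x, 0)).1) B = iimage f₁ B := by
        refine IPow.ext' fun y => ?_
        rw [mem_iimage hfi, mem_iimage f₁.int]
        refine exists_congr fun x => and_congr_right fun hx => ?_
        rw [hv f₁ _ h4 x ((mem_iimage hp).2 ⟨x, hx, rfl⟩)]
      have h7 := h5 B hB hne
      rw [← h6] at h7
      exact h7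
    · obtain ⟨f₁, -, -, h4⟩ := key (insert (x, y) {(x, 0)}) ((IFin.singleton _).insert _)
      change h (x, y) = ((h (x, 0)).1, mn (h (0, 0)).2 y)
      rw [hv f₁ _ h4 x (mem_insert.2 (Or.inr (mem_singleton.2 rfl)))]
      exact h4 x y (mem_insert.2 (Or.inl rfl))

theorem monc_holds (h1 : P_KND.{u}) (h2 : P_MN.{u}) : P_MONC.{u} := by
  intro M _ _ c hc
  have hK := h1 M c hc
  have hm := h2 M
  refine ⟨fun f h hfh => ?_, fun f hf => ?_, fun h hh => ?_, fun f h h' hfh hfh' => ?_,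
    fun f f' h hfh hfh' => ?_, fun f h hf hh => ?_, fun f h f' h' f'' h'' hfh hfh' hf hh => ?_⟩
  · obtain ⟨hf, k, hk, ha⟩ := mem_ThT.1 hfh
    exact ⟨mem_NN.2 ⟨hf, k, hk⟩, mem_NN'.2 ⟨f, k, hf, hk, ha⟩⟩
  · obtain ⟨hf, k, hk⟩ := mem_NN.1 hf
    obtain ⟨h, hh⟩ := exists_act f k
    exact ⟨h, mem_ThT.2 ⟨hf, k, hk, hh⟩⟩
  · obtain ⟨f, k, hf, hk, ha⟩ := mem_NN'.1 hh
    exact ⟨f, mem_ThT.2 ⟨hf, k, hk, ha⟩⟩
  · obtain ⟨hf, k, hk, ha⟩ := mem_ThT.1 hfh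
    obtain ⟨-, k', hk', ha'⟩ := mem_ThT.1 hfh'
    obtain rfl := hK.uniq f k k' hk hk'
    refine IFun.ext' fun q => ?_
    obtain ⟨x, y⟩ := q
    rw [ha, ha']
  · obtain ⟨hf, k, hk, ha⟩ := mem_ThT.1 hfh
    obtain ⟨-, k', hk', ha'⟩ := mem_ThT.1 hfh'
    refine IFun.ext' fun x => ?_
    have h3 := ha x 0
    rw [ha' x 0] at h3
    exact (Prod.ext_iff.1 h3).1.symm
  · refine mem_ThT.2 ⟨fun a b hab => ?_, 0, hK.id f hf, fun x y => ?_⟩
    · rw [hf, hf] at hab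
      exact hab
    · rw [hh, hf, hm.zero_left]
  · obtain ⟨hf₁, k, hk, ha⟩ := mem_ThT.1 hfh
    obtain ⟨hf₂, k', hk', ha'⟩ := mem_ThT.1 hfh'
    refine mem_ThT.2 ⟨fun a b hab => ?_, mn k k', hK.comp f f' f'' k k' hk hk' hf₂ hf,
      fun x y => ?_⟩
    · rw [hf, hf] at hab
      exact hf₂ _ _ (hf₁ _ _ hab)
    · rw [hh, ha', ha, hm.assoc, hf]

theorem mond_holds (h1 : P_HOM.{u}) (h2 : P_ORB.{u}) (h3 : P_NEAR.{u}) (h4 : P_MN.{u}) :
    P_MOND.{u} := by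
  intro M _ _ c hc
  refine ⟨fun n => ?_, fun A hA => ?_⟩
  · obtain ⟨s, h5, h6, h7⟩ := h2 M c n
    refine ⟨s, h5, h6, fun x hx => ?_⟩
    obtain ⟨x', p, hx', hp, hpx⟩ := h7 x hx
    obtain ⟨f, g, hfg, hfp, hf, hg, hkf, hkg⟩ := h1 M c p hc hp
    exact ⟨x', f, g, hx', mem_NN.2 ⟨hf, 0, hkf⟩, mem_NN.2 ⟨hg, 0, hkg⟩, hfg,
      fun i y z hy hz => hfp y z (hpx i y z hy hz)⟩
  · obtain ⟨f, k, hf, hk, hkf, hfA⟩ := h3 M c A hc hA
    obtain ⟨h, hh⟩ := exists_act f k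
    refine ⟨f, h, mem_ThT.2 ⟨hf, k, hkf, hh⟩, hfA, fun h5 => hk ?_⟩
    rw [hh] at h5
    have h6 : mn k 0 = 0 := (Prod.ext_iff.1 h5).2
    rwa [(h4 M).zero_right] at h6

end Pool.Agent.W477.CL
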