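import Pool.Agent.W477.CL.Stms

/-!
# The clone is closed
-/

set_option maxHeartbeats 1000000
set_option linter.all false

namespace Pool.Agent.W477.CL

open FirstOrder FirstOrder.Language
open Pool.Agent.Helper672.ZFA hiding IsOrdPair IsPair Mem
open Pool.Agent.H310
open Pool.Agent.W924

universe u

theorem u2_holds (h : P_IOP.{u}) : P_U2.{u} := by
  intro M _ _ γ _ N hN n F hn hF hcl
  have hI := h M
  obtain ⟨a₀, -, -⟩ := hN.nc ⟨fun a => a, IntF.id⟩ (hN.id _ fun a => rfl)
  have hT : Int M (fun q : INat M × TT M γ => ITup q.1 q.2) := int_ITup IntF.fst' IntF.snd'
  -- the function works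
  have hW : Int M (fun q : (IFun M γ γ × INat M) × IPow M (TT M γ) =>
      ∀ x y, x ∈ q.2 → (x, y) ∈ F → ∃ z, (q.1.2, z) ∈ x ∧ q.1.1 z = y) := by
    (repeat' (first | with_reducible exact IntF.id | with_reducible exact IntF.fst' | with_reducible exact IntF.snd' | with_reducible exact IntF.const _ | with_reducible exact Int.const _ | assumption | with_reducible apply Int.and | with_reducible apply Int.or | with_reducible apply Int.not | with_reducible apply Int.imp | with_reducible apply Int.iff | with_reducible apply Int.ne | with_reducible apply Int.eq | with_reducible apply Int.mem | with_reducible apply Int.subset | with_reducible apply Int.ltN | with_reducible apply Int.leN | with_reducible apply Int.fin | with_reducible apply Int.unique | with_reducible apply Int.all | with_reducible apply Int.ex | with_reducible apply IntF.fst | with_reducible apply IntF.snd | with_reducible apply IntF.app | with_reducible apply IntF.ite | with_reducible apply IntF.sep | with_reducible apply IntF.lam | with_reducible apply IntF.insert | with_reducible apply IntF.singleton | with_reducible apply IntF.union | with_reducible apply IntF.inter | with_reducible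 apply IntF.sdiff | with_reducible apply IntF.isUnion | with_reducible apply IntF.iimage | with_reducible apply IntF.the | with_reducible apply IntF.irec | with_reducible_and_instances apply IntF.mul | with_reducible_and_instances apply IntF.inv | with_reducible_and_instances apply IntF.smul | with_reducible apply IntF.succ | with_reducible apply IntF.val | with_reducible apply IntF.mk | (with_reducible refine Int.comp ?_ ?_; assumption) | (with_reducible refine Int.comp₂ ?_ ?_ ?_; assumption) | (with_reducible refine Int.comp₃ ?_ ?_ ?_ ?_; assumption) | (with_reducible refine Int.comp₄ ?_ ?_ ?_ ?_ ?_; assumption) | (with_reducible refine IntF.comp ?_ ?_; assumption) | (with_reducible refine IntF.comp₂ ?_ ?_ ?_; assumption) | (with_reducible refine Helper672.ZFA.IntF.comp₃ ?_ ?_ ?_ ?_; assumption) | with_reducible apply IntF.pair))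
  have step1 : ∃ i, i < n ∧ ∀ s : IPow M (TT M γ), IFin s → (∀ x, x ∈ s → ITup n x) →
      ∃ f : IFun M γ γ, f ∈ N ∧ ∀ x y, x ∈ s → (x, y) ∈ F → ∃ z, (i, z) ∈ x ∧ f z = y := by
    by_contra hc
    push Not at hc
    have hW' : Int M (fun q : INat M × IPow M (TT M γ) =>
        (IFin q.2 ∧ ∀ x, x ∈ q.2 → ITup n x) ∧ ¬ ∃ f : IFun M γ γ, f ∈ N ∧
          ∀ x y, x ∈ q.2 → (x, y) ∈ F → ∃ z, (q.1, z) ∈ x ∧ f z = y) := by
      (repeat' (first | with_reducible exact IntF.id | with_reducible exact IntF.fst' | with_reducible exact IntF.snd' | with_reducible exact IntF.const _ | with_reducible exact Int.const _ | assumption | with_reducible apply Int.and | with_reducible apply Int.or | with_reducible apply Int.not | with_reducible apply Int.imp | with_reducible apply Int.iff | with_reducible apply Int.ne | with_reducible apply Int.eq | with_reducible apply Int.mem | with_reducible apply Int.subset | with_reducible apply Int.ltN | with_reducible apply Int.leN | with_reducible apply Int.fin | with_reducible apply Int.unique | with_reducible apply Int.all | with_reducible apply Int.ex | with_reducible apply IntF.fst | with_reducible apply IntF.snd | with_reducible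 apply IntF.app | with_reducible apply IntF.ite | with_reducible apply IntF.sep | with_reducible apply IntF.lam | with_reducible apply IntF.insert | with_reducible apply IntF.singleton | with_reducible apply IntF.union | with_reducible apply IntF.inter | with_reducible apply IntF.sdiff | with_reducible apply IntF.isUnion | with_reducible apply IntF.iimage | with_reducible apply IntF.the | with_reducible apply IntF.irec | with_reducible_and_instances apply IntF.mul | with_reducible_and_instances apply IntF.inv | with_reducible_and_instances apply IntF.smul | with_reducible apply IntF.succ | with_reducible apply IntF.val | with_reducible apply IntF.mk | (with_reducible refine Int.comp ?_ ?_; assumption) | (with_reducible refine Int.comp₂ ?_ ?_ ?_; assumption) | (with_reducible refine Int.comp₃ ?_ ?_ ?_ ?_; assumption) | (with_reducible refine Int.comp₄ ?_ ?_ ?_ ?_ ?_; assumption) | (with_reducible refine IntF.comp ?_ ?_; assumption) | (with_reducible refine IntF.comp₂ ?_ ?_ ?_; assumption) | (with_reducible refine Helper672.ZFA.IntF.comp₃ ?_ ?_ ?_ ?_; assumption) | with_reducible apply IntF.pair))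
    obtain ⟨s, hs⟩ := IFin.exists_bound (α := INat M) (β := IPow M (TT M γ))
      (r := fun i s => (IFin s ∧ ∀ x, x ∈ s → ITup n x) ∧ ¬ ∃ f : IFun M γ γ, f ∈ N ∧
          ∀ x y, x ∈ s → (x, y) ∈ F → ∃ z, (i, z) ∈ x ∧ f z = y) hW'
      (fun b c => by
        by_cases hb : IFin b ∧ ∀ x, x ∈ b → ITup n x
        · by_cases hc' : IFin c ∧ ∀ x, x ∈ c → ITup n x
          · refine ⟨b ∪ c, fun i hi => ⟨⟨hb.1.union hc'.1, fun x hx => ?_⟩, ?_⟩⟩
            · rcases mem_union.1 hx with hx | hx
              · exact hb.2 x hx
              · exact hc'.2 x hx
            · rintro ⟨f, hf, hfw⟩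
              rcases hi with hi | hi
              · exact hi.2 ⟨f, hf, fun x y hx hxy => hfw x y (mem_union.2 (Or.inl hx)) hxy⟩
              · exact hi.2 ⟨f, hf, fun x y hx hxy => hfw x y (mem_union.2 (Or.inr hx)) hxy⟩
          · refine ⟨b, fun i hi => ?_⟩
            rcases hi with hi | hi
            · exact hi
            · exact absurd hi.1 hc'
        · refine ⟨c, fun i hi => ?_⟩
          rcases hi with hi | hi
          · exact absurd hi.1 hb
          · exact hi)
      ⟨∅⟩ ((finP_lt n).fin (by (repeat' (first | with_reducible exact IntF.id | with_reducible exact IntF.fst' | with_reducible exact IntF.snd' | with_reducible exact IntF.const _ | with_reducible exact Int.const _ | assumption | with_reducible apply Int.and | with_reducible apply Int.or | with_reducible apply Int.not | with_reducible apply Int.imp | with_reducible apply Int.iff | with_reducible apply Int.ne | with_reducible apply Int.eq | with_reducible apply Int.mem | with_reducible apply Int.subset | with_reducible apply Int.ltN | with_reducible apply Int.leN | with_reducible apply Int.fin | with_reducible apply Int.unique | with_reducible apply Int.all | with_reducible apply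 Int.ex | with_reducible apply IntF.fst | with_reducible apply IntF.snd | with_reducible apply IntF.app | with_reducible apply IntF.ite | with_reducible apply IntF.sep | with_reducible apply IntF.lam | with_reducible apply IntF.insert | with_reducible apply IntF.singleton | with_reducible apply IntF.union | with_reducible apply IntF.inter | with_reducible apply IntF.sdiff | with_reducible apply IntF.isUnion | with_reducible apply IntF.iimage | with_reducible apply IntF.the | with_reducible apply IntF.irec | with_reducible_and_instances apply IntF.mul | with_reducible_and_instances apply IntF.inv | with_reducible_and_instances apply IntF.smul | with_reducible apply IntF.succ | with_reducible apply IntF.val | with_reducible apply IntF.mk | (with_reducible refine Int.comp ?_ ?_; assumption) | (with_reducible refine Int.comp₂ ?_ ?_ ?_; assumption) | (with_reducible refine Int.comp₃ ?_ ?_ ?_ ?_; assumption) | (with_reducible refine Int.comp₄ ?_ ?_ ?_ ?_ ?_; assumption) | (with_reducible refine IntF.comp ?_ ?_; assumption) | (with_reducible refine IntF.comp₂ ?_ ?_ ?_; assumption) | (with_reducible refine Helper672.ZFA.IntF.comp₃ ?_ ?_ ?_ ?_; assumption)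 | with_reducible apply IntF.pair)))) (fun i hi => by
        have hi' : i < n := (mem_sep (p := fun m : INat M => m < n) (by (repeat' (first | with_reducible exact IntF.id | with_reducible exact IntF.fst' | with_reducible exact IntF.snd' | with_reducible exact IntF.const _ | with_reducible exact Int.const _ | assumption | with_reducible apply Int.and | with_reducible apply Int.or | with_reducible apply Int.not | with_reducible apply Int.imp | with_reducible apply Int.iff | with_reducible apply Int.ne | with_reducible apply Int.eq | with_reducible apply Int.mem | with_reducible apply Int.subset | with_reducible apply Int.ltN | with_reducible apply Int.leN | with_reducible apply Int.fin | with_reducible apply Int.unique | with_reducible apply Int.all | with_reducible apply Int.ex | with_reducible apply IntF.fst | with_reducible apply IntF.snd | with_reducible apply IntF.app | with_reducible apply IntF.ite | with_reducible apply IntF.sep | with_reducible apply IntF.lam | with_reducible apply IntF.insert | with_reducible apply IntF.singleton | with_reducible apply IntF.union | with_reducible apply IntF.inter | with_reducible apply IntF.sdiff | with_reducible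 apply IntF.isUnion | with_reducible apply IntF.iimage | with_reducible apply IntF.the | with_reducible apply IntF.irec | with_reducible_and_instances apply IntF.mul | with_reducible_and_instances apply IntF.inv | with_reducible_and_instances apply IntF.smul | with_reducible apply IntF.succ | with_reducible apply IntF.val | with_reducible apply IntF.mk | (with_reducible refine Int.comp ?_ ?_; assumption) | (with_reducible refine Int.comp₂ ?_ ?_ ?_; assumption) | (with_reducible refine Int.comp₃ ?_ ?_ ?_ ?_; assumption) | (with_reducible refine Int.comp₄ ?_ ?_ ?_ ?_ ?_; assumption) | (with_reducible refine IntF.comp ?_ ?_; assumption) | (with_reducible refine IntF.comp₂ ?_ ?_ ?_; assumption) | (with_reducible refine Helper672.ZFA.IntF.comp₃ ?_ ?_ ?_ ?_; assumption) | with_reducible apply IntF.pair)))).1 hi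
        obtain ⟨s, h1, h2, h3⟩ := hc i hi'
        refine ⟨s, ⟨h1, h2⟩, ?_⟩
        rintro ⟨f, hf, hfw⟩
        obtain ⟨x, y, h4, h5, h6⟩ := h3 f hf
        obtain ⟨z, h7, h8⟩ := hfw x y h4 h5
        exact h6 z h7 h8)
    have hs' : ∀ i, i < n → (IFin s ∧ ∀ x, x ∈ s → ITup n x) ∧ ¬ ∃ f : IFun M γ γ, f ∈ N ∧
          ∀ x y, x ∈ s → (x, y) ∈ F → ∃ z, (i, z) ∈ x ∧ f z = y := fun i hi =>
      hs i ((mem_sep (p := fun m : INat M => m < n) (by (repeat' (first | with_reducible exact IntF.id | with_reducible exact IntF.fst' | with_reducible exact IntF.snd' | with_reducible exact IntF.const _ | with_reducible exact Int.const _ | assumption | with_reducible apply Int.and | with_reducible apply Int.or | with_reducible apply Int.not | with_reducible apply Int.imp | with_reducible apply Int.iff | with_reducible apply Int.ne | with_reducible apply Int.eq | with_reducible apply Int.mem | with_reducible apply Int.subset | with_reducible apply Int.ltN | with_reducible apply Int.leN | with_reducible apply Int.fin | with_reducible apply Int.unique | with_reducible apply Int.all | with_reducible apply Int.ex | with_reducible apply IntF.fst | with_reducible apply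 IntF.snd | with_reducible apply IntF.app | with_reducible apply IntF.ite | with_reducible apply IntF.sep | with_reducible apply IntF.lam | with_reducible apply IntF.insert | with_reducible apply IntF.singleton | with_reducible apply IntF.union | with_reducible apply IntF.inter | with_reducible apply IntF.sdiff | with_reducible apply IntF.isUnion | with_reducible apply IntF.iimage | with_reducible apply IntF.the | with_reducible apply IntF.irec | with_reducible_and_instances apply IntF.mul | with_reducible_and_instances apply IntF.inv | with_reducible_and_instances apply IntF.smul | with_reducible apply IntF.succ | with_reducible apply IntF.val | with_reducible apply IntF.mk | (with_reducible refine Int.comp ?_ ?_; assumption) | (with_reducible refine Int.comp₂ ?_ ?_ ?_; assumption) | (with_reducible refine Int.comp₃ ?_ ?_ ?_ ?_; assumption) | (with_reducible refine Int.comp₄ ?_ ?_ ?_ ?_ ?_; assumption) | (with_reducible refine IntF.comp ?_ ?_; assumption) | (with_reducible refine IntF.comp₂ ?_ ?_ ?_; assumption) | (with_reducible refine Helper672.ZFA.IntF.comp₃ ?_ ?_ ?_ ?_; assumption) | with_reducible apply IntF.pair)))).2 hi)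
    obtain ⟨⟨h1, h2⟩, -⟩ := hs' 0 hn
    obtain ⟨G, hG, hGo, hag⟩ := hcl s h1 h2
    obtain ⟨n', i, f, hi, hf, rfl⟩ := mem_UU.1 hG
    obtain rfl : n' = n := hI.arity γ n' n _ a₀ (hI.op γ n' i f hi) hGo
    refine (hs' i hi).2 ⟨f, hf, fun x y hx hxy => ?_⟩
    exact (mem_iop.1 (hag x y hx hxy)).2
  obtain ⟨i, hi, hw⟩ := step1
  -- constant tuples
  have hKi : Int M (fun q : γ × (INat M × γ) => q.2.1 < n ∧ q.2.2 = q.1) := by
    (repeat' (first | with_reducible exact IntF.id | with_reducible exact IntF.fst' | with_reducible exact IntF.snd' | with_reducible exact IntF.const _ | with_reducible exact Int.const _ | assumption | with_reducible apply Int.and | with_reducible apply Int.or | with_reducible apply Int.not | with_reducible apply Int.imp | with_reducible apply Int.iff | with_reducible apply Int.ne | with_reducible apply Int.eq | with_reducible apply Int.mem | with_reducible apply Int.subset | with_reducible apply Int.ltN | with_reducible apply Int.leN | with_reducible apply Int.fin | with_reducible apply Int.unique | with_reducible apply Int.all | with_reducible apply Int.ex | with_reducible apply IntF.fst | with_reducible apply IntF.snd |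 with_reducible apply IntF.app | with_reducible apply IntF.ite | with_reducible apply IntF.sep | with_reducible apply IntF.lam | with_reducible apply IntF.insert | with_reducible apply IntF.singleton | with_reducible apply IntF.union | with_reducible apply IntF.inter | with_reducible apply IntF.sdiff | with_reducible apply IntF.isUnion | with_reducible apply IntF.iimage | with_reducible apply IntF.the | with_reducible apply IntF.irec | with_reducible_and_instances apply IntF.mul | with_reducible_and_instances apply IntF.inv | with_reducible_and_instances apply IntF.smul | with_reducible apply IntF.succ | with_reducible apply IntF.val | with_reducible apply IntF.mk | (with_reducible refine Int.comp ?_ ?_; assumption) | (with_reducible refine Int.comp₂ ?_ ?_ ?_; assumption) | (with_reducible refine Int.comp₃ ?_ ?_ ?_ ?_; assumption) | (with_reducible refine Int.comp₄ ?_ ?_ ?_ ?_ ?_; assumption) | (with_reducible refine IntF.comp ?_ ?_; assumption) | (with_reducible refine IntF.comp₂ ?_ ?_ ?_; assumption) | (with_reducible refine Helper672.ZFA.IntF.comp₃ ?_ ?_ ?_ ?_; assumption) | with_reducible apply IntF.pair))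
  let K : γ → TT M γ := fun a => sep M (fun q : INat M × γ => q.1 < n ∧ q.2 = a)
  have hK : IntF M K := IntF.sep (p := fun (a : γ) (q : INat M × γ) => q.1 < n ∧ q.2 = a) hKi
  have hKm : ∀ a k y, (k, y) ∈ K a ↔ (k < n ∧ y = a) := fun a k y =>
    mem_sep (Int.slice (p := fun (a : γ) (q : INat M × γ) => q.1 < n ∧ q.2 = a) hKi a)
  have hKt : ∀ a, ITup n (K a) := fun a => ⟨fun k y hk => ((hKm a k y).1 hk).1,
    fun k hk => ⟨a, (hKm a k a).2 ⟨hk, rfl⟩, fun y hy => ((hKm a k y).1 hy).2⟩⟩
  have hfi : IntF M (fun a => the (fun y => (K a, y) ∈ F) a) := by
    (repeat' (first | with_reducible exact IntF.id | with_reducible exact IntF.fst' | with_reducible exact IntF.snd' | with_reducible exact IntF.const _ | with_reducible exact Int.const _ | assumption | with_reducible apply Int.and | with_reducible apply Int.or | with_reducible apply Int.not | with_reducible apply Int.imp | with_reducible apply Int.iff | with_reducible apply Int.ne | with_reducible apply Int.eq | with_reducible apply Int.mem | with_reducible apply Int.subset | with_reducible apply Int.ltN | with_reducible apply Int.leN | with_reducible apply Int.fin | with_reducible apply Int.unique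 | with_reducible apply Int.all | with_reducible apply Int.ex | with_reducible apply IntF.fst | with_reducible apply IntF.snd | with_reducible apply IntF.app | with_reducible apply IntF.ite | with_reducible apply IntF.sep | with_reducible apply IntF.lam | with_reducible apply IntF.insert | with_reducible apply IntF.singleton | with_reducible apply IntF.union | with_reducible apply IntF.inter | with_reducible apply IntF.sdiff | with_reducible apply IntF.isUnion | with_reducible apply IntF.iimage | with_reducible apply IntF.the | with_reducible apply IntF.irec | with_reducible_and_instances apply IntF.mul | with_reducible_and_instances apply IntF.inv | with_reducible_and_instances apply IntF.smul | with_reducible apply IntF.succ | with_reducible apply IntF.val | with_reducible apply IntF.mk | (with_reducible refine Int.comp ?_ ?_; assumption) | (with_reducible refine Int.comp₂ ?_ ?_ ?_; assumption) | (with_reducible refine Int.comp₃ ?_ ?_ ?_ ?_; assumption) | (with_reducible refine Int.comp₄ ?_ ?_ ?_ ?_ ?_; assumption) | (with_reducible refine IntF.comp ?_ ?_; assumption) | (with_reducible refine IntF.comp₂ ?_ ?_ ?_; assumption) | (with_reducible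 refine Helper672.ZFA.IntF.comp₃ ?_ ?_ ?_ ?_; assumption) | with_reducible apply IntF.pair))
  have hfs : ∀ a, (K a, the (fun y => (K a, y) ∈ F) a) ∈ F := fun a =>
    the_spec (hF.2 (K a) (hKt a))
  have hfu : ∀ a y, (K a, y) ∈ F → the (fun y => (K a, y) ∈ F) a = y := fun a y hy =>
    the_eq (hF.2 (K a) (hKt a)) hy
  have hone : ∀ (f : IFun M γ γ) (s : IPow M (TT M γ)),
      (∀ x y, x ∈ s → (x, y) ∈ F → ∃ z, (i, z) ∈ x ∧ f z = y) →
      ∀ x y z, x ∈ s → ITup n x → (i, z) ∈ x → (x, y) ∈ F → f z = y := by
    intro f s hfw x y z hx hxt hz hxy
    obtain ⟨z', h1, h2⟩ := hfw x y hx hxy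
    obtain ⟨w, -, hu⟩ := hxt.2 i hi
    rw [hu z hz, ← hu z' h1]
    exact h2
  have hN' : (⟨_, hfi⟩ : IFun M γ γ) ∈ N := by
    refine hN.closed _ fun A hA => ?_
    obtain ⟨f, hf, hfw⟩ := hw (iimage K A) (hA.image hK) (fun x hx => by
      obtain ⟨a, -, rfl⟩ := (mem_iimage hK).1 hx
      exact hKt a)
    refine ⟨f, hf, fun a ha => ?_⟩
    exact hone f _ hfw (K a) _ a ((mem_iimage hK).2 ⟨a, ha, rfl⟩) (hKt a)
      ((hKm a i a).2 ⟨hi, rfl⟩) (hfs a)
  refine mem_UU.2 ⟨n, i, ⟨_, hfi⟩, hi, hN', hI.ext γ n F _ hF (hI.op γ n i _ hi)
    fun x y hxy => ?_⟩
  have hx := hF.1 x y hxy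
  obtain ⟨z, hz, -⟩ := hx.2 i hi
  obtain ⟨f, hf, hfw⟩ := hw (insert x {K z}) ((IFin.singleton _).insert x) (fun w hw' => by
    rcases mem_insert.1 hw' with rfl | hw'
    · exact hx
    · rw [mem_singleton] at hw'
      rw [hw']
      exact hKt z)
  have h1 := hone f _ hfw x y z (mem_insert.2 (Or.inl rfl)) hx hz hxy
  have h2 := hone f _ hfw (K z) _ z (mem_insert.2 (Or.inr (mem_singleton.2 rfl))) (hKt z)
    ((hKm z i z).2 ⟨hi, rfl⟩) (hfs z)
  exact mem_iop.2 ⟨hx, z, hz, h2.symm.trans h1⟩

end Pool.Agent.W477.CL
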