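import Pool.Agent.W477.CL.Stms

/-!
# The isomorphism
-/

set_option maxHeartbeats 1000000
set_option linter.all false

namespace Pool.Agent.W477.CL

open FirstOrder FirstOrder.Language
open Pool.Agent.Helper672.ZFA hiding IsOrdPair IsPair Mem
open Pool.Agent.H310
open Pool.Agent.W924

universe u

theorem u3_holds (h : P_IOP.{u}) : P_U3.{u} := by
  intro M _ _ γ δ _ _ N N' T hN hN' hT
  have hI := h M
  have neg : ∃ a b : γ, a ≠ b := by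
    obtain ⟨a, b, hab⟩ := hN.nc ⟨fun a => a, IntF.id⟩ (hN.id _ fun a => rfl)
    exact ⟨a, b, hab⟩
  have neg' : ∃ a b : δ, a ≠ b := by
    obtain ⟨a, b, hab⟩ := hN'.nc ⟨fun a => a, IntF.id⟩ (hN'.id _ fun a => rfl)
    exact ⟨a, b, hab⟩
  obtain ⟨a₀, -, -⟩ := neg
  obtain ⟨b₀, -, -⟩ := neg'
  have har : ∀ n F G, 0 < n → IOp n F → (F, G) ∈ EE T → IOp n G := by
    intro n F G hn hF hFG
    obtain ⟨n', i, f, g, hi, hfg, rfl, rfl⟩ := mem_EE.1 hFG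
    obtain rfl : n' = n := hI.arity γ n' n _ a₀ (hI.op γ n' i f hi) hF
    exact hI.op δ n' i g hi
  refine ⟨fun F G hFG => ?_, fun F hF => ?_, fun F F' G hF hF' => ?_, fun G hG => ?_, har,
    fun n i P P' hn hi hP hP' => ?_, ?_⟩
  · obtain ⟨n, i, f, g, hi, hfg, rfl, rfl⟩ := mem_EE.1 hFG
    obtain ⟨h1, h2⟩ := hT.rel f g hfg
    exact ⟨mem_UU.2 ⟨n, i, f, hi, h1, rfl⟩, mem_UU.2 ⟨n, i, g, hi, h2, rfl⟩⟩
  · obtain ⟨n, i, f, hi, hf, rfl⟩ := mem_UU.1 hF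
    obtain ⟨g, hg⟩ := hT.tot f hf
    refine ⟨iop n i g, mem_EE.2 ⟨n, i, f, g, hi, hg, rfl, rfl⟩, fun G hG => ?_⟩
    obtain ⟨n', i', f', g', hi', hfg', h1, rfl⟩ := mem_EE.1 hG
    obtain ⟨rfl, rfl, rfl⟩ := hI.inj γ n i n' i' f f' hi hi' (hN.nc f hf) h1
    rw [hT.fn f g g' hg hfg']
  · obtain ⟨n, i, f, g, hi, hfg, rfl, rfl⟩ := mem_EE.1 hF
    obtain ⟨n', i', f', g', hi', hfg', rfl, h1⟩ := mem_EE.1 hF'
    obtain ⟨rfl, rfl, rfl⟩ := hI.inj δ n i n' i' g g' hi hi' (hN'.nc g (hT.rel f g hfg).2) h1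
    rw [hT.inj f f' g hfg hfg']
  · obtain ⟨n, i, g, hi, hg, rfl⟩ := mem_UU.1 hG
    obtain ⟨f, hf⟩ := hT.surj g hg
    exact ⟨iop n i f, mem_EE.2 ⟨n, i, f, g, hi, hf, rfl, rfl⟩⟩
  · refine mem_EE.2 ⟨n, i, ⟨fun a => a, IntF.id⟩, ⟨fun a => a, IntF.id⟩, hi,
      hT.id _ _ (fun a => rfl) (fun a => rfl), ?_, ?_⟩
    · exact hI.prj γ n i P _ hi hP fun a => rfl
    · exact hI.prj δ n i P' _ hi hP' fun a => rfl
  · intro m n F G H F' G' H' hm hn hFo hG hGC hGo hH hFF hG' hGD hGG hH'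
    obtain ⟨m', j, f, g, hj, hfg, rfl, rfl⟩ := mem_EE.1 hFF
    obtain rfl : m' = m := hI.arity γ m' m _ a₀ (hI.op γ m' j f hj) hFo
    obtain ⟨K, hK, -⟩ := hG.2 j hj
    obtain ⟨K', hK', -⟩ := hG'.2 j hj
    have hKK := hGG j K K' hK hK'
    have hKo := hGo j K hK
    obtain ⟨n', i, f₁, g₁, hi, hfg₁, rfl, rfl⟩ := mem_EE.1 hKK
    obtain rfl : n' = n := hI.arity γ n' n _ a₀ (hI.op γ n' i f₁ hi) hKo
    have hGo' : ∀ l k, (l, k) ∈ G' → IOp n' k := by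
      intro l k' hlk'
      obtain ⟨k, hlk, -⟩ := hG.2 l (hG'.1 l k' hlk')
      exact har n' k k' hn (hGo l k hlk) (hGG l k k' hlk hlk')
    have hc : IntF M (fun a => f (f₁ a)) := IntF.comp f.int f₁.int
    have hc' : IntF M (fun a => g (g₁ a)) := IntF.comp g.int g₁.int
    refine mem_EE.2 ⟨n', i, ⟨_, hc⟩, ⟨_, hc'⟩, hi, hT.comp f g f₁ g₁ _ _ hfg hfg₁
      (fun a => rfl) (fun a => rfl), ?_, ?_⟩
    · exact hI.cmp γ n' m' i j f f₁ _ H _ G hi hj hG hGo hK rfl hH fun a => rfl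
    · exact hI.cmp δ n' m' i j g g₁ _ H' _ G' hi hj hG' hGo' hK' rfl hH' fun a => rfl

end Pool.Agent.W477.CL
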