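import Pool.Agent.W477.CL.Stms

/-!
# Oligomorphy and discontinuity
-/

set_option maxHeartbeats 1000000
set_option linter.all false

namespace Pool.Agent.W477.CL

open FirstOrder FirstOrder.Language
open Pool.Agent.Helper672.ZFA hiding IsOrdPair IsPair Mem
open Pool.Agent.H310
open Pool.Agent.W924

universe u

theorem u4_holds (h : P_IOP.{u}) : P_U4.{u} := by
  intro M _ _ γ _ N hN hO n hn
  have hI := h M
  obtain ⟨s, h1, h2, h3⟩ := hO n
  refine ⟨s, h1, h2, fun x hx => ?_⟩
  obtain ⟨x', f, g, h4, h5, h6, h7, h8⟩ := h3 x hx
  have h01 : (0 : INat M) < INat.succ 0 := INat.lt_succ_self 0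
  refine ⟨x', iop (INat.succ 0) 0 f, h4, ⟨mem_UU.2 ⟨_, _, f, h01, h5, rfl⟩,
    hI.op γ _ _ f h01, iop (INat.succ 0) 0 g, mem_UU.2 ⟨_, _, g, h01, h6, rfl⟩,
    hI.op γ _ _ g h01, fun y z => ?_⟩, fun i y z hy hz => ?_⟩
  · rw [hI.one γ f y z, hI.one γ g z y]
    exact h7 y z
  · rw [hI.one γ f y z]
    exact h8 i y z hy hz

theorem u5_holds (h : P_IOP.{u}) : P_U5.{u} := by
  intro M _ _ γ δ _ _ N N' T y₀ hN hN' hT hd hc
  have hI := h M
  have h01 : (0 : INat M) < INat.succ 0 := INat.lt_succ_self 0
  let e : IFun M γ γ := ⟨fun a => a, IntF.id⟩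
  let e' : IFun M δ δ := ⟨fun a => a, IntF.id⟩
  have hee : (e, e') ∈ T := hT.id e e' (fun a => rfl) (fun b => rfl)
  obtain ⟨a₀, -, -⟩ := hN.nc e (hT.rel e e' hee).1
  obtain ⟨t₀, ht₀, ht₀'⟩ := hI.tup δ (INat.succ 0) (fun _ => y₀) (IntF.const _)
  obtain ⟨s, h1, h2, h3⟩ := hc (INat.succ 0) (iop (INat.succ 0) 0 e) (iop (INat.succ 0) 0 e')
    {t₀} h01 (mem_UU.2 ⟨_, _, e, h01, (hT.rel e e' hee).1, rfl⟩) (hI.op γ _ _ e h01)
    (mem_EE.2 ⟨_, _, e, e', h01, hee, rfl, rfl⟩) (IFin.singleton _) (fun x hx => by
      rw [mem_singleton] at hx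
      rw [hx]
      exact ht₀)
  have hv : IntF M (fun x : TT M γ => the (fun a => (0, a) ∈ x) a₀) := by
    (repeat' (first | with_reducible exact IntF.id | with_reducible exact IntF.fst' | with_reducible exact IntF.snd' | with_reducible exact IntF.const _ | with_reducible exact Int.const _ | assumption | with_reducible apply Int.and | with_reducible apply Int.or | with_reducible apply Int.not | with_reducible apply Int.imp | with_reducible apply Int.iff | with_reducible apply Int.ne | with_reducible apply Int.eq | with_reducible apply Int.mem | with_reducible apply Int.subset | with_reducible apply Int.ltN | with_reducible apply Int.leN | with_reducible apply Int.fin | with_reducible apply Int.unique | with_reducible apply Int.all | with_reducible apply Int.ex | with_reducible apply IntF.fst | with_reducible apply IntF.snd | with_reducible apply IntF.app | with_reducible apply IntF.ite | with_reducible apply IntF.sep | with_reducible apply IntF.lam | with_reducible apply IntF.insert | with_reducible apply IntF.singleton | with_reducible apply IntF.union | with_reducible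 apply IntF.inter | with_reducible apply IntF.sdiff | with_reducible apply IntF.isUnion | with_reducible apply IntF.iimage | with_reducible apply IntF.the | with_reducible apply IntF.irec | with_reducible_and_instances apply IntF.mul | with_reducible_and_instances apply IntF.inv | with_reducible_and_instances apply IntF.smul | with_reducible apply IntF.succ | with_reducible apply IntF.val | with_reducible apply IntF.mk | (with_reducible refine Int.comp ?_ ?_; assumption) | (with_reducible refine Int.comp₂ ?_ ?_ ?_; assumption) | (with_reducible refine Int.comp₃ ?_ ?_ ?_ ?_; assumption) | (with_reducible refine Int.comp₄ ?_ ?_ ?_ ?_ ?_; assumption) | (with_reducible refine IntF.comp ?_ ?_; assumption) | (with_reducible refine IntF.comp₂ ?_ ?_ ?_; assumption) | (with_reducible refine Helper672.ZFA.IntF.comp₃ ?_ ?_ ?_ ?_; assumption) | with_reducible apply IntF.pair))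
  have hA : Int M (fun a : γ => ∃ x, x ∈ s ∧ (0, a) ∈ x) := by
    (repeat' (first | with_reducible exact IntF.id | with_reducible exact IntF.fst' | with_reducible exact IntF.snd' | with_reducible exact IntF.const _ | with_reducible exact Int.const _ | assumption | with_reducible apply Int.and | with_reducible apply Int.or | with_reducible apply Int.not | with_reducible apply Int.imp | with_reducible apply Int.iff | with_reducible apply Int.ne | with_reducible apply Int.eq | with_reducible apply Int.mem | with_reducible apply Int.subset | with_reducible apply Int.ltN | with_reducible apply Int.leN | with_reducible apply Int.fin | with_reducible apply Int.unique | with_reducible apply Int.all | with_reducible apply Int.ex | with_reducible apply IntF.fst | with_reducible apply IntF.snd | with_reducible apply IntF.app | with_reducible apply IntF.ite | with_reducible apply IntF.sep | with_reducible apply IntF.lam | with_reducible apply IntF.insert | with_reducible apply IntF.singleton | with_reducible apply IntF.union | with_reducible apply IntF.inter | with_reducible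 apply IntF.sdiff | with_reducible apply IntF.isUnion | with_reducible apply IntF.iimage | with_reducible apply IntF.the | with_reducible apply IntF.irec | with_reducible_and_instances apply IntF.mul | with_reducible_and_instances apply IntF.inv | with_reducible_and_instances apply IntF.smul | with_reducible apply IntF.succ | with_reducible apply IntF.val | with_reducible apply IntF.mk | (with_reducible refine Int.comp ?_ ?_; assumption) | (with_reducible refine Int.comp₂ ?_ ?_ ?_; assumption) | (with_reducible refine Int.comp₃ ?_ ?_ ?_ ?_; assumption) | (with_reducible refine Int.comp₄ ?_ ?_ ?_ ?_ ?_; assumption) | (with_reducible refine IntF.comp ?_ ?_; assumption) | (with_reducible refine IntF.comp₂ ?_ ?_ ?_; assumption) | (with_reducible refine Helper672.ZFA.IntF.comp₃ ?_ ?_ ?_ ?_; assumption) | with_reducible apply IntF.pair))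
  obtain ⟨f, g, hfg, hf, hg⟩ := hd (sep M fun a : γ => ∃ x, x ∈ s ∧ (0, a) ∈ x) (by
    refine (h1.image hv).subset fun a ha => ?_
    obtain ⟨x, hx, hax⟩ := (mem_sep hA).1 ha
    rw [mem_iimage hv]
    exact ⟨x, hx, the_eq ((h2 x hx).2 0 h01) hax⟩)
  refine hg ?_
  have h4 := h3 (iop (INat.succ 0) 0 f) (iop (INat.succ 0) 0 g)
    (mem_UU.2 ⟨_, _, f, h01, (hT.rel f g hfg).1, rfl⟩) (hI.op γ _ _ f h01)
    (mem_EE.2 ⟨_, _, f, g, h01, hfg, rfl, rfl⟩) (fun x y hx hxy => by
      obtain ⟨h5, z, h6, h7⟩ := mem_iop.1 hxy
      refine mem_iop.2 ⟨h5, z, h6, ?_⟩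
      rw [hf z ((mem_sep hA).2 ⟨x, hx, h6⟩)]
      exact h7) t₀ y₀ (mem_singleton.2 rfl)
    (mem_iop.2 ⟨ht₀, y₀, (ht₀' _ _).2 ⟨h01, rfl⟩, rfl⟩)
  obtain ⟨h5, z, h6, h7⟩ := mem_iop.1 h4
  obtain ⟨-, h8⟩ := (ht₀' _ _).1 h6
  have h9 : y₀ = z := h8
  rw [← h9] at h7
  exact h7

end Pool.Agent.W477.CL
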