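import Pool.Agent.W477.CL.Asm
import Pool.Agent.W477.CL.Chain
import Pool.Agent.W477.CL.Ext
import Pool.Agent.W477.CL.K1
import Pool.Agent.W477.CL.Mon
import Pool.Agent.W477.CL.Iop
import Pool.Agent.W477.CL.U2
import Pool.Agent.W477.CL.U3
import Pool.Agent.W477.CL.U45
import Pool.Agent.W918.OC.U1
import Pool.Agent.W366.OC.Sz
import Pool.Agent.W928.OC.Enum
import Pool.Agent.W928.OC.Epex
import Pool.Agent.W15.OC.Hom
import Pool.Agent.W924.OC.ORB

/-!
# The theorem
-/

set_option linter.all false

namespace Pool.Agent.W477.CL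

open FirstOrder FirstOrder.Language
open Pool.Agent.Helper672.Plain (LSet Mem Zermelo IsOrdPair)

universe u

theorem main {M : Type u} [LSet.Structure M] [Zermelo M] :
    ∃ a c : M, IsCountablyInfinite a ∧ IsClone c a ∧ IsClosed c a ∧ IsOligomorphic c a ∧
      ¬ IsReconstructible c a := by
  have sz : P_SZ.{u} := Pool.Agent.W366.OC.sz_holds
  have big : P_BIG.{u} := big_holds sz
  have knd : P_KND.{u} := knd_holds sz big mn_holds
  have emb : P_EMB.{u} := emb_holds chain_holds ext_holds
  have hom : P_HOM.{u} := Pool.Agent.W15.OC.hom_holds chain_holds ext_holds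
  exact asm (Pool.Agent.W928.OC.epex_holds Pool.Agent.W928.OC.enum_holds)
    (mona_holds knd (cls_holds sz)) (monb_holds knd mn_holds) (monc_holds knd mn_holds)
    (mond_holds hom Pool.Agent.W924.OC.orb_holds (near_holds sz emb) mn_holds)
    (Pool.Agent.W918.OC.u1_holds iop_holds) (u2_holds iop_holds) (u3_holds iop_holds)
    (u4_holds iop_holds) (u5_holds iop_holds)

end Pool.Agent.W477.CL
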