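import Pool.Agent.W924.WO
import Pool.Agent.H310R3.Bridge
import Pool.Agent.W477.CL.Defs

/-!
# A discontinuous isomorphism of oligomorphic clones without choice: the parts

Internal (typed) definitions and the statements of the parts.
-/

set_option linter.all false

namespace Pool.Agent.W477.CL

open FirstOrder FirstOrder.Language
open Pool.Agent.Helper672.ZFA hiding IsOrdPair IsPair Mem
open Pool.Agent.H310
open Pool.Agent.W924

universe u

/-! ### Typed definitions -/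

section defs

variable {M : Type u} [L.Structure M] [hM : IsModel M]
variable {γ δ : Type u} [ITy M γ] [ITy M δ]

/-- The size of a finite set. -/
noncomputable def sz (s : IPow M γ) : INat M :=
  the (fun n => ∃ e : IFun M γ (INat M), BN e s n) 0

/-- The extension property of a set of finite sets of natural numbers. -/
def EP (c : IPow M (IPow M (INat M))) : Prop :=
  ∀ (A : IPow M (INat M)) (φ : IPow M (IPow M (INat M))), IFin A →
    ∃ z, ¬ z ∈ A ∧ ∀ B, B ⊆ A → (insert z B ∈ c ↔ B ∈ φ)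

/-- `B` has at least `k` elements, and `k` is not `0` (the number `0` plays the role of
infinity). -/
def Big (k : INat M) (B : IPow M γ) : Prop := k ≠ 0 ∧ k ≤ sz B

/-- The function `f` has kind `k`. -/
def Knd (c : IPow M (IPow M (INat M))) (f : IFun M (INat M) (INat M)) (k : INat M) : Prop :=
  ∀ B : IPow M (INat M), IFin B → (∃ x, x ∈ B) →
    (iimage f B ∈ c ↔ (B ∈ c ∨ Big k B))

open Classical in
/-- The minimum, where `0` plays the role of infinity. -/
noncomputable def mn (a b : INat M) : INat M :=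
  if a = 0 then b else if b = 0 then a else if a ≤ b then a else b

/-- `p` is a finite partial isomorphism from `c'` to `c`. -/
def PIso (c' c : IPow M (IPow M (INat M))) (p : IPow M (INat M × INat M)) : Prop :=
  IFin p ∧ (∀ x y y', (x, y) ∈ p → (x, y') ∈ p → y = y') ∧
    (∀ x x' y, (x, y) ∈ p → (x', y) ∈ p → x = x') ∧
    ∀ B C : IPow M (INat M), (∃ x, x ∈ B) → (∀ x, x ∈ B → ∃ y, y ∈ C ∧ (x, y) ∈ p) →
      (∀ y, y ∈ C → ∃ x, x ∈ B ∧ (x, y) ∈ p) → (B ∈ c' ↔ C ∈ c)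

/-- Injective. -/
def Inj (f : IFun M γ δ) : Prop := ∀ a b, f a = f b → a = b

/-- A closed monoid of functions that are not constant. -/
structure Good (N : IPow M (IFun M γ γ)) : Prop where
  nc : ∀ f, f ∈ N → ∃ a b, f a ≠ f b
  id : ∀ f : IFun M γ γ, (∀ a, f a = a) → f ∈ N
  comp : ∀ f g h : IFun M γ γ, f ∈ N → g ∈ N → (∀ a, h a = f (g a)) → h ∈ N
  closed : ∀ f : IFun M γ γ,
    (∀ A : IPow M γ, IFin A → ∃ g, g ∈ N ∧ ∀ a, a ∈ A → g a = f a) → f ∈ N

/-- `T` is (the graph of) an isomorphism of monoids from `N` to `N'`. -/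
structure MonIso (T : IPow M (IFun M γ γ × IFun M δ δ)) (N : IPow M (IFun M γ γ))
    (N' : IPow M (IFun M δ δ)) : Prop where
  rel : ∀ f h, (f, h) ∈ T → f ∈ N ∧ h ∈ N'
  tot : ∀ f, f ∈ N → ∃ h, (f, h) ∈ T
  surj : ∀ h, h ∈ N' → ∃ f, (f, h) ∈ T
  fn : ∀ f h h', (f, h) ∈ T → (f, h') ∈ T → h = h'
  inj : ∀ f f' h, (f, h) ∈ T → (f', h) ∈ T → f = f'
  id : ∀ f h, (∀ a, f a = a) → (∀ b, h b = b) → (f, h) ∈ T
  comp : ∀ f h f' h' f'' h'', (f, h) ∈ T → (f', h') ∈ T → (∀ a, f'' a = f (f' a)) →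
    (∀ b, h'' b = h (h' b)) → (f'', h'') ∈ T

variable (M γ) in
/-- The type in which the tuples of elements of `γ` live. -/
abbrev TT : Type u := IPow M (INat M × γ)

variable (M γ) in
/-- The type in which the operations on `γ` live. -/
abbrev WW : Type u := IPow M (IPow M (INat M × γ) × γ)

/-- `x` is an `n`-tuple. -/
def ITup (n : INat M) (x : TT M γ) : Prop :=
  (∀ k y, (k, y) ∈ x → k < n) ∧ ∀ k, k < n → ∃! y, (k, y) ∈ x

/-- `F` is an operation of arity `n`. -/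
def IOp (n : INat M) (F : WW M γ) : Prop :=
  (∀ x y, (x, y) ∈ F → ITup n x) ∧ ∀ x, ITup n x → ∃! y, (x, y) ∈ F

/-- `F` is the projection. -/
def IPrj (F : WW M γ) (n i : INat M) : Prop :=
  IOp n F ∧ ∀ x y, ITup n x → (i, y) ∈ x → (x, y) ∈ F

/-- `H` is the composition of `F` with the operations in `G`. -/
def ICmp (H F : WW M γ) (G : IPow M (INat M × WW M γ)) (m n : INat M) : Prop :=
  IOp n H ∧ ∀ x t y, ITup n x → ITup m t →
    (∀ j k z, (j, k) ∈ G → (j, z) ∈ t → (x, z) ∈ k) → (t, y) ∈ F → (x, y) ∈ H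

/-- `C` is a clone. -/
structure IClone (C : IPow M (WW M γ)) : Prop where
  ops : ∀ F, F ∈ C → ∃ n, 0 < n ∧ IOp n F
  proj : ∀ n i F, 0 < n → i < n → IPrj F n i → F ∈ C
  comp : ∀ m n F G H, 0 < m → 0 < n → F ∈ C → IOp m F → ITup m G →
    (∀ j k, (j, k) ∈ G → k ∈ C) → (∀ j k, (j, k) ∈ G → IOp n k) → ICmp H F G m n → H ∈ C

/-- `C` is closed. -/
def IClosed (C : IPow M (WW M γ)) : Prop :=
  ∀ n F, 0 < n → IOp n F →
    (∀ s : IPow M (TT M γ), IFin s → (∀ x, x ∈ s → ITup n x) →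
      ∃ G, G ∈ C ∧ IOp n G ∧ ∀ x y, x ∈ s → (x, y) ∈ F → (x, y) ∈ G) → F ∈ C

/-- The value of a unary operation. -/
def IVal (F : WW M γ) (y z : γ) : Prop :=
  ∃ t : TT M γ, (∀ q, q ∈ t ↔ q = (0, y)) ∧ (t, z) ∈ F

/-- Invertible unary members of `C`. -/
def IInv (F : WW M γ) (C : IPow M (WW M γ)) : Prop :=
  F ∈ C ∧ IOp (INat.succ 0) F ∧ ∃ G, G ∈ C ∧ IOp (INat.succ 0) G ∧ ∀ y z, IVal F y z ↔ IVal G z y

/-- `C` is oligomorphic. -/
def IOlig (C : IPow M (WW M γ)) : Prop :=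
  ∀ n, 0 < n → ∃ s : IPow M (TT M γ), IFin s ∧ (∀ x, x ∈ s → ITup n x) ∧
    ∀ x, ITup n x → ∃ x' F, x' ∈ s ∧ IInv F C ∧ ∀ i y z, (i, y) ∈ x' → (i, z) ∈ x → IVal F y z

/-- `E` is an isomorphism of clones. -/
structure IIso (E : IPow M (WW M γ × WW M δ)) (C : IPow M (WW M γ)) (D : IPow M (WW M δ)) :
    Prop where
  rel : ∀ F G, (F, G) ∈ E → F ∈ C ∧ G ∈ D
  fn : ∀ F, F ∈ C → ∃! G, (F, G) ∈ E
  inj : ∀ F F' G, (F, G) ∈ E → (F', G) ∈ E → F = F'
  surj : ∀ G, G ∈ D → ∃ F, (F, G) ∈ E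
  arity : ∀ n F G, 0 < n → IOp n F → (F, G) ∈ E → IOp n G
  proj : ∀ n i P P', 0 < n → i < n → IPrj P n i → IPrj P' n i → (P, P') ∈ E
  comp : ∀ m n F G H F' G' H', 0 < m → 0 < n → IOp m F → ITup m G → (∀ j k, (j, k) ∈ G → k ∈ C) →
    (∀ j k, (j, k) ∈ G → IOp n k) → ICmp H F G m n → (F, F') ∈ E → ITup m G' →
    (∀ j k, (j, k) ∈ G' → k ∈ D) →
    (∀ j k k', (j, k) ∈ G → (j, k') ∈ G' → (k, k') ∈ E) → ICmp H' F' G' m n → (H, H') ∈ E

/-- `E` is continuous. -/
def ICont (E : IPow M (WW M γ × WW M δ)) (C : IPow M (WW M γ)) : Prop :=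
  ∀ n F F' (t : IPow M (TT M δ)), 0 < n → F ∈ C → IOp n F → (F, F') ∈ E → IFin t →
    (∀ x, x ∈ t → ITup n x) →
    ∃ s : IPow M (TT M γ), IFin s ∧ (∀ x, x ∈ s → ITup n x) ∧
      ∀ G G', G ∈ C → IOp n G → (G, G') ∈ E →
        (∀ x y, x ∈ s → (x, y) ∈ F → (x, y) ∈ G) → ∀ x y, x ∈ t → (x, y) ∈ F' → (x, y) ∈ G'

/-- The operation of arity `n` that depends only on the coordinate `i`, by the function `f`. -/
noncomputable def iop (n i : INat M) (f : IFun M γ γ) : WW M γ :=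
  sep M (fun q => ITup n q.1 ∧ ∃ z, (i, z) ∈ q.1 ∧ f z = q.2)

/-- The operations that depend only on one coordinate, by a function in `N`. -/
noncomputable def UU (N : IPow M (IFun M γ γ)) : IPow M (WW M γ) :=
  sep M (fun F => ∃ n i f, i < n ∧ f ∈ N ∧ F = iop n i f)

/-- The graph of the map on operations given by `T`. -/
noncomputable def EE (T : IPow M (IFun M γ γ × IFun M δ δ)) : IPow M (WW M γ × WW M δ) :=
  sep M (fun q => ∃ n i f h, i < n ∧ (f, h) ∈ T ∧ q.1 = iop n i f ∧ q.2 = iop n i h)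

/-- Condition for the clone of `N` to be oligomorphic. -/
def OligMon (N : IPow M (IFun M γ γ)) : Prop :=
  ∀ n : INat M, ∃ s : IPow M (TT M γ), IFin s ∧ (∀ x, x ∈ s → ITup n x) ∧
    ∀ x, ITup n x → ∃ x' f g, x' ∈ s ∧ f ∈ N ∧ g ∈ N ∧ (∀ a b, f a = b ↔ g b = a) ∧
      ∀ i y z, (i, y) ∈ x' → (i, z) ∈ x → f y = z

/-- The monoid of the injective functions that have a kind. -/
noncomputable def NN (c : IPow M (IPow M (INat M))) : IPow M (IFun M (INat M) (INat M)) :=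
  sep M (fun f => Inj f ∧ ∃ k, Knd c f k)

/-- The function `h` on pairs is given by the function `f` of kind `k`. -/
def Act (f : IFun M (INat M) (INat M)) (k : INat M)
    (h : IFun M (INat M × INat M) (INat M × INat M)) : Prop :=
  ∀ x y, h (x, y) = (f x, mn k y)

/-- The graph of the map from the monoid to the monoid of its action on pairs. -/
noncomputable def ThT (c : IPow M (IPow M (INat M))) :
    IPow M (IFun M (INat M) (INat M) × IFun M (INat M × INat M) (INat M × INat M)) :=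
  sep M (fun q => Inj q.1 ∧ ∃ k, Knd c q.1 k ∧ Act q.1 k q.2)

/-- The monoid of the actions on pairs. -/
noncomputable def NN' (c : IPow M (IPow M (INat M))) :
    IPow M (IFun M (INat M × INat M) (INat M × INat M)) :=
  sep M (fun h => ∃ f k, Inj f ∧ Knd c f k ∧ Act f k h)

end defs

end Pool.Agent.W477.CL
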