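import Pool.Agent.W477.CL.Brg

/-!
# The typed notions give the notions in the model
-/

set_option maxHeartbeats 1000000
set_option linter.all false

namespace Pool.Agent.W477.CL

open FirstOrder FirstOrder.Language
open Pool.Agent.Helper672.ZFA hiding IsOrdPair IsPair Mem
open Pool.Agent.Helper672.Plain (LSet Mem Zermelo IsOrdPair)
open Pool.Agent.H310
open Pool.Agent.H310Cards
open Pool.Agent.W924

universe u

attribute [local instance] Helper672.Plain.toL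

variable {M : Type u} [Helper672.Plain.LSet.Structure M] [hZ : Helper672.Plain.Zermelo M]

local instance instModelY : IsModel M := Helper672.Plain.isModel_toL

variable {α β γ δ : Type u} [ITy M α] [ITy M β] [ITy M γ] [ITy M δ]

theorem isProj_iff {n i : INat M} {F : WW M γ} :
    IsProj (code (M := M) F) n.val i.val (dom M γ) ↔ IPrj F n i := by
  unfold IsProj IPrj
  refine and_congr isOper_code ⟨fun h x y hx hy => ?_, fun h x y hx hy => ?_⟩
  · exact app_powc.1 (h _ _ (isFun_tup.2 ⟨x, hx, rfl⟩) (app_powc.2 hy))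
  · obtain ⟨x, hx', rfl⟩ := isFun_tup.1 hx
    obtain ⟨i', y, h1, rfl, h2⟩ := app_pow.1 hy
    rw [ITy.inj (M := M) (a₁ := i') (a₂ := i) h1] at h2
    exact app_powc.2 (h x y hx' h2)

theorem isComp_iff {m n : INat M} {H F : WW M γ} {G : IPow M (INat M × WW M γ)} :
    IsComp (code (M := M) H) (code (M := M) F) (code (M := M) G) m.val n.val (dom M γ) ↔
      ICmp H F G m n := by
  unfold IsComp ICmp
  refine and_congr isOper_code ⟨fun h x t y hx ht hG hF => ?_, fun h x t y hx ht hG hF => ?_⟩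
  · refine app_powc.1 (h _ _ _ (isFun_tup.2 ⟨x, hx, rfl⟩) (isFun_tup.2 ⟨t, ht, rfl⟩)
      (fun j k z hjk hjz => ?_) (app_powc.2 hF))
    obtain ⟨j, k, rfl, rfl, h1⟩ := app_pow.1 hjk
    obtain ⟨j', z, h2, rfl, h3⟩ := app_pow.1 hjz
    rw [ITy.inj (M := M) h2] at h3
    exact app_powc.2 (hG j k z h1 h3)
  · obtain ⟨x, hx', rfl⟩ := isFun_tup.1 hx
    obtain ⟨t, ht', rfl⟩ := isFun_tup.1 ht
    obtain ⟨t', y, h1, rfl, h2⟩ := app_pow.1 hF
    rw [ITy.inj (M := M) h1] at h2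
    refine app_powc.2 (h x t y hx' ht' (fun j k z hjk hjz => ?_) h2)
    exact app_powc.1 (hG _ _ _ (app_powc.2 hjk) (app_powc.2 hjz))

theorem isClone {C : IPow M (WW M γ)} (h : IClone C) : IsClone (code (M := M) C) (dom M γ) where
  ops f hf := by
    obtain ⟨F, hF, rfl⟩ := mem_cp.1 hf
    obtain ⟨n, h1, h2⟩ := h.ops F hF
    exact ⟨n.val, isArity_iff.2 ⟨n, h1, rfl⟩, isOper_code.2 h2⟩
  proj n i p hn hi hp := by
    obtain ⟨n, h1, rfl⟩ := isArity_iff.1 hn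
    obtain ⟨i, h2, rfl⟩ := mem_val.1 hi
    obtain ⟨F, h3, rfl⟩ := isOper_iff.1 hp.1
    exact mem_cpc.2 (h.proj n i F h1 h2 (isProj_iff.1 hp))
  comp m n f g k hm hn hf hfo hg hgo hk := by
    obtain ⟨m, h1, rfl⟩ := isArity_iff.1 hm
    obtain ⟨n, h2, rfl⟩ := isArity_iff.1 hn
    obtain ⟨F, hF, rfl⟩ := mem_cp.1 hf
    obtain ⟨G, h3, h4, rfl⟩ := isFun_tupC.1 hg
    obtain ⟨H, h5, rfl⟩ := isOper_iff.1 hk.1
    refine mem_cpc.2 (h.comp m n F G H h1 h2 hF (isOper_code.1 hfo) h3 h4 (fun j k hjk => ?_)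
      (isComp_iff.1 hk))
    exact isOper_code.1 (hgo _ _ (app_powc.2 hjk))

/-- Sets of tuples. -/
theorem exists_tups {n : INat M} {s : M} (hs : IsFinite s)
    (h : ∀ x, Mem x s → IsFun x n.val (dom M γ)) :
    ∃ s' : IPow M (TT M γ), IFin s' ∧ (∀ x, x ∈ s' → ITup n x) ∧ code s' = s := by
  obtain ⟨s', rfl⟩ := exists_pow (α := TT M γ) (s := s) (fun z hz => by
    obtain ⟨x, -, hx⟩ := isFun_tup.1 (h z hz)
    exact ⟨x, hx⟩)
  refine ⟨s', isFinite_iff.1 hs, fun x hx => ?_, rfl⟩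
  obtain ⟨x', h1, h2⟩ := isFun_tup.1 (h _ (mem_cpc.2 hx))
  rw [← ITy.inj (M := M) h2]
  exact h1

theorem tups_mem {n : INat M} {s : IPow M (TT M γ)} (h : ∀ x, x ∈ s → ITup n x) :
    ∀ x, Mem x (code (M := M) s) → IsFun x n.val (dom M γ) := by
  intro x hx
  obtain ⟨x, hx', rfl⟩ := mem_cp.1 hx
  exact isFun_tup.2 ⟨x, h x hx', rfl⟩

/-- Agreement on a set of tuples. -/
theorem agree_iff {s : IPow M (TT M γ)} {F G : WW M γ} :
    (∀ x y, Mem x (code (M := M) s) → App (code (M := M) F) x y → App (code (M := M) G) x y) ↔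
      ∀ x y, x ∈ s → (x, y) ∈ F → (x, y) ∈ G := by
  constructor
  · intro h x y hx hy
    exact app_powc.1 (h _ _ (mem_cpc.2 hx) (app_powc.2 hy))
  · intro h x y hx hy
    obtain ⟨x, hx', rfl⟩ := mem_cp.1 hx
    obtain ⟨x', y, h1, rfl, h2⟩ := app_pow.1 hy
    rw [ITy.inj (M := M) h1] at h2
    exact app_powc.2 (h x y hx' h2)

theorem isClosed {C : IPow M (WW M γ)} (h : IClosed C) :
    IsClosed (code (M := M) C) (dom M γ) := by
  intro n f hn hf hc
  obtain ⟨n, h1, rfl⟩ := isArity_iff.1 hn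
  obtain ⟨F, h2, rfl⟩ := isOper_iff.1 hf
  refine mem_cpc.2 (h n F h1 h2 fun s hs hst => ?_)
  obtain ⟨g, h3, h4, h5⟩ := hc (code (M := M) s) (isFinite_iff.2 hs) (tups_mem hst)
  obtain ⟨G, hG, rfl⟩ := mem_cp.1 h3
  exact ⟨G, hG, isOper_code.1 h4, agree_iff.1 h5⟩

theorem isInvertible {C : IPow M (WW M γ)} {F : WW M γ} (h : IInv F C) :
    IsInvertible (code (M := M) F) (code (M := M) C) (dom M γ) := by
  obtain ⟨h1, h2, G, h3, h4, h5⟩ := h
  refine ⟨mem_cpc.2 h1, isUnary_code.2 h2, code (M := M) G, mem_cpc.2 h3, isUnary_code.2 h4,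
    fun y z => ?_⟩
  rw [sends_iff, sends_iff]
  constructor
  · rintro ⟨a, b, rfl, rfl, h⟩
    exact ⟨b, a, rfl, rfl, (h5 a b).1 h⟩
  · rintro ⟨a, b, rfl, rfl, h⟩
    exact ⟨b, a, rfl, rfl, (h5 b a).2 h⟩

theorem isOligomorphic {C : IPow M (WW M γ)} (h : IOlig C) :
    IsOligomorphic (code (M := M) C) (dom M γ) := by
  intro n hn
  obtain ⟨n, h1, rfl⟩ := isArity_iff.1 hn
  obtain ⟨s, h2, h3, h4⟩ := h n h1
  refine ⟨code (M := M) s, isFinite_iff.2 h2, tups_mem h3, fun x hx => ?_⟩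
  obtain ⟨x, hx', rfl⟩ := isFun_tup.1 hx
  obtain ⟨x', F, h5, h6, h7⟩ := h4 x hx'
  refine ⟨code (M := M) x', code (M := M) F, mem_cpc.2 h5, isInvertible h6,
    fun i y z hy hz => ?_⟩
  obtain ⟨i, y, rfl, rfl, h8⟩ := app_pow.1 hy
  obtain ⟨i', z, h9, rfl, h10⟩ := app_pow.1 hz
  rw [ITy.inj (M := M) h9] at h10
  exact sends_iff.2 ⟨y, z, rfl, rfl, h7 i y z h8 h10⟩

theorem isIso {E : IPow M (WW M γ × WW M δ)} {C : IPow M (WW M γ)} {D : IPow M (WW M δ)}
    (h : IIso E C D) :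
    IsIso (code (M := M) E) (code (M := M) C) (dom M γ) (code (M := M) D) (dom M δ) where
  bij := by
    refine ⟨⟨?_, ?_⟩, ?_⟩
    · rw [isFun_gen (α := WW M γ) (β := WW M δ) (fun z => mem_cp (s := C))
        (fun z => mem_cp (s := D))]
      exact ⟨E, h.rel, h.fn, rfl⟩
    · intro x x' y hx hx'
      obtain ⟨F, G, rfl, rfl, h1⟩ := app_pow.1 hx
      obtain ⟨F', G', rfl, h2, h3⟩ := app_pow.1 hx'
      rw [ITy.inj (M := M) h2] at h3
      rw [h.inj F F' G h1 h3]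
    · intro y hy
      obtain ⟨G, hG, rfl⟩ := mem_cp.1 hy
      obtain ⟨F, hF⟩ := h.surj G hG
      exact ⟨code F, app_powc.2 hF⟩
  arity n f f' hn hf hff := by
    obtain ⟨n, h1, rfl⟩ := isArity_iff.1 hn
    obtain ⟨F, F', rfl, rfl, h2⟩ := app_pow.1 hff
    exact isOper_code.2 (h.arity n F F' h1 (isOper_code.1 hf) h2)
  proj n i p p' hn hi hp hp' := by
    obtain ⟨n, h1, rfl⟩ := isArity_iff.1 hn
    obtain ⟨i, h2, rfl⟩ := mem_val.1 hi
    obtain ⟨F, h3, rfl⟩ := isOper_iff.1 hp.1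
    obtain ⟨F', h4, rfl⟩ := isOper_iff.1 hp'.1
    exact app_powc.2 (h.proj n i F F' h1 h2 (isProj_iff.1 hp) (isProj_iff.1 hp'))
  comp m n f g k f' g' k' hm hn hf hg hgo hk hff hg' hgg hk' := by
    obtain ⟨m, h1, rfl⟩ := isArity_iff.1 hm
    obtain ⟨n, h2, rfl⟩ := isArity_iff.1 hn
    obtain ⟨F, F', rfl, rfl, h3⟩ := app_pow.1 hff
    obtain ⟨G, h4, h5, rfl⟩ := isFun_tupC.1 hg
    obtain ⟨G', h6, h7, rfl⟩ := isFun_tupC.1 hg'
    obtain ⟨H, h8, rfl⟩ := isOper_iff.1 hk.1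
    obtain ⟨H', h9, rfl⟩ := isOper_iff.1 hk'.1
    refine app_powc.2 (h.comp m n F G H F' G' H' h1 h2 (isOper_code.1 hf) h4 h5
      (fun j k hjk => isOper_code.1 (hgo _ _ (app_powc.2 hjk))) (isComp_iff.1 hk) h3 h6 h7
      (fun j k k' hjk hjk' => ?_) (isComp_iff.1 hk'))
    exact app_powc.1 (hgg _ _ _ (app_powc.2 hjk) (app_powc.2 hjk'))

theorem iCont {E : IPow M (WW M γ × WW M δ)} {C : IPow M (WW M γ)}
    (h : IsCont (code (M := M) E) (code (M := M) C) (dom M γ) (dom M δ)) : ICont E C := by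
  intro n F F' t hn hF hFo hFF ht htt
  obtain ⟨s, h1, h2, h3⟩ := h n.val (code (M := M) F) (code (M := M) F') (code (M := M) t)
    (isArity_iff.2 ⟨n, hn, rfl⟩) (mem_cpc.2 hF) (isOper_code.2 hFo) (app_powc.2 hFF)
    (isFinite_iff.2 ht) (tups_mem htt)
  obtain ⟨s, h4, h5, rfl⟩ := exists_tups h1 h2
  refine ⟨s, h4, h5, fun G G' hG hGo hGG hag => ?_⟩
  exact agree_iff.1 (h3 (code (M := M) G) (code (M := M) G') (mem_cpc.2 hG)
    (isOper_code.2 hGo) (app_powc.2 hGG) (agree_iff.2 hag))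

theorem isOmega_dom : IsOmega (dom M (INat M)) := by
  intro n
  rw [isNat_iff]
  exact mem_dom (M := M) (α := INat M)

theorem isCountablyInfinite_dom : IsCountablyInfinite (dom M (INat M)) := by
  have hi : Int M (fun q : INat M × INat M => q.1 = q.2) := Int.eq IntF.fst' IntF.snd'
  refine ⟨dom M (INat M), code (M := M) (sep M fun q : INat M × INat M => q.1 = q.2),
    isOmega_dom, ⟨?_, ?_⟩, ?_⟩
  · rw [isFun_gen (α := INat M) (β := INat M) (fun z => mem_domP) (fun z => mem_domP)]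
    refine ⟨_, fun a b _ => ⟨trivial, trivial⟩, fun a _ => ?_, rfl⟩
    exact ⟨a, (mem_sep hi).2 rfl, fun b hb => ((mem_sep hi).1 hb).symm⟩
  · intro x x' y hx hx'
    obtain ⟨a, b, rfl, rfl, hab⟩ := app_pow.1 hx
    obtain ⟨a', b', rfl, h4, hab'⟩ := app_pow.1 hx'
    rw [ITy.inj (M := M) h4] at hab'
    rw [mem_sep hi] at hab hab'
    have h5 : a = b := hab
    have h6 : a' = b := hab'
    rw [h5, h6]
  · intro y hy
    obtain ⟨k, -, rfl⟩ := mem_domP.1 hy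
    exact ⟨code k, app_powc.2 ((mem_sep hi).2 rfl)⟩

theorem isCountable_of {f : α → INat M} (hf : IntF M f) (hinj : ∀ a b, f a = f b → a = b) :
    IsCountable (dom M α) := by
  have hi : Int M (fun q : α × INat M => f q.1 = q.2) := hf
  refine ⟨dom M (INat M), code (M := M) (sep M fun q : α × INat M => f q.1 = q.2),
    isOmega_dom, ?_, ?_⟩
  · rw [isFun_gen (α := α) (β := INat M) (fun z => mem_domP) (fun z => mem_domP)]
    refine ⟨_, fun a b _ => ⟨trivial, trivial⟩, fun a _ => ?_, rfl⟩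
    exact ⟨f a, (mem_sep hi).2 rfl, fun b hb => ((mem_sep hi).1 hb).symm⟩
  · intro x x' y hx hx'
    obtain ⟨a, b, rfl, rfl, hab⟩ := app_pow.1 hx
    obtain ⟨a', b', rfl, h4, hab'⟩ := app_pow.1 hx'
    rw [ITy.inj (M := M) h4] at hab'
    rw [mem_sep hi] at hab hab'
    have h5 : f a = b := hab
    have h6 : f a' = b := hab'
    rw [hinj a a' (h5.trans h6.symm)]

end Pool.Agent.W477.CL
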